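import Mathlib
import Pool.Agent.H116.Bnr

/-! The family `GG k` with `α_bnr ≥ 3k` and `Γ_b ≤ 2k + 20` (helper file). -/

namespace Pool.Agent.H116.Bnr

open SimpleGraph Finset

/-- Vertices of `GG k`: a hub `h`, a vertex `w`, `k` leaves `z j` at the hub, and `k` triples
`l i, s i, c i`. -/
inductive Vx (k : ℕ) : Type
  | h
  | w
  | z (j : Fin k)
  | l (i : Fin k)
  | s (i : Fin k)
  | c (i : Fin k)
  deriving DecidableEq, Fintype

open Vx

/-- The distance table: `h` is adjacent to all `z j`, `s i`, `c i`; `w` to all `c i`; `l i` to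
`s i`; `s i` to `c i`; and the `c i` form a clique. -/
def D (k : ℕ) : Vx k → Vx k → ℕ
  | h, h => 0
  | h, w => 2
  | h, z _ => 1
  | h, l _ => 2
  | h, s _ => 1
  | h, c _ => 1
  | w, h => 2
  | w, w => 0
  | w, z _ => 3
  | w, l _ => 3
  | w, s _ => 2
  | w, c _ => 1
  | z _, h => 1
  | z _, w => 3
  | z i, z j => if i = j then 0 else 2
  | z _, l _ => 3
  | z _, s _ => 2
  | z _, c _ => 2
  | l _, h => 2
  | l _, w => 3
  | l _, z _ => 3
  | l i, l j => if i = j then 0 else 4
  | l i, s j => if i = j then 1 else 3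
  | l i, c j => if i = j then 2 else 3
  | s _, h => 1
  | s _, w => 2
  | s _, z _ => 2
  | s i, l j => if i = j then 1 else 3
  | s i, s j => if i = j then 0 else 2
  | s i, c j => if i = j then 1 else 2
  | c _, h => 1
  | c _, w => 1
  | c _, z _ => 2
  | c i, l j => if i = j then 2 else 3
  | c i, s j => if i = j then 1 else 2
  | c i, c j => if i = j then 0 else 1

theorem D_self (k : ℕ) (u : Vx k) : D k u u = 0 := by
  cases u <;> simp [D]

theorem D_comm (k : ℕ) (u v : Vx k) : D k u v = D k v u := by
  cases u <;> cases v <;> simp only [D] <;> (try split_ifs) <;> simp_all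

theorem D_tri (k : ℕ) (u v x : Vx k) (hvx : D k v x = 1) : D k u x ≤ D k u v + 1 := by
  cases u <;> cases v <;> cases x <;> simp only [D] at hvx ⊢ <;> (try split_ifs at hvx ⊢) <;>
    simp_all

/-- The graph: adjacency is distance one. -/
def GG (k : ℕ) : SimpleGraph (Vx k) where
  Adj u v := D k u v = 1
  symm := ⟨fun u v h => by rw [D_comm]; exact h⟩
  loopless := ⟨fun u h => by rw [D_self] at h; exact absurd h (by decide)⟩

theorem D_desc (k : ℕ) (hk : 0 < k) (u v : Vx k) (huv : u ≠ v) :
    ∃ x, D k x v = 1 ∧ D k u x + 1 = D k u v := by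
  cases u with
  | h =>
    cases v with
    | h => exact absurd rfl huv
    | w => exact ⟨c ⟨0, hk⟩, by simp [D]⟩
    | z j => exact ⟨h, by simp [D]⟩
    | l i => exact ⟨s i, by simp [D]⟩
    | s i => exact ⟨h, by simp [D]⟩
    | c i => exact ⟨h, by simp [D]⟩
  | w =>
    cases v with
    | h => exact ⟨c ⟨0, hk⟩, by simp [D]⟩
    | w => exact absurd rfl huv
    | z j => exact ⟨h, by simp [D]⟩
    | l i => exact ⟨s i, by simp [D]⟩
    | s i => exact ⟨c i, by simp [D]⟩
    | c i => exact ⟨w, by simp [D]⟩
  | z j =>
    cases v with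
    | h => exact ⟨z j, by simp [D]⟩
    | w => exact ⟨c ⟨0, hk⟩, by simp [D]⟩
    | z j' =>
      have : j ≠ j' := fun h => huv (by rw [h])
      exact ⟨h, by simp [D, this]⟩
    | l i => exact ⟨s i, by simp [D]⟩
    | s i => exact ⟨h, by simp [D]⟩
    | c i => exact ⟨h, by simp [D]⟩
  | l i =>
    cases v with
    | h => exact ⟨s i, by simp [D]⟩
    | w => exact ⟨c i, by simp [D]⟩
    | z j => exact ⟨h, by simp [D]⟩
    | l j =>
      have : i ≠ j := fun h => huv (by rw [h])
      exact ⟨s j, by simp [D, this]⟩
    | s j =>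
      by_cases hij : i = j
      · exact ⟨l i, by simp [D, hij]⟩
      · exact ⟨h, by simp [D, hij]⟩
    | c j =>
      by_cases hij : i = j
      · exact ⟨s i, by simp [D, hij]⟩
      · exact ⟨h, by simp [D, hij]⟩
  | s i =>
    cases v with
    | h => exact ⟨s i, by simp [D]⟩
    | w => exact ⟨c i, by simp [D]⟩
    | z j => exact ⟨h, by simp [D]⟩
    | l j =>
      by_cases hij : i = j
      · exact ⟨s i, by simp [D, hij]⟩
      · exact ⟨s j, by simp [D, hij]⟩
    | s j =>
      have : i ≠ j := fun h => huv (by rw [h])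
      exact ⟨h, by simp [D, this]⟩
    | c j =>
      by_cases hij : i = j
      · exact ⟨s i, by simp [D, hij]⟩
      · exact ⟨h, by simp [D, hij]⟩
  | c i =>
    cases v with
    | h => exact ⟨c i, by simp [D]⟩
    | w => exact ⟨c i, by simp [D]⟩
    | z j => exact ⟨h, by simp [D]⟩
    | l j =>
      by_cases hij : i = j
      · exact ⟨s i, by simp [D, hij]⟩
      · exact ⟨s j, by simp [D, hij]⟩
    | s j =>
      by_cases hij : i = j
      · exact ⟨c i, by simp [D, hij]⟩
      · exact ⟨h, by simp [D, hij]⟩
    | c j =>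
      have : i ≠ j := fun h => huv (by rw [h])
      exact ⟨c i, by simp [D, this]⟩

theorem GG_dist (k : ℕ) (hk : 0 < k) :
    (GG k).Preconnected ∧ ∀ u v, (GG k).dist u v = D k u v :=
  dist_of_table (D k) (D_self k) (fun u v x hvx => D_tri k u v x hvx)
    (fun u v huv => D_desc k hk u v huv)

theorem GG_connected (k : ℕ) (hk : 0 < k) : (GG k).Connected := by
  have : Nonempty (Vx k) := ⟨h⟩
  exact ⟨(GG_dist k hk).1⟩

theorem D_le (k : ℕ) (u v : Vx k) : D k u v ≤ 4 := by
  cases u <;> cases v <;> simp only [D] <;> (try split_ifs) <;> omega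

instance (k : ℕ) : Nontrivial (Vx k) := ⟨h, w, by simp⟩

/-- Lower bound for `α_bnr`. -/
theorem alpha_lower (k : ℕ) (hk : 0 < k) : 3 * k ≤ alphaBnr (GG k) := by
  have hd := (GG_dist k hk).2
  let f : Vx k → ℕ := fun v => match v with
    | z _ => 1
    | l _ => 2
    | _ => 0
  have hbr : IsBroadcast (GG k) f := by
    intro v
    have hle : f v ≤ ecc (GG k) v := by
      cases v with
      | z j =>
        have := dist_le_ecc (G := GG k) h (z j)
        rw [hd] at this
        simpa [f, D] using this
      | l i =>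
        have := dist_le_ecc (G := GG k) h (l i)
        rw [hd] at this
        simpa [f, D] using this
      | _ => simp [f]
    exact ⟨le_trans hle (ecc_le_diam v), hle⟩
  have hbn : BnIndep (GG k) f := by
    refine ⟨hbr, ?_⟩
    intro u v hu hv huv
    rintro t ⟨ht1, ht2⟩
    have h1 : (GG k).dist t u ≤ f u := ht1
    have h2 : (GG k).dist t v ≤ f v := ht2
    rw [hd] at h1 h2
    have goal : D k t u = f u ∧ D k t v = f v := by
      cases u <;> cases v <;> simp only [f] at hu hv h1 h2 ⊢ <;> (try omega) <;>
        cases t <;> simp only [D] at h1 h2 ⊢ <;> (try split_ifs at h1 h2 ⊢) <;> simp_all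
    constructor
    · show (GG k).dist t u = f u
      rw [hd]; exact goal.1
    · show (GG k).dist t v = f v
      rw [hd]; exact goal.2
  have hirr : Irredundant (GG k) f := by
    apply irr_of_private hbr
    intro v hv
    cases v with
    | z j =>
      refine ⟨z j, ?_, ?_, ?_⟩
      · intro u hu hfu
        rw [hd]
        cases u with
        | z j' =>
          have : j ≠ j' := fun h => hu (by rw [h])
          simp [f, D, this]
        | l i => simp [f, D]
        | _ => simp [f] at hfu
      · simp [f]
      · right; simp [f]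
    | l i =>
      refine ⟨c i, ?_, ?_, ?_⟩
      · intro u hu hfu
        rw [hd]
        cases u with
        | z j' => simp [f, D]
        | l i' =>
          have : i ≠ i' := fun h => hu (by rw [h])
          simp [f, D, this]
        | _ => simp [f] at hfu
      · rw [hd]; simp [f, D]
      · left; rw [hd]; simp [f, D]
    | _ => simp [f] at hv
  have hw : weight f = 3 * k := by
    have e : weight f = ∑ v ∈ (univ.image (fun j : Fin k => z j)) ∪
        (univ.image (fun i : Fin k => l i)), f v := by
      unfold weight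
      symm
      apply Finset.sum_subset (Finset.subset_univ _)
      intro v _ hv
      cases v with
      | z j => exact absurd (Finset.mem_union_left _ (Finset.mem_image.2 ⟨j, mem_univ _, rfl⟩)) hv
      | l i => exact absurd (Finset.mem_union_right _ (Finset.mem_image.2 ⟨i, mem_univ _, rfl⟩)) hv
      | _ => rfl
    rw [e, Finset.sum_union, Finset.sum_image, Finset.sum_image]
    · simp [f]; ring
    · intro a _ b _ hab; exact l.inj hab
    · intro a _ b _ hab; exact z.inj hab
    · rw [Finset.disjoint_left]
      intro a ha hb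
      obtain ⟨j, _, rfl⟩ := Finset.mem_image.1 ha
      obtain ⟨i, _, hi⟩ := Finset.mem_image.1 hb
      cases hi
  rw [← hw]
  exact le_csSup bdd_alpha ⟨f, hbn, hirr, rfl⟩

/-- Upper bound for `Γ_b`. -/
theorem gamma_upper (k : ℕ) (hk : 0 < k) : Gammab (GG k) ≤ 2 * k + 20 := by
  classical
  unfold Gammab
  apply csSup_le'
  rintro _ ⟨g, hg, rfl⟩
  have hd := (GG_dist k hk).2
  have hc := GG_connected k hk
  have hirr := irr_of_min hg
  obtain ⟨p, hp⟩ := private_choice hirr hc
  simp only [hd] at hp
  obtain ⟨y, hy1, hy2⟩ := hg.1.2 w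
  rw [hd] at hy2
  have hgle : ∀ v, g v ≤ 4 := by
    intro v
    refine le_trans (hg.1.1 v).2 ?_
    unfold ecc
    apply Finset.sup_le
    intro u _
    rw [hd]
    exact D_le k v u
  -- the dominator of `w` covers all `c i`
  have hyc : ∀ i, D k (c i) y ≤ g y := by
    intro i
    cases y <;> simp only [D] at hy2 ⊢ <;> (try split_ifs) <;> omega
  have hsplit : ∀ E : Finset (Vx k), weight g = ∑ v ∈ E, g v +
      ∑ v ∈ univ.filter (fun v => v ∉ E ∧ 0 < g v), g v := by
    intro E
    unfold weight
    rw [← Finset.sum_add_sum_compl E g]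
    congr 1
    rw [← Finset.sum_filter_add_sum_filter_not Eᶜ (fun v => 0 < g v)]
    have h0 : ∑ v ∈ Eᶜ.filter (fun v => ¬ 0 < g v), g v = 0 := by
      apply Finset.sum_eq_zero
      intro v hv
      have := (Finset.mem_filter.1 hv).2
      omega
    rw [h0, add_zero]
    apply Finset.sum_congr
    · ext v
      simp
    · intros; rfl
  have hE : ∀ E : Finset (Vx k), ∑ v ∈ E, g v ≤ E.card * 4 := by
    intro E
    calc ∑ v ∈ E, g v ≤ ∑ _v ∈ E, 4 := Finset.sum_le_sum fun v _ => hgle v
      _ = E.card * 4 := by simp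
  by_cases hbig : ∃ v0, 0 < g v0 ∧ ∀ t, (∀ i, t ≠ l i) → t ≠ w → D k t v0 ≤ g v0
  · obtain ⟨v0, hv0, hv0c⟩ := hbig
    let E : Finset (Vx k) := {y, h, w, v0}
    have hEc : E.card ≤ 4 := Finset.card_le_four
    let N : Finset (Vx k) := univ.filter (fun v => v ∉ E ∧ 0 < g v)
    have hN : ∀ v ∈ N, v ≠ y ∧ v ≠ h ∧ v ≠ w ∧ v ≠ v0 ∧ 0 < g v := by
      intro v hv
      simp only [N, E, Finset.mem_filter, Finset.mem_univ, true_and, Finset.mem_insert,
        Finset.mem_singleton, not_or] at hv
      tauto
    have hpl : ∀ v ∈ N, ∃ i, p v = l i := by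
      intro v hv
      obtain ⟨h1, h2, h3, h4, h5⟩ := hN v hv
      obtain ⟨_, hp2, _⟩ := hp v h5
      by_contra hno
      push Not at hno
      by_cases hpw : p v = w
      · have := hp2 y h1.symm hy1
        rw [hpw] at this
        omega
      · have := hp2 v0 h4.symm hv0
        have h6 := hv0c (p v) hno hpw
        omega
    have hg2 : ∀ v ∈ N, g v ≤ 2 := by
      intro v hv
      obtain ⟨h1, h2, h3, h4, h5⟩ := hN v hv
      obtain ⟨i, hi⟩ := hpl v hv
      obtain ⟨hp1, hp2, hp3⟩ := hp v h5
      by_contra hgt
      push Not at hgt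
      -- then `v` covers everything
      have hall : ∀ t, D k t v ≤ g v := by
        intro t
        rw [hi] at hp3
        have h4' := D_le k t v
        cases v with
        | l j =>
          simp only [D] at hp3
          split_ifs at hp3 <;> omega
        | _ => cases t <;> simp only [D] <;> (try split_ifs) <;> omega
      obtain ⟨_, hq2, _⟩ := hp v0 hv0
      have := hq2 v h4 h5
      have := hall (p v0)
      omega
    have hcard : N.card ≤ k := by
      have hinj : ∀ v ∈ N, ∀ v' ∈ N, p v = p v' → v = v' := by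
        intro v hv v' hv' hpp
        by_contra hne
        obtain ⟨_, _, _, _, h5⟩ := hN v hv
        obtain ⟨_, _, _, _, h5'⟩ := hN v' hv'
        obtain ⟨_, hp2, _⟩ := hp v h5
        obtain ⟨hp1', _, _⟩ := hp v' h5'
        have := hp2 v' (Ne.symm hne) h5'
        rw [hpp] at this
        omega
      have h1 : N.card ≤ (univ.image (fun i : Fin k => l i)).card := by
        apply Finset.card_le_card_of_injOn p
        · intro v hv
          obtain ⟨i, hi⟩ := hpl v hv
          rw [hi]
          simp
        · intro v hv v' hv' hpp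
          exact hinj v hv v' hv' hpp
      refine le_trans h1 ?_
      refine le_trans Finset.card_image_le ?_
      simp
    have hNs : ∑ v ∈ N, g v ≤ 2 * k := by
      calc ∑ v ∈ N, g v ≤ ∑ _v ∈ N, 2 := Finset.sum_le_sum hg2
        _ = N.card * 2 := by simp
        _ ≤ 2 * k := by omega
    have h1 := hsplit E
    have h2 := hE E
    have h3 : ∑ v ∈ univ.filter (fun v => v ∉ E ∧ 0 < g v), g v = ∑ v ∈ N, g v := rfl
    omega
  · push Not at hbig
    let E : Finset (Vx k) := {y, h, w}
    have hEc : E.card ≤ 3 := Finset.card_le_three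
    let N : Finset (Vx k) := univ.filter (fun v => v ∉ E ∧ 0 < g v)
    have hN : ∀ v ∈ N, v ≠ y ∧ v ≠ h ∧ v ≠ w ∧ 0 < g v := by
      intro v hv
      simp only [N, E, Finset.mem_filter, Finset.mem_univ, true_and, Finset.mem_insert,
        Finset.mem_singleton, not_or] at hv
      tauto
    -- strengths
    have hstr : ∀ v ∈ N, g v ≤ 1 ∨ ((∃ i, v = l i) ∧ g v = 2) := by
      intro v hv
      obtain ⟨h1, h2, h3, h5⟩ := hN v hv
      by_contra hcon
      push Not at hcon
      obtain ⟨hc1, hc2⟩ := hcon
      obtain ⟨t, ht1, ht2, ht3⟩ := hbig v h5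
      cases v with
      | h => exact h2 rfl
      | w => exact h3 rfl
      | l i =>
        have h6 := hc2 ⟨i, rfl⟩
        cases t with
        | l j => exact ht1 j rfl
        | w => exact ht2 rfl
        | _ => simp only [D] at ht3; (try split_ifs at ht3) <;> omega
      | _ =>
        cases t with
        | l j => exact ht1 j rfl
        | w => exact ht2 rfl
        | _ => simp only [D] at ht3; (try split_ifs at ht3) <;> omega
    -- private boundary vertices
    have hpk : ∀ v ∈ N, p v ≠ w ∧ ∀ i, p v ≠ c i := by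
      intro v hv
      obtain ⟨h1, h2, h3, h5⟩ := hN v hv
      obtain ⟨_, hp2, _⟩ := hp v h5
      have h6 := hp2 y h1.symm hy1
      constructor
      · intro h; rw [h] at h6; omega
      · intro i h
        rw [h] at h6
        have := hyc i
        omega
    let grp : Vx k → (Fin k ⊕ Fin k) ⊕ Unit := fun v => match v with
      | l i => Sum.inl (Sum.inl i)
      | s i => Sum.inl (Sum.inl i)
      | z j => Sum.inl (Sum.inr j)
      | _ => Sum.inr ()
    have hinj : ∀ v ∈ N, ∀ v' ∈ N, grp (p v) = grp (p v') → v = v' := by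
      intro v hv v' hv' hgg
      by_contra hne
      obtain ⟨_, _, _, h5⟩ := hN v hv
      obtain ⟨_, _, _, h5'⟩ := hN v' hv'
      obtain ⟨hp1, hp2, _⟩ := hp v h5
      obtain ⟨hp1', hp2', _⟩ := hp v' h5'
      have e1 := hp2 v' (Ne.symm hne) h5'
      have e2 := hp2' v hne h5
      obtain ⟨k1, k2⟩ := hpk v hv
      obtain ⟨k1', k2'⟩ := hpk v' hv'
      by_cases hpp : p v = p v'
      · rw [hpp] at e1; omega
      · cases hpv : p v <;> cases hpv' : p v' <;> rw [hpv, hpv'] at hgg <;>
          rw [hpv] at e1 hp1 <;> rw [hpv'] at e2 hp1' <;> simp only [grp] at hgg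
        all_goals first
          | (exact absurd hpv k1)
          | (exact absurd hpv' k1')
          | (exact absurd hpv (k2 _))
          | (exact absurd hpv' (k2' _))
          | omega
          | (simp only [Sum.inl.injEq, Sum.inr.injEq, reduceCtorEq] at hgg; done)
          | (simp only [Sum.inl.injEq, Sum.inr.injEq] at hgg; subst hgg; omega)
          | (simp only [Sum.inl.injEq] at hgg; subst hgg
             cases v <;> simp only [D] at hp1 e2 <;> (try split_ifs at hp1 e2) <;> omega)
          | (simp only [Sum.inl.injEq] at hgg; subst hgg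
             cases v' <;> simp only [D] at hp1' e1 <;> (try split_ifs at hp1' e1) <;> omega)
    have hcard : N.card ≤ 2 * k + 1 := by
      have h1 : N.card ≤ (univ : Finset ((Fin k ⊕ Fin k) ⊕ Unit)).card := by
        apply Finset.card_le_card_of_injOn (fun v => grp (p v))
        · intro v _; simp
        · intro v hv v' hv' h; exact hinj v hv v' hv' h
      refine le_trans h1 ?_
      simp
      omega
    have hh : ∀ v ∈ N, g v ≤ 1 + (if p v = h then 1 else 0) := by
      intro v hv
      rcases hstr v hv with h1 | ⟨⟨i, rfl⟩, h2⟩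
      · omega
      · obtain ⟨_, _, _, h5⟩ := hN _ hv
        obtain ⟨_, _, hp3⟩ := hp (l i) h5
        obtain ⟨k1, k2⟩ := hpk _ hv
        have hph : p (l i) = h := by
          rcases hp3 with hp3 | ⟨hp3, _⟩
          · rw [h2] at hp3
            cases hpv : p (l i) <;> rw [hpv] at hp3 <;> simp only [D] at hp3 <;>
              (try split_ifs at hp3)
            all_goals first
              | rfl
              | omega
              | (exact absurd hpv (k2 _))
              | (exact absurd hpv k1)
          · omega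
        rw [if_pos hph]
        omega
    have hNs : ∑ v ∈ N, g v ≤ 2 * k + 2 := by
      have h1 : ∑ v ∈ N, g v ≤ ∑ v ∈ N, (1 + (if p v = h then 1 else 0)) := Finset.sum_le_sum hh
      have h2 : ∑ v ∈ N, (1 + (if p v = h then 1 else 0)) =
          N.card + (N.filter (fun v => p v = h)).card := by
        rw [Finset.sum_add_distrib]
        simp
      have h3 : (N.filter (fun v => p v = h)).card ≤ 1 := by
        rw [Finset.card_le_one]
        intro a ha b hb
        obtain ⟨ha1, ha2⟩ := Finset.mem_filter.1 ha
        obtain ⟨hb1, hb2⟩ := Finset.mem_filter.1 hb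
        exact hinj a ha1 b hb1 (by rw [ha2, hb2])
      omega
    have h1 := hsplit E
    have h2 := hE E
    have h3 : ∑ v ∈ univ.filter (fun v => v ∉ E ∧ 0 < g v), g v = ∑ v ∈ N, g v := rfl
    omega

end Pool.Agent.H116.Bnr
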