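import Mathlib

/-!
G-adic additive bases: removable elements.
-/

namespace Pool.Agent.H116.GA

open Finset

/-- `g` is a `G`-adic sequence: strictly increasing, `g 0 = 1`, each term divides the next. -/
def IsGAdic (g : ℕ → ℕ) : Prop := g 0 = 1 ∧ StrictMono g ∧ ∀ i, g i ∣ g (i + 1)

/-- `A_G(W)`: sums `∑_{j ∈ F} x_j g_j` with `F ⊆ W` finite nonempty and
`1 ≤ x_j ≤ d_{j+1} - 1`, `d_{j+1} = g_{j+1} / g_j`. -/
def AG (g : ℕ → ℕ) (W : Set ℕ) : Set ℕ :=
  {n | ∃ (F : Finset ℕ) (x : ℕ → ℕ), F.Nonempty ∧ (∀ j ∈ F, j ∈ W) ∧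
    (∀ j ∈ F, 1 ≤ x j ∧ x j ≤ g (j + 1) / g j - 1) ∧ n = ∑ j ∈ F, x j * g j}

/-- a partition of the natural numbers into `h` nonempty parts -/
def IsPartition {h : ℕ} (W : Fin h → Set ℕ) : Prop :=
  (∀ i, (W i).Nonempty) ∧ (∀ i j, i ≠ j → Disjoint (W i) (W j)) ∧ ⋃ i, W i = Set.univ

/-- `A_G(𝒲)`, the union of the `A_G(W_i)` -/
def AU (g : ℕ → ℕ) {h : ℕ} (W : Fin h → Set ℕ) : Set ℕ := ⋃ i, AG g (W i)

/-- `A = {0} ∪ A_G(𝒲)` -/
def AA (g : ℕ → ℕ) {h : ℕ} (W : Fin h → Set ℕ) : Set ℕ := {0} ∪ AU g W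

/-- the `h`-fold sumset `hA` (repetitions allowed) -/
def hfold (h : ℕ) (A : Set ℕ) : Set ℕ :=
  {n | ∃ f : Fin h → ℕ, (∀ s, f s ∈ A) ∧ n = ∑ s, f s}

/-- asymptotic basis of order `h` -/
def AsympBasis (h : ℕ) (A : Set ℕ) : Prop := ∃ N, ∀ n, N ≤ n → n ∈ hfold h A

/-- minimal asymptotic basis of order `h` -/
def MinimalAsympBasis (h : ℕ) (A : Set ℕ) : Prop :=
  AsympBasis h A ∧ ∀ B, B ⊂ A → ¬ AsympBasis h B

/-- `W` contains `0`, or an interval `[l, m]` with `g (m + 1) > h * g l` -/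
def Thick (g : ℕ → ℕ) (h : ℕ) (W : Set ℕ) : Prop :=
  0 ∈ W ∨ ∃ l m, l ≤ m ∧ (∀ j, l ≤ j → j ≤ m → j ∈ W) ∧ h * g l < g (m + 1)

/-- the `G`-adic digits of `y` vanish outside `W` -/
def Supp (g : ℕ → ℕ) (W : Set ℕ) (y : ℕ) : Prop := ∀ j, j ∉ W → y % g (j + 1) = y % g j

section
variable {g : ℕ → ℕ} (hg : IsGAdic g)
include hg

lemma gpos (j : ℕ) : 0 < g j := by
  have := hg.2.1.monotone (Nat.zero_le j)
  rw [hg.1] at this; omega

lemma gdvd {i j : ℕ} (h : i ≤ j) : g i ∣ g j := by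
  induction j, h using Nat.le_induction with
  | base => exact dvd_rfl
  | succ n _ ih => exact ih.trans (hg.2.2 n)

lemma glt (j : ℕ) : j < g j := by
  induction j with
  | zero => rw [hg.1]; omega
  | succ n ih => have := hg.2.1 (Nat.lt_succ_self n); simp only [Nat.succ_eq_add_one] at this; omega

lemma gmul (j : ℕ) : g (j + 1) = g j * (g (j + 1) / g j) := (Nat.mul_div_cancel' (hg.2.2 j)).symm

lemma gsub (j : ℕ) : g j * (g (j + 1) / g j - 1) = g (j + 1) - g j := by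
  rw [Nat.mul_sub, mul_one, ← gmul hg j]

lemma two_le (j : ℕ) : 2 * g j ≤ g (j + 1) := by
  obtain ⟨d, hd⟩ := hg.2.2 j
  have h1 := hg.2.1 (Nat.lt_succ_self j)
  simp only [Nat.succ_eq_add_one] at h1
  rw [hd] at h1 ⊢
  have h0 := gpos hg j
  have : 2 ≤ d := by
    by_contra hlt
    have : d ≤ 1 := by omega
    have : g j * d ≤ g j * 1 := Nat.mul_le_mul_left _ this
    omega
  nlinarith

lemma mod_succ (y j : ℕ) :
    y % g (j + 1) = y % g j + g j * (y / g j % (g (j + 1) / g j)) := by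
  conv_lhs => rw [gmul hg j]
  rw [Nat.mod_mul]

lemma mod_mono_succ (y j : ℕ) : y % g j ≤ y % g (j + 1) := by
  rw [mod_succ hg]; omega

lemma mod_mono (y : ℕ) {i j : ℕ} (h : i ≤ j) : y % g i ≤ y % g j := by
  induction j, h using Nat.le_induction with
  | base => exact le_rfl
  | succ n _ ih => exact ih.trans (mod_mono_succ hg y n)

lemma step_le (y j : ℕ) : y % g (j + 1) ≤ y % g j + (g (j + 1) - g j) := by
  rw [mod_succ hg, ← gsub hg j]
  have h2 := two_le hg j
  have h0 := gpos hg j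
  have hd : 0 < g (j + 1) / g j := Nat.div_pos (by omega) h0
  have := Nat.mod_lt (y / g j) hd
  gcongr
  omega

lemma eq_mod (y : ℕ) {j : ℕ} (h : y ≤ j) : y % g j = y :=
  Nat.mod_eq_of_lt (lt_of_le_of_lt h (glt hg j))

/-- the digit expansion -/
lemma expand (y J : ℕ) :
    y % g J = ∑ j ∈ range J, (y / g j % (g (j + 1) / g j)) * g j := by
  induction J with
  | zero => simp [hg.1, Nat.mod_one]
  | succ n ih => rw [mod_succ hg, ih, sum_range_succ]; ring

lemma tele (J : ℕ) : ∑ j ∈ range J, (g (j + 1) - g j) = g J - 1 := by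
  induction J with
  | zero => simp [hg.1]
  | succ n ih =>
    rw [sum_range_succ, ih]
    have := gpos hg n
    have := two_le hg n
    omega

lemma sum_lt (F : Finset ℕ) (x : ℕ → ℕ) (hx : ∀ j ∈ F, x j ≤ g (j + 1) / g j - 1) (t : ℕ)
    (hF : ∀ j ∈ F, j < t) : ∑ j ∈ F, x j * g j < g t := by
  have h1 : ∑ j ∈ F, x j * g j ≤ ∑ j ∈ range t, (g (j + 1) - g j) := by
    calc ∑ j ∈ F, x j * g j ≤ ∑ j ∈ F, (g (j + 1) - g j) := by
          apply sum_le_sum
          intro j hj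
          rw [← gsub hg j, mul_comm]
          exact Nat.mul_le_mul_left _ (hx j hj)
      _ ≤ _ := sum_le_sum_of_subset (fun j hj => mem_range.2 (hF j hj))
  rw [tele hg] at h1
  have := gpos hg t
  omega

lemma sum_mod (F : Finset ℕ) (x : ℕ → ℕ) (hx : ∀ j ∈ F, x j ≤ g (j + 1) / g j - 1) (t : ℕ) :
    (∑ j ∈ F, x j * g j) % g t = ∑ j ∈ F with j < t, x j * g j := by
  rw [← sum_filter_add_sum_filter_not F (fun j => j < t)]
  have h1 : g t ∣ ∑ j ∈ F with ¬ j < t, x j * g j := by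
    apply dvd_sum
    intro j hj
    rw [mem_filter] at hj
    exact Dvd.dvd.mul_left (gdvd hg (by omega)) _
  obtain ⟨q, hq⟩ := h1
  rw [hq, Nat.add_mul_mod_self_left]
  apply Nat.mod_eq_of_lt
  apply sum_lt hg
  · intro j hj; exact hx j (mem_filter.1 hj).1
  · intro j hj; exact (mem_filter.1 hj).2

lemma supp_sum {W : Set ℕ} (F : Finset ℕ) (x : ℕ → ℕ)
    (hx : ∀ j ∈ F, x j ≤ g (j + 1) / g j - 1) (hF : ∀ j ∈ F, j ∈ W) :
    Supp g W (∑ j ∈ F, x j * g j) := by
  intro t ht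
  rw [sum_mod hg F x hx, sum_mod hg F x hx]
  congr 1
  ext j
  simp only [mem_filter]
  constructor
  · rintro ⟨h1, h2⟩
    refine ⟨h1, ?_⟩
    have : j ≠ t := fun h => ht (h ▸ hF j h1)
    omega
  · rintro ⟨h1, h2⟩; exact ⟨h1, by omega⟩

omit hg in
lemma supp_zero (W : Set ℕ) : Supp g W 0 := by intro j _; simp

lemma mem_AG_iff (W : Set ℕ) (y : ℕ) : y ∈ AG g W ↔ y ≠ 0 ∧ Supp g W y := by
  constructor
  · rintro ⟨F, x, ⟨j, hj⟩, hF, hx, rfl⟩
    refine ⟨?_, supp_sum hg F x (fun j hj => (hx j hj).2) hF⟩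
    have h1 : x j * g j ≤ ∑ j ∈ F, x j * g j := single_le_sum (f := fun j => x j * g j)
      (fun _ _ => Nat.zero_le _) hj
    have h2 := gpos hg j
    have h3 := (hx j hj).1
    have : 0 < x j * g j := Nat.mul_pos h3 h2
    omega
  · rintro ⟨hy, hs⟩
    have he : y = ∑ j ∈ range y, (y / g j % (g (j + 1) / g j)) * g j := by
      rw [← expand hg, eq_mod hg y le_rfl]
    refine ⟨(range y).filter (fun j => y / g j % (g (j + 1) / g j) ≠ 0),
      fun j => y / g j % (g (j + 1) / g j), ?_, ?_, ?_, ?_⟩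
    · rw [Finset.nonempty_iff_ne_empty]
      intro h0
      apply hy
      rw [he]
      apply sum_eq_zero
      intro j hj
      by_contra hne
      have : j ∈ (range y).filter (fun j => y / g j % (g (j + 1) / g j) ≠ 0) := by
        rw [mem_filter]
        exact ⟨hj, fun h => hne (by rw [h, zero_mul])⟩
      rw [h0] at this
      exact absurd this (Finset.notMem_empty _)
    · intro j hj
      rw [mem_filter] at hj
      by_contra hW
      have h1 := hs j hW
      rw [mod_succ hg] at h1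
      have h2 := gpos hg j
      have h3 : g j * (y / g j % (g (j + 1) / g j)) = 0 := by omega
      rcases Nat.mul_eq_zero.1 h3 with h | h
      · omega
      · exact hj.2 h
    · intro j hj
      rw [mem_filter] at hj
      refine ⟨Nat.one_le_iff_ne_zero.2 hj.2, ?_⟩
      have h2 := two_le hg j
      have h0 := gpos hg j
      have hd : 0 < g (j + 1) / g j := Nat.div_pos (by omega) h0
      have := Nat.mod_lt (y / g j) hd
      show y / g j % (g (j + 1) / g j) ≤ _
      omega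
    · rw [sum_filter]
      conv_lhs => rw [he]
      apply sum_congr rfl
      intro j _
      split_ifs with h
      · rfl
      · simp only [ne_eq, not_not] at h
        rw [h, zero_mul]

end
end Pool.Agent.H116.GA
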