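import Pool.Agent.H116.GAdic

namespace Pool.Agent.H116.GA

open Finset

section
variable {g : ℕ → ℕ} (hg : IsGAdic g)
include hg

omit hg in
lemma part_ex {h : ℕ} {W : Fin h → Set ℕ} (hW : IsPartition W) (j : ℕ) : ∃ k, j ∈ W k := by
  have : j ∈ ⋃ i, W i := by rw [hW.2.2]; trivial
  simpa using this

omit hg in
lemma part_uniq {h : ℕ} {W : Fin h → Set ℕ} (hW : IsPartition W) {j : ℕ} {k k' : Fin h}
    (h1 : j ∈ W k) (h2 : j ∈ W k') : k = k' := by
  by_contra hne
  exact Set.disjoint_left.1 (hW.2.1 k k' hne) h1 h2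

omit hg in
lemma part_not {h : ℕ} {W : Fin h → Set ℕ} (hW : IsPartition W) {j : ℕ} {k k' : Fin h}
    (h1 : j ∈ W k) (h2 : k' ≠ k) : j ∉ W k' := fun h => h2 (part_uniq hW h h1)

lemma fam_lt {h : ℕ} {W : Fin h → Set ℕ} (hW : IsPartition W) (u : Fin h → ℕ)
    (hu : ∀ k, Supp g (W k) (u k)) (j : ℕ) : ∑ k, u k % g j < g j := by
  induction j with
  | zero => simp [hg.1, Nat.mod_one]
  | succ j ih =>
    obtain ⟨k0, hk0⟩ := part_ex hW j
    have h1 : ∑ k, u k % g (j + 1) ≤
        ∑ k, (u k % g j + if k = k0 then g (j + 1) - g j else 0) := by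
      apply sum_le_sum
      intro k _
      split_ifs with hk
      · exact step_le hg _ _
      · rw [hu k j (part_not hW hk0 hk)]; simp
    rw [sum_add_distrib, sum_ite_eq' univ k0] at h1
    simp only [mem_univ, if_true] at h1
    have := two_le hg j
    have := gpos hg j
    omega

lemma fam_mod {h : ℕ} {W : Fin h → Set ℕ} (hW : IsPartition W) (u : Fin h → ℕ)
    (hu : ∀ k, Supp g (W k) (u k)) (j : ℕ) : (∑ k, u k) % g j = ∑ k, u k % g j := by
  rw [Finset.sum_nat_mod, Nat.mod_eq_of_lt (fam_lt hg hW u hu j)]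

lemma fam_uniq {h : ℕ} {W : Fin h → Set ℕ} (hW : IsPartition W) (u v : Fin h → ℕ)
    (hu : ∀ k, Supp g (W k) (u k)) (hv : ∀ k, Supp g (W k) (v k))
    (huv : ∑ k, u k = ∑ k, v k) (k : Fin h) : u k = v k := by
  have key : ∀ j, ∀ k, u k % g j = v k % g j := by
    intro j
    induction j with
    | zero => intro k; simp [hg.1, Nat.mod_one]
    | succ j ih =>
      obtain ⟨k0, hk0⟩ := part_ex hW j
      have hne : ∀ k, k ≠ k0 → u k % g (j + 1) = v k % g (j + 1) := by
        intro k hk
        rw [hu k j (part_not hW hk0 hk), hv k j (part_not hW hk0 hk), ih]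
      intro k
      by_cases hk : k = k0
      · subst hk
        have h1 : ∑ k, u k % g (j + 1) = ∑ k, v k % g (j + 1) := by
          rw [← fam_mod hg hW u hu, ← fam_mod hg hW v hv, huv]
        rw [← Finset.add_sum_erase univ _ (mem_univ k),
          ← Finset.add_sum_erase univ (fun k => v k % g (j + 1)) (mem_univ k)] at h1
        have h2 : ∑ x ∈ univ.erase k, u x % g (j + 1) = ∑ x ∈ univ.erase k, v x % g (j + 1) :=
          sum_congr rfl (fun x hx => hne x (ne_of_mem_erase hx))
        omega
      · exact hne k hk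
  have := key (max (u k) (v k)) k
  rwa [eq_mod hg _ (le_max_left _ _), eq_mod hg _ (le_max_right _ _)] at this

omit hg in
open Classical in
/-- the maximal element of type `W` below `g j` -/
noncomputable def mu (g : ℕ → ℕ) (W : Set ℕ) (j : ℕ) : ℕ :=
  ∑ t ∈ range j, if t ∈ W then g (t + 1) - g t else 0

omit hg in
lemma mu_succ_mem {W : Set ℕ} {j : ℕ} (h : j ∈ W) :
    mu g W (j + 1) = mu g W j + (g (j + 1) - g j) := by
  unfold mu; rw [sum_range_succ, if_pos h]

omit hg in
lemma mu_succ_not {W : Set ℕ} {j : ℕ} (h : j ∉ W) : mu g W (j + 1) = mu g W j := by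
  unfold mu; rw [sum_range_succ, if_neg h, add_zero]

lemma mu_lt (W : Set ℕ) (j : ℕ) : mu g W j < g j := by
  induction j with
  | zero => simp [mu, hg.1]
  | succ n ih =>
    have := two_le hg n
    by_cases h : n ∈ W
    · rw [mu_succ_mem h]; omega
    · rw [mu_succ_not h]; omega

lemma mu_mod (W : Set ℕ) {j M : ℕ} (h : j ≤ M) : mu g W M % g j = mu g W j := by
  induction M, h using Nat.le_induction with
  | base => exact Nat.mod_eq_of_lt (mu_lt hg W j)
  | succ n hn ih =>
    by_cases h : n ∈ W
    · rw [mu_succ_mem h]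
      have h1 : g j ∣ g (n + 1) - g n :=
        Nat.dvd_sub (gdvd hg (by omega)) (gdvd hg hn)
      obtain ⟨q, hq⟩ := h1
      rw [hq, Nat.add_mul_mod_self_left, ih]
    · rw [mu_succ_not h, ih]

lemma mu_supp (W : Set ℕ) (M : ℕ) : Supp g W (mu g W M) := by
  intro j hj
  rcases Nat.lt_or_ge j M with h | h
  · rw [mu_mod hg W (show j + 1 ≤ M by omega), mu_mod hg W (show j ≤ M by omega),
      mu_succ_not hj]
  · have h1 := mu_lt hg W M
    have h2 : g M ≤ g j := hg.2.1.monotone h
    have h3 : g j ≤ g (j + 1) := hg.2.1.monotone (by omega)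
    rw [Nat.mod_eq_of_lt (by omega), Nat.mod_eq_of_lt (by omega)]

lemma le_mu {W : Set ℕ} {y : ℕ} (hy : Supp g W y) (j : ℕ) : y % g j ≤ mu g W j := by
  induction j with
  | zero => simp [hg.1, Nat.mod_one]
  | succ n ih =>
    by_cases h : n ∈ W
    · rw [mu_succ_mem h]
      have := step_le hg y n
      omega
    · rw [mu_succ_not h, hy n h]; exact ih

lemma mu_block {W : Set ℕ} {l m : ℕ} (hlm : l ≤ m) (hb : ∀ j, l ≤ j → j ≤ m → j ∈ W) :
    mu g W (m + 1) = mu g W l + (g (m + 1) - g l) := by
  induction m, hlm using Nat.le_induction with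
  | base => rw [mu_succ_mem (hb l le_rfl le_rfl)]
  | succ n hn ih =>
    rw [mu_succ_mem (hb (n + 1) (by omega) le_rfl), ih (fun j h1 h2 => hb j h1 (by omega))]
    have h1 : g l ≤ g (n + 1) := hg.2.1.monotone (by omega)
    have h2 : g (n + 1) ≤ g (n + 1 + 1) := hg.2.1.monotone (by omega)
    omega

omit hg in
lemma mod_block {y l m : ℕ} (hlm : l ≤ m + 1)
    (hy : ∀ j, l ≤ j → j ≤ m → y % g (j + 1) = y % g j) : y % g (m + 1) = y % g l := by
  obtain ⟨d, hd⟩ := Nat.exists_eq_add_of_le hlm
  rw [hd]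
  have : ∀ e, e ≤ d → y % g (l + e) = y % g l := by
    intro e
    induction e with
    | zero => intro _; rfl
    | succ n ih =>
      intro hn
      rw [← ih (by omega)]
      exact hy (l + n) (by omega) (by omega)
  exact this d le_rfl

lemma supp_two {h : ℕ} {W : Fin h → Set ℕ} (hW : IsPartition W) {i k : Fin h} (hik : i ≠ k)
    {y : ℕ} (h1 : Supp g (W i) y) (h2 : Supp g (W k) y) : y = 0 := by
  have key : ∀ j, y % g j = 0 := by
    intro j
    induction j with
    | zero => simp [hg.1, Nat.mod_one]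
    | succ n ih =>
      by_cases hn : n ∈ W i
      · rw [h2 n (part_not hW hn hik.symm), ih]
      · rw [h1 n hn, ih]
  rw [← eq_mod hg y le_rfl]; exact key y

/-- Main lemma: `n = a + (all maximal digits on the other parts, up to M)` is not a sum of `h`
elements of `A \ {a}`. -/
theorem not_rep {h : ℕ} {W : Fin h → Set ℕ} (hW : IsPartition W) {i : Fin h} {a : ℕ}
    (ha : a ∈ AG g (W i)) (hthick : ∀ k, k ≠ i → Thick g h (W k)) :
    ∃ M1, ∀ M, M1 ≤ M →
      (∑ k, if k = i then a else mu g (W k) M) ∉ hfold h (AA g W \ {a}) := by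
  obtain ⟨ha0, has⟩ := (mem_AG_iff hg _ _).1 ha
  have hh : 0 < h := i.pos
  -- lowest position of `a`
  obtain ⟨j0, hj0W, hj0a, hj0b⟩ : ∃ j0, j0 ∈ W i ∧ a % g j0 = 0 ∧ a % g (j0 + 1) ≠ 0 := by
    classical
    have hex : ∃ j, a % g (j + 1) ≠ 0 := by
      refine ⟨a, ?_⟩
      rw [eq_mod hg a (by omega)]; exact ha0
    have hf := Nat.find_spec hex
    have hm : a % g (Nat.find hex) = 0 := by
      rcases Nat.eq_zero_or_pos (Nat.find hex) with h0 | h0
      · rw [h0, hg.1, Nat.mod_one]
      · have := Nat.find_min hex (m := Nat.find hex - 1) (by omega)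
        rw [not_not, show Nat.find hex - 1 + 1 = Nat.find hex by omega] at this
        exact this
    refine ⟨Nat.find hex, ?_, hm, hf⟩
    by_contra hc
    exact hf (by rw [has _ hc, hm])
  -- blocks
  have hblk : ∀ k, ∃ l m, k ≠ i → l ≤ m ∧ (∀ j, l ≤ j → j ≤ m → j ∈ W k) ∧
      (l = 0 ∨ h * g l < g (m + 1)) := by
    intro k
    by_cases hk : k = i
    · exact ⟨0, 0, fun h => absurd hk h⟩
    · rcases hthick k hk with h0 | ⟨l, m, h1, h2, h3⟩
      · refine ⟨0, 0, fun _ => ⟨le_rfl, ?_, Or.inl rfl⟩⟩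
        intro j _ hj
        rw [Nat.le_zero.1 hj]; exact h0
      · exact ⟨l, m, fun _ => ⟨h1, h2, Or.inr h3⟩⟩
  choose l m hlm using hblk
  refine ⟨(∑ k, (m k + 1)) + j0 + 1, fun M hM => ?_⟩
  have hMm : ∀ k, m k + 1 ≤ M := by
    intro k
    have : m k + 1 ≤ ∑ k, (m k + 1) := single_le_sum (f := fun k => m k + 1)
      (fun _ _ => Nat.zero_le _) (mem_univ k)
    omega
  set v : Fin h → ℕ := fun k => if k = i then a else mu g (W k) M with hv
  have hvi : v i = a := by simp [hv]
  have hvk : ∀ k, k ≠ i → v k = mu g (W k) M := fun k hk => by simp [hv, hk]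
  have hvs : ∀ k, Supp g (W k) (v k) := by
    intro k
    by_cases hk : k = i
    · rw [hk, hvi]; exact has
    · rw [hvk k hk]; exact mu_supp hg _ _
  rintro ⟨y, hy, hsum⟩
  have hty : ∀ s, y s = 0 ∨ ∃ k, y s ∈ AG g (W k) := by
    intro s
    have := (hy s).1
    unfold AA AU at this
    simpa using this
  have hya : ∀ s, y s ≠ a := fun s => (hy s).2
  have hn : ∀ j, (∑ k, v k) % g j = ∑ k, v k % g j := fam_mod hg hW v hvs
  have hyn : ∀ j, (∑ k, v k) % g j ≤ ∑ s, y s % g j := by
    intro j
    rw [hsum, Finset.sum_nat_mod]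
    exact Nat.mod_le _ _
  -- every type `k ≠ i` is used
  have used : ∀ k, k ≠ i → ∃ s, y s ∈ AG g (W k) := by
    intro k hk
    by_contra hno
    push Not at hno
    obtain ⟨h1, h2, h3⟩ := hlm k hk
    have hys : ∀ s j, j ∈ W k → y s % g (j + 1) = y s % g j := by
      intro s j hj
      rcases hty s with h0 | ⟨k', hk'⟩
      · rw [h0]; simp
      · have hne : k' ≠ k := fun h => hno s (h ▸ hk')
        exact ((mem_AG_iff hg _ _).1 hk').2 j (part_not hW hj hne)
    have hS : ∑ s, y s % g (m k + 1) = ∑ s, y s % g (l k) := by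
      apply sum_congr rfl
      intro s _
      exact mod_block (by omega) (fun j h1 h2' => hys s j (h2 j h1 h2'))
    have hlow : (∑ k, v k) % g (l k) + (g (m k + 1) - g (l k)) ≤ (∑ k, v k) % g (m k + 1) := by
      rw [hn, hn, ← Finset.add_sum_erase univ _ (mem_univ k),
        ← Finset.add_sum_erase univ (fun x => v x % g (m k + 1)) (mem_univ k)]
      have e1 : v k % g (m k + 1) = v k % g (l k) + (g (m k + 1) - g (l k)) := by
        rw [hvk k hk, mu_mod hg _ (hMm k), mu_mod hg _ (by have := hMm k; omega),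
          mu_block hg h1 h2]
      have e2 : ∑ x ∈ univ.erase k, v x % g (l k) ≤ ∑ x ∈ univ.erase k, v x % g (m k + 1) :=
        sum_le_sum (fun x _ => mod_mono hg _ (by omega))
      rw [e1]; omega
    have hle := hyn (m k + 1)
    rw [hS] at hle
    -- `S = n % g l + c * g l`
    have hmodl : (∑ s, y s % g (l k)) % g (l k) = (∑ k, v k) % g (l k) := by
      rw [hsum, Finset.sum_nat_mod univ (g (l k)) y]
    have hdm := Nat.mod_add_div (∑ s, y s % g (l k)) (g (l k))
    rw [hmodl] at hdm
    have hgm : g (l k) ≤ g (m k + 1) := hg.2.1.monotone (by omega)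
    have hgl := gpos hg (l k)
    set c := (∑ s, y s % g (l k)) / g (l k) with hc
    have hc1 : g (m k + 1) ≤ g (l k) * c + g (l k) := by omega
    rcases h3 with h0 | h3
    · have : ∑ s, y s % g (l k) = 0 := by
        rw [h0, hg.1]; simp [Nat.mod_one]
      have hlt : g 0 < g (m k + 1) := hg.2.1 (by omega)
      rw [h0] at hle hlow this hgm
      omega
    · have hch : h ≤ c := by
        by_contra hlt
        have : c + 1 ≤ h := by omega
        have : g (l k) * (c + 1) ≤ g (l k) * h := Nat.mul_le_mul_left _ this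
        nlinarith
      have hub : ∑ s, y s % g (l k) ≤ h * (g (l k) - 1) := by
        calc ∑ s, y s % g (l k) ≤ ∑ _s : Fin h, (g (l k) - 1) := by
              apply sum_le_sum
              intro s _
              have := Nat.mod_lt (y s) hgl
              omega
          _ = _ := by simp
      have h5 : g (l k) * h ≤ g (l k) * c := Nat.mul_le_mul_left _ hch
      have h6 : h * (g (l k) - 1) + h = h * g (l k) := by
        rw [← Nat.mul_succ]; congr 1; omega
      rw [mul_comm h (g (l k))] at h6
      omega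
  choose! s hs using used
  -- an index not used
  obtain ⟨s', hs'⟩ : ∃ s', s' ∉ (univ.erase i).image s := by
    by_contra hc
    push Not at hc
    have : (univ : Finset (Fin h)).card ≤ ((univ.erase i).image s).card :=
      card_le_card (fun x _ => hc x)
    have h2 : ((univ.erase i).image s).card ≤ h - 1 := by
      refine card_image_le.trans ?_
      rw [card_erase_of_mem (mem_univ i)]; simp
    simp only [card_univ, Fintype.card_fin] at this
    omega
  set e : Fin h → Fin h := fun k => if k = i then s' else s k with he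
  have hei : e i = s' := by simp [he]
  have hek : ∀ k, k ≠ i → e k = s k := fun k hk => by simp [he, hk]
  have hinj : Function.Injective e := by
    intro k k' hkk
    by_cases hk : k = i
    · by_cases hk' : k' = i
      · rw [hk, hk']
      · exfalso
        rw [hk, hei, hek k' hk'] at hkk
        exact hs' (mem_image.2 ⟨k', mem_erase.2 ⟨hk', mem_univ _⟩, hkk.symm⟩)
    · by_cases hk' : k' = i
      · exfalso
        rw [hk', hei, hek k hk] at hkk
        exact hs' (mem_image.2 ⟨k, mem_erase.2 ⟨hk, mem_univ _⟩, hkk⟩)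
      · rw [hek k hk, hek k' hk'] at hkk
        by_contra hne
        have m1 := (mem_AG_iff hg _ _).1 (hs k hk)
        have m2 := (mem_AG_iff hg _ _).1 (hs k' hk')
        rw [← hkk] at m2
        exact m1.1 (supp_two hg hW hne m1.2 m2.2)
  have hbij : Function.Bijective e := Finite.injective_iff_bijective.1 hinj
  set w : Fin h → ℕ := fun k => y (e k) with hw
  have hwsum : ∀ f : ℕ → ℕ, ∑ s, f (y s) = ∑ k, f (w k) := by
    intro f
    exact (hbij.sum_comp (fun s => f (y s))).symm
  have hwk : ∀ k, k ≠ i → w k ∈ AG g (W k) := by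
    intro k hk
    simp only [hw, hek k hk]; exact hs k hk
  have hwks : ∀ k, k ≠ i → Supp g (W k) (w k) := fun k hk => ((mem_AG_iff hg _ _).1 (hwk k hk)).2
  have hsum' : ∑ k, v k = ∑ k, w k := by rw [hsum]; exact hwsum id
  by_cases hcase : Supp g (W i) (w i)
  · have hws : ∀ k, Supp g (W k) (w k) := by
      intro k
      by_cases hk : k = i
      · rw [hk]; exact hcase
      · exact hwks k hk
    have := fam_uniq hg hW v w hvs hws hsum' i
    rw [hvi] at this
    exact hya (e i) this.symm
  · obtain ⟨k', hk'⟩ : ∃ k', w i ∈ AG g (W k') := by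
      rcases hty (e i) with h0 | h1
      · exact absurd (by simp only [hw, h0]; exact supp_zero _) hcase
      · exact h1
    have hki : k' ≠ i := fun h => hcase (h ▸ ((mem_AG_iff hg _ _).1 hk').2)
    have hwj : ∀ k, w k % g (j0 + 1) = w k % g j0 := by
      intro k
      by_cases hk : k = i
      · rw [hk]; exact ((mem_AG_iff hg _ _).1 hk').2 j0 (part_not hW hj0W hki)
      · exact hwks k hk j0 (part_not hW hj0W hk)
    have h1 := hyn (j0 + 1)
    rw [hwsum (fun x => x % g (j0 + 1)), sum_congr rfl (fun k _ => hwj k), hn] at h1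
    rw [← Finset.add_sum_erase univ _ (mem_univ i),
      ← Finset.add_sum_erase univ (fun x => w x % g j0) (mem_univ i), hvi] at h1
    have h2 : ∑ k ∈ univ.erase i, w k % g j0 ≤ ∑ k ∈ univ.erase i, v k % g (j0 + 1) := by
      apply sum_le_sum
      intro k hk
      have hk := ne_of_mem_erase hk
      rw [hvk k hk, mu_mod hg _ (by omega), mu_succ_not (part_not hW hj0W hk)]
      exact le_mu hg (hwks k hk) j0
    have h3 : g j0 ≤ a % g (j0 + 1) := by
      have h4 : g j0 ∣ a % g (j0 + 1) := by
        rw [Nat.dvd_mod_iff (hg.2.2 j0)]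
        exact Nat.dvd_of_mod_eq_zero hj0a
      exact Nat.le_of_dvd (Nat.pos_of_ne_zero hj0b) h4
    have h5 := Nat.mod_lt (w i) (gpos hg j0)
    omega

end
end Pool.Agent.H116.GA
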