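import Pool.Agent.H116.GAdic2

namespace Pool.Agent.H116.GA

open Finset

section
variable {g : ℕ → ℕ} (hg : IsGAdic g)
include hg

theorem not_asymp {h : ℕ} {W : Fin h → Set ℕ} (hW : IsPartition W) {i : Fin h} {a : ℕ}
    (ha : a ∈ AG g (W i)) (hthick : ∀ k, k ≠ i → Thick g h (W k)) {k0 : Fin h} (hk0 : k0 ≠ i)
    (hinf : (W k0).Infinite) : ¬ AsympBasis h (AA g W \ {a}) := by
  rintro ⟨N, hN⟩
  obtain ⟨M1, hM1⟩ := not_rep hg hW ha hthick
  obtain ⟨t, htW, ht⟩ := hinf.exists_gt (max N M1)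
  refine hM1 (t + 1) (by omega) (hN _ ?_)
  have h1 : mu g (W k0) (t + 1) ≤ ∑ k, if k = i then a else mu g (W k) (t + 1) := by
    have := single_le_sum (f := fun k => if k = i then a else mu g (W k) (t + 1))
      (fun _ _ => Nat.zero_le _) (mem_univ k0)
    simpa [hk0] using this
  rw [mu_succ_mem htW] at h1
  have := two_le hg t
  have := glt hg t
  omega

lemma decomp {h : ℕ} {W : Fin h → Set ℕ} (hW : IsPartition W) (n : ℕ) :
    ∃ u : Fin h → ℕ, (∀ k, Supp g (W k) (u k)) ∧ ∑ k, u k = n := by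
  classical
  have hdig : ∀ j, n / g j % (g (j + 1) / g j) ≤ g (j + 1) / g j - 1 := by
    intro j
    have h2 := two_le hg j
    have h0 := gpos hg j
    have hd : 0 < g (j + 1) / g j := Nat.div_pos (by omega) h0
    have := Nat.mod_lt (n / g j) hd
    omega
  refine ⟨fun k => ∑ j ∈ (range n).filter (fun j => j ∈ W k),
    (n / g j % (g (j + 1) / g j)) * g j, ?_, ?_⟩
  · intro k
    exact supp_sum hg _ _ (fun j _ => hdig j) (fun j hj => (mem_filter.1 hj).2)
  · simp_rw [sum_filter]
    rw [sum_comm]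
    have : ∀ j, (∑ k : Fin h, if j ∈ W k then (n / g j % (g (j + 1) / g j)) * g j else 0)
        = (n / g j % (g (j + 1) / g j)) * g j := by
      intro j
      obtain ⟨k0, hk0⟩ := part_ex hW j
      rw [Finset.sum_eq_single k0]
      · rw [if_pos hk0]
      · intro k _ hk; rw [if_neg (part_not hW hk0 hk)]
      · intro h; exact absurd (mem_univ _) h
    rw [sum_congr rfl (fun j _ => this j), ← expand hg, eq_mod hg n le_rfl]

lemma finite_bound {W : Set ℕ} (hfin : W.Finite) : ∃ B, ∀ y, Supp g W y → y < B := by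
  obtain ⟨b, hb⟩ := hfin.bddAbove
  refine ⟨g (b + 1), fun y hy => ?_⟩
  have h1 : y % g (y + b + 1 + 1) = y % g (b + 1) := by
    apply mod_block (by omega)
    intro j h1 _
    exact hy j (fun hj => by have := hb hj; omega)
  rw [eq_mod hg y (by omega)] at h1
  rw [h1]
  exact Nat.mod_lt _ (gpos hg _)

lemma mem_AA_of_supp {h : ℕ} {W : Fin h → Set ℕ} {k : Fin h} {y : ℕ} (hy : Supp g (W k) y) :
    y ∈ AA g W := by
  by_cases h0 : y = 0
  · left; exact h0
  · right; exact Set.mem_iUnion.2 ⟨k, (mem_AG_iff hg _ _).2 ⟨h0, hy⟩⟩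

/-- if all the other parts are finite, finitely many elements of `A_G(W_i)` can be removed -/
theorem asymp_of_finite {h : ℕ} {W : Fin h → Set ℕ} (hW : IsPartition W) {i : Fin h}
    (hfin : ∀ k, k ≠ i → (W k).Finite) (T : Finset ℕ) (hT : ∀ a ∈ T, a ∈ AG g (W i)) :
    AsympBasis h (AA g W \ (T : Set ℕ)) := by
  have hB : ∀ k, ∃ B, k ≠ i → ∀ y, Supp g (W k) y → y < B := by
    intro k
    by_cases hk : k = i
    · exact ⟨0, fun h => absurd hk h⟩
    · obtain ⟨B, hB⟩ := finite_bound hg (hfin k hk)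
      exact ⟨B, fun _ => hB⟩
  choose B hB using hB
  refine ⟨∑ a ∈ T, a + 1 + ∑ k, B k, fun n hn => ?_⟩
  obtain ⟨u, hu, hsum⟩ := decomp hg hW n
  refine ⟨u, fun k => ⟨mem_AA_of_supp hg (hu k), fun hmem => ?_⟩, hsum.symm⟩
  have hmem' : u k ∈ T := by simpa using hmem
  by_cases hk : k = i
  · subst hk
    have h1 : u k ≤ ∑ a ∈ T, a := single_le_sum (f := fun a => a) (fun _ _ => Nat.zero_le _) hmem'
    have h2 : ∑ x ∈ univ.erase k, u x ≤ ∑ x ∈ univ.erase k, B x :=
      sum_le_sum (fun x hx => (hB x (ne_of_mem_erase hx) _ (hu x)).le)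
    have h3 : ∑ x ∈ univ.erase k, B x ≤ ∑ x, B x :=
      sum_le_sum_of_subset (erase_subset _ _)
    rw [← Finset.add_sum_erase univ _ (mem_univ k)] at hsum
    omega
  · have h1 := (mem_AG_iff hg _ _).1 (hT _ hmem')
    exact h1.1 (supp_two hg hW (fun h => hk h.symm) h1.2 (hu k))

lemma single_mem (L : ℕ) {W : Set ℕ} (hL : L ∈ W) : g L ∈ AG g W := by
  refine ⟨{L}, fun _ => 1, singleton_nonempty _, by simpa using hL, ?_, by simp⟩
  intro j hj
  rw [mem_singleton] at hj
  subst hj
  have h2 := two_le hg j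
  have h0 := gpos hg j
  have : 2 ≤ g (j + 1) / g j := (Nat.le_div_iff_mul_le h0).2 h2
  dsimp only
  omega

lemma diff_mem (L : ℕ) {W : Set ℕ} (hL : L ∈ W) : g (L + 1) - g L ∈ AG g W := by
  refine ⟨{L}, fun _ => g (L + 1) / g L - 1, singleton_nonempty _, by simpa using hL, ?_, ?_⟩
  · intro j hj
    rw [mem_singleton] at hj
    subst hj
    have h2 := two_le hg j
    have h0 := gpos hg j
    have : 2 ≤ g (j + 1) / g j := (Nat.le_div_iff_mul_le h0).2 h2
    dsimp only
    omega
  · rw [sum_singleton, mul_comm, gsub hg]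

/-- every element of `A_G(𝒲)` that is at least `2` is a sum of two elements of `A_G(𝒲)` -/
lemma split {h : ℕ} {W : Fin h → Set ℕ} (hW : IsPartition W) {y : ℕ} (hy : y ∈ AU g W)
    (h2 : 2 ≤ y) : ∃ b c, b ∈ AU g W ∧ c ∈ AU g W ∧ y = b + c := by
  classical
  obtain ⟨k, hk⟩ := Set.mem_iUnion.1 hy
  obtain ⟨hy0, hys⟩ := (mem_AG_iff hg _ _).1 hk
  have hex : ∃ j, y % g (j + 1) ≠ 0 := ⟨y, by rw [eq_mod hg y (by omega)]; exact hy0⟩
  have hf := Nat.find_spec hex
  set j0 := Nat.find hex with hj0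
  have hm : y % g j0 = 0 := by
    rcases Nat.eq_zero_or_pos j0 with h0 | h0
    · rw [h0, hg.1, Nat.mod_one]
    · have := Nat.find_min hex (m := j0 - 1) (by omega)
      rw [not_not, show j0 - 1 + 1 = j0 by omega] at this
      exact this
  have hjW : j0 ∈ W k := by
    by_contra hc
    exact hf (by rw [hys _ hc, hm])
  have hle : g j0 ≤ y % g (j0 + 1) := by
    have h4 : g j0 ∣ y % g (j0 + 1) := by
      rw [Nat.dvd_mod_iff (hg.2.2 j0)]
      exact Nat.dvd_of_mod_eq_zero hm
    exact Nat.le_of_dvd (Nat.pos_of_ne_zero hf) h4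
  by_cases hyj : y = g j0
  · have hj1 : 1 ≤ j0 := by
      rcases Nat.eq_zero_or_pos j0 with h0 | h0
      · rw [h0, hg.1] at hyj; omega
      · exact h0
    obtain ⟨k', hk'⟩ := part_ex hW (j0 - 1)
    refine ⟨g (j0 - 1), g (j0 - 1 + 1) - g (j0 - 1), Set.mem_iUnion.2 ⟨k', single_mem hg _ hk'⟩,
      Set.mem_iUnion.2 ⟨k', diff_mem hg _ hk'⟩, ?_⟩
    have := two_le hg (j0 - 1)
    rw [hyj, show j0 - 1 + 1 = j0 by omega] at *
    omega
  · have hle2 : g j0 ≤ y := hle.trans (Nat.mod_le _ _)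
    have key : ∀ m, g j0 ≤ y % m → (y - g j0) % m = y % m - g j0 := by
      intro m hm'
      have h1 := Nat.mod_add_div y m
      have h5 : y - g j0 = (y % m - g j0) + m * (y / m) := by omega
      rw [h5, Nat.add_mul_mod_self_left]
      rcases Nat.eq_zero_or_pos m with h0 | h0
      · subst h0; simp
      · apply Nat.mod_eq_of_lt
        have := Nat.mod_lt y h0
        omega
    have hc : Supp g (W k) (y - g j0) := by
      intro j hj
      rcases Nat.lt_trichotomy j j0 with h1 | h1 | h1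
      · have e : ∀ i, i ≤ j0 → (y - g j0) % g i = 0 := by
          intro i hi
          apply Nat.mod_eq_zero_of_dvd
          apply Nat.dvd_sub
          · exact (gdvd hg hi).trans (Nat.dvd_of_mod_eq_zero hm)
          · exact gdvd hg hi
        rw [e (j + 1) (by omega), e j (by omega)]
      · exact absurd (h1 ▸ hjW) hj
      · have h3 : g j0 ≤ y % g j := hle.trans (mod_mono hg y (by omega))
        have h4 : g j0 ≤ y % g (j + 1) := h3.trans (mod_mono_succ hg y j)
        rw [key _ h3, key _ h4, hys j hj]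
    refine ⟨g j0, y - g j0, Set.mem_iUnion.2 ⟨k, single_mem hg _ hjW⟩,
      Set.mem_iUnion.2 ⟨k, (mem_AG_iff hg _ _).2 ⟨by omega, hc⟩⟩, by omega⟩

/-- `h A_G(𝒲)` contains every `n ≥ h` -/
theorem AU_fold {h : ℕ} {W : Fin h → Set ℕ} (hW : IsPartition W) (hh : 0 < h) {n : ℕ}
    (hn : h ≤ n) : n ∈ hfold h (AU g W) := by
  classical
  obtain ⟨u, hu, hsum⟩ := decomp hg hW n
  set S : Finset (Fin h) := univ.filter (fun k => u k ≠ 0) with hS
  have hbase : n ∈ hfold S.card (AU g W) := by
    refine ⟨fun s => u (S.equivFin.symm s), fun s => ?_, ?_⟩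
    · have h1 : u (S.equivFin.symm s) ≠ 0 := (mem_filter.1
        (show ((S.equivFin.symm s : S) : Fin h) ∈ univ.filter (fun k => u k ≠ 0) from
          (S.equivFin.symm s).2)).2
      exact Set.mem_iUnion.2 ⟨_, (mem_AG_iff hg _ _).2 ⟨h1, hu _⟩⟩
    · rw [Equiv.sum_comp S.equivFin.symm (fun x : S => u x), Finset.sum_coe_sort S u,
        hS, sum_filter_ne_zero, hsum]
  have hcard : S.card ≤ h := by
    have := card_le_univ S
    simpa using this
  have hstep : ∀ r, r < n → n ∈ hfold r (AU g W) → n ∈ hfold (r + 1) (AU g W) := by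
    rintro r hr ⟨f, hf, hfs⟩
    obtain ⟨s, hs⟩ : ∃ s, 2 ≤ f s := by
      by_contra hc
      push Not at hc
      have : ∑ s, f s ≤ ∑ _s : Fin r, 1 := sum_le_sum (fun s _ => by have := hc s; omega)
      simp at this
      omega
    obtain ⟨b, c, hb, hc, hbc⟩ := split hg hW (hf s) hs
    refine ⟨Fin.cons c (Function.update f s b), ?_, ?_⟩
    · intro t
      refine Fin.cases ?_ (fun t => ?_) t
      · simpa using hc
      · rw [Fin.cons_succ]
        by_cases ht : t = s
        · subst ht; simpa using hb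
        · rw [Function.update_of_ne ht]; exact hf t
    · rw [Fin.sum_cons, hfs, Finset.sum_update_of_mem (mem_univ s),
        ← Finset.add_sum_erase univ _ (mem_univ s), hbc, Finset.sdiff_singleton_eq_erase]
      ring
  have : ∀ r, S.card ≤ r → r ≤ h → n ∈ hfold r (AU g W) := by
    intro r hr
    induction r, hr using Nat.le_induction with
    | base => intro _; exact hbase
    | succ r _ ih => intro h1; exact hstep r (by omega) (ih (by omega))
  exact this h hcard le_rfl

lemma AU_asymp {h : ℕ} {W : Fin h → Set ℕ} (hW : IsPartition W) (hh : 0 < h) :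
    AsympBasis h (AU g W) := ⟨h, fun _ hn => AU_fold hg hW hh hn⟩

omit hg in
lemma asymp_mono {h : ℕ} {A B : Set ℕ} (hAB : A ⊆ B) (hA : AsympBasis h A) : AsympBasis h B := by
  obtain ⟨N, hN⟩ := hA
  refine ⟨N, fun n hn => ?_⟩
  obtain ⟨f, h1, h2⟩ := hN n hn
  exact ⟨f, fun s => hAB (h1 s), h2⟩

lemma zero_notMem_AU {h : ℕ} {W : Fin h → Set ℕ} : 0 ∉ AU g W := by
  intro h0
  obtain ⟨k, hk⟩ := Set.mem_iUnion.1 h0
  exact ((mem_AG_iff hg _ _).1 hk).1 rfl

lemma AA_diff_zero {h : ℕ} {W : Fin h → Set ℕ} : AA g W \ {0} = AU g W := by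
  ext y
  simp only [AA, Set.mem_sdiff, Set.mem_union, Set.mem_singleton_iff]
  constructor
  · rintro ⟨h1 | h1, h2⟩
    · exact absurd h1 h2
    · exact h1
  · intro h1
    exact ⟨Or.inr h1, fun h => zero_notMem_AU hg (W := W) (h ▸ h1)⟩

/-- if all parts but `W_i` are finite then `A_G(𝒲)` minus some element is an asymptotic basis -/
theorem AU_not_minimal {h : ℕ} {W : Fin h → Set ℕ} (hW : IsPartition W) {i : Fin h}
    (hfin : ∀ k, k ≠ i → (W k).Finite) :
    ∃ a' ∈ AU g W, AsympBasis h (AU g W \ {a'}) := by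
  classical
  have hB : ∀ k, ∃ B, k ≠ i → (∀ y, Supp g (W k) y → y < B) ∧ ∀ j ∈ W k, j < B := by
    intro k
    by_cases hk : k = i
    · exact ⟨0, fun h => absurd hk h⟩
    · obtain ⟨B, hB⟩ := finite_bound hg (hfin k hk)
      obtain ⟨b, hb⟩ := (hfin k hk).bddAbove
      exact ⟨B + b + 1, fun _ => ⟨fun y hy => by have := hB y hy; omega,
        fun j hj => by have := hb hj; omega⟩⟩
  choose B hB using hB
  set L := ∑ k, B k with hLdef
  have hBL : ∀ k, B k ≤ L := fun k => single_le_sum (f := B) (fun _ _ => Nat.zero_le _) (mem_univ k)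
  have hL : ∀ j, L ≤ j → j ∈ W i := by
    intro j hj
    obtain ⟨k, hk⟩ := part_ex hW j
    by_cases hki : k = i
    · exact hki ▸ hk
    · have := (hB k hki).2 j hk
      have := hBL k
      omega
  have ha' : g (L + 1) ∈ AG g (W i) := single_mem hg _ (hL _ (by omega))
  refine ⟨g (L + 1), Set.mem_iUnion.2 ⟨i, ha'⟩, g (L + 1) + 1 + h * g L + L, fun n hn => ?_⟩
  obtain ⟨u, hu, hsum⟩ := decomp hg hW n
  set Z : Finset (Fin h) := (univ.erase i).filter (fun k => u k = 0) with hZ
  have hZc : Z.card ≤ h := by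
    have := card_le_univ Z
    simpa using this
  have hui : g (L + 1) + 1 + h * g L ≤ u i := by
    have h2 : ∑ x ∈ univ.erase i, u x ≤ ∑ x ∈ univ.erase i, B x :=
      sum_le_sum (fun x hx => ((hB x (ne_of_mem_erase hx)).1 _ (hu x)).le)
    have h3 : ∑ x ∈ univ.erase i, B x ≤ ∑ x, B x :=
      sum_le_sum_of_subset (erase_subset _ _)
    rw [← Finset.add_sum_erase univ _ (mem_univ i)] at hsum
    omega
  have hZg : Z.card * g L ≤ h * g L := Nat.mul_le_mul_right _ hZc
  have hsi : Supp g (W i) (u i - Z.card * g L) := by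
    intro j hj
    have hjL : j < L := by
      by_contra hc
      exact hj (hL j (by omega))
    have e : ∀ m, m ≤ L → (u i - Z.card * g L) % g m = u i % g m := by
      intro m hm
      obtain ⟨q, hq⟩ := gdvd hg hm
      have h1 : u i = (u i - Z.card * g L) + g m * (q * Z.card) := by
        have : Z.card * g L = g m * (q * Z.card) := by rw [hq]; ring
        omega
      conv_rhs => rw [h1]
      rw [Nat.add_mul_mod_self_left]
    rw [e (j + 1) (by omega), e j (by omega), hu i j hj]
  refine ⟨fun k => if k = i then u i - Z.card * g L else if u k = 0 then g L else u k, ?_, ?_⟩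
  · intro k
    dsimp only
    split_ifs with h1 h2
    · refine ⟨Set.mem_iUnion.2 ⟨i, (mem_AG_iff hg _ _).2 ⟨by omega, hsi⟩⟩, ?_⟩
      simp only [Set.mem_singleton_iff]
      omega
    · refine ⟨Set.mem_iUnion.2 ⟨i, single_mem hg _ (hL L le_rfl)⟩, ?_⟩
      simp only [Set.mem_singleton_iff]
      have := two_le hg L
      have := gpos hg L
      omega
    · refine ⟨Set.mem_iUnion.2 ⟨k, (mem_AG_iff hg _ _).2 ⟨h2, hu k⟩⟩, ?_⟩
      simp only [Set.mem_singleton_iff]
      intro h3
      have h4 := (mem_AG_iff hg _ _).1 ha'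
      rw [← h3] at h4
      exact h2 (supp_two hg hW (fun h => h1 h.symm) h4.2 (hu k))
  · rw [← Finset.add_sum_erase univ _ (mem_univ i), if_pos rfl]
    have h1 : ∑ k ∈ univ.erase i, (if k = i then u i - Z.card * g L
        else if u k = 0 then g L else u k) =
        ∑ k ∈ univ.erase i, (u k + if u k = 0 then g L else 0) := by
      apply sum_congr rfl
      intro k hk
      rw [if_neg (ne_of_mem_erase hk)]
      split_ifs with h2
      · omega
      · omega
    rw [h1, sum_add_distrib, ← sum_filter, sum_const, smul_eq_mul, ← hZ]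
    rw [← Finset.add_sum_erase univ _ (mem_univ i)] at hsum
    omega

end
end Pool.Agent.H116.GA
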