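import Pool.Agent.H116.GAdic3

namespace Pool.Agent.H116.GA

open Finset

section
variable {g : ℕ → ℕ} (hg : IsGAdic g)
include hg

/-- second half of `not_rep`: it is enough that every type `k ≠ i` occurs -/
theorem not_rep_of_used {h : ℕ} {W : Fin h → Set ℕ} (hW : IsPartition W) {i : Fin h} {a : ℕ}
    (ha : a ∈ AG g (W i)) (M1 : ℕ)
    (hused : ∀ M, M1 ≤ M → ∀ y : Fin h → ℕ, (∀ s, y s = 0 ∨ ∃ k, y s ∈ AG g (W k)) →
      (∑ k, if k = i then a else mu g (W k) M) = ∑ s, y s →
      ∀ k, k ≠ i → ∃ s, y s ∈ AG g (W k)) :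
    ∃ M2, ∀ M, M2 ≤ M →
      (∑ k, if k = i then a else mu g (W k) M) ∉ hfold h (AA g W \ {a}) := by
  have hh : 0 < h := i.pos
  obtain ⟨ha0, has⟩ := (mem_AG_iff hg _ _).1 ha
  obtain ⟨j0, hj0W, hj0a, hj0b⟩ : ∃ j0, j0 ∈ W i ∧ a % g j0 = 0 ∧ a % g (j0 + 1) ≠ 0 := by
    classical
    have hex : ∃ j, a % g (j + 1) ≠ 0 := by
      refine ⟨a, ?_⟩
      rw [eq_mod hg a (by omega)]; exact ha0
    have hf := Nat.find_spec hex
    have hm : a % g (Nat.find hex) = 0 := by
      rcases Nat.eq_zero_or_pos (Nat.find hex) with h0 | h0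
      · rw [h0, hg.1, Nat.mod_one]
      · have := Nat.find_min hex (m := Nat.find hex - 1) (by omega)
        rw [not_not, show Nat.find hex - 1 + 1 = Nat.find hex by omega] at this
        exact this
    refine ⟨Nat.find hex, ?_, hm, hf⟩
    by_contra hc
    exact hf (by rw [has _ hc, hm])
  refine ⟨M1 + j0 + 1, fun M hM => ?_⟩
  set v : Fin h → ℕ := fun k => if k = i then a else mu g (W k) M with hv
  have hvi : v i = a := by simp [hv]
  have hvk : ∀ k, k ≠ i → v k = mu g (W k) M := fun k hk => by simp [hv, hk]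
  have hvs : ∀ k, Supp g (W k) (v k) := by
    intro k
    by_cases hk : k = i
    · rw [hk, hvi]; exact has
    · rw [hvk k hk]; exact mu_supp hg _ _
  rintro ⟨y, hy, hsum⟩
  have hty : ∀ s, y s = 0 ∨ ∃ k, y s ∈ AG g (W k) := by
    intro s
    have := (hy s).1
    unfold AA AU at this
    simpa using this
  have hya : ∀ s, y s ≠ a := fun s => (hy s).2
  have hn : ∀ j, (∑ k, v k) % g j = ∑ k, v k % g j := fam_mod hg hW v hvs
  have hyn : ∀ j, (∑ k, v k) % g j ≤ ∑ s, y s % g j := by
    intro j
    rw [hsum, Finset.sum_nat_mod]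
    exact Nat.mod_le _ _
  have used : ∀ k, k ≠ i → ∃ s, y s ∈ AG g (W k) := hused M (by omega) y hty hsum
  choose! s hs using used
  -- an index not used
  obtain ⟨s', hs'⟩ : ∃ s', s' ∉ (univ.erase i).image s := by
    by_contra hc
    push Not at hc
    have : (univ : Finset (Fin h)).card ≤ ((univ.erase i).image s).card :=
      card_le_card (fun x _ => hc x)
    have h2 : ((univ.erase i).image s).card ≤ h - 1 := by
      refine card_image_le.trans ?_
      rw [card_erase_of_mem (mem_univ i)]; simp
    simp only [card_univ, Fintype.card_fin] at this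
    omega
  set e : Fin h → Fin h := fun k => if k = i then s' else s k with he
  have hei : e i = s' := by simp [he]
  have hek : ∀ k, k ≠ i → e k = s k := fun k hk => by simp [he, hk]
  have hinj : Function.Injective e := by
    intro k k' hkk
    by_cases hk : k = i
    · by_cases hk' : k' = i
      · rw [hk, hk']
      · exfalso
        rw [hk, hei, hek k' hk'] at hkk
        exact hs' (mem_image.2 ⟨k', mem_erase.2 ⟨hk', mem_univ _⟩, hkk.symm⟩)
    · by_cases hk' : k' = i
      · exfalso
        rw [hk', hei, hek k hk] at hkk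
        exact hs' (mem_image.2 ⟨k, mem_erase.2 ⟨hk, mem_univ _⟩, hkk⟩)
      · rw [hek k hk, hek k' hk'] at hkk
        by_contra hne
        have m1 := (mem_AG_iff hg _ _).1 (hs k hk)
        have m2 := (mem_AG_iff hg _ _).1 (hs k' hk')
        rw [← hkk] at m2
        exact m1.1 (supp_two hg hW hne m1.2 m2.2)
  have hbij : Function.Bijective e := Finite.injective_iff_bijective.1 hinj
  set w : Fin h → ℕ := fun k => y (e k) with hw
  have hwsum : ∀ f : ℕ → ℕ, ∑ s, f (y s) = ∑ k, f (w k) := by
    intro f
    exact (hbij.sum_comp (fun s => f (y s))).symm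
  have hwk : ∀ k, k ≠ i → w k ∈ AG g (W k) := by
    intro k hk
    simp only [hw, hek k hk]; exact hs k hk
  have hwks : ∀ k, k ≠ i → Supp g (W k) (w k) := fun k hk => ((mem_AG_iff hg _ _).1 (hwk k hk)).2
  have hsum' : ∑ k, v k = ∑ k, w k := by rw [hsum]; exact hwsum id
  by_cases hcase : Supp g (W i) (w i)
  · have hws : ∀ k, Supp g (W k) (w k) := by
      intro k
      by_cases hk : k = i
      · rw [hk]; exact hcase
      · exact hwks k hk
    have := fam_uniq hg hW v w hvs hws hsum' i
    rw [hvi] at this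
    exact hya (e i) this.symm
  · obtain ⟨k', hk'⟩ : ∃ k', w i ∈ AG g (W k') := by
      rcases hty (e i) with h0 | h1
      · exact absurd (by simp only [hw, h0]; exact supp_zero _) hcase
      · exact h1
    have hki : k' ≠ i := fun h => hcase (h ▸ ((mem_AG_iff hg _ _).1 hk').2)
    have hwj : ∀ k, w k % g (j0 + 1) = w k % g j0 := by
      intro k
      by_cases hk : k = i
      · rw [hk]; exact ((mem_AG_iff hg _ _).1 hk').2 j0 (part_not hW hj0W hki)
      · exact hwks k hk j0 (part_not hW hj0W hk)
    have h1 := hyn (j0 + 1)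
    rw [hwsum (fun x => x % g (j0 + 1)), sum_congr rfl (fun k _ => hwj k), hn] at h1
    rw [← Finset.add_sum_erase univ _ (mem_univ i),
      ← Finset.add_sum_erase univ (fun x => w x % g j0) (mem_univ i), hvi] at h1
    have h2 : ∑ k ∈ univ.erase i, w k % g j0 ≤ ∑ k ∈ univ.erase i, v k % g (j0 + 1) := by
      apply sum_le_sum
      intro k hk
      have hk := ne_of_mem_erase hk
      rw [hvk k hk, mu_mod hg _ (by omega), mu_succ_not (part_not hW hj0W hk)]
      exact le_mu hg (hwks k hk) j0
    have h3 : g j0 ≤ a % g (j0 + 1) := by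
      have h4 : g j0 ∣ a % g (j0 + 1) := by
        rw [Nat.dvd_mod_iff (hg.2.2 j0)]
        exact Nat.dvd_of_mod_eq_zero hj0a
      exact Nat.le_of_dvd (Nat.pos_of_ne_zero hj0b) h4
    have h5 := Nat.mod_lt (w i) (gpos hg j0)
    omega


lemma supp_add {W : Set ℕ} {x j c : ℕ} (hx : x < g j) (hs : Supp g W x) (hj : j ∈ W)
    (hc : c ≤ g (j + 1) / g j - 1) : Supp g W (x + g j * c) ∧ x + g j * c < g (j + 1) := by
  have hlt : x + g j * c < g (j + 1) := by
    have h1 : g j * c ≤ g j * (g (j + 1) / g j - 1) := Nat.mul_le_mul_left _ hc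
    rw [gsub hg] at h1
    have := two_le hg j
    omega
  refine ⟨?_, hlt⟩
  intro t ht
  rcases Nat.lt_trichotomy t j with h1 | h1 | h1
  · have e : ∀ m, m ≤ j → (x + g j * c) % g m = x % g m := by
      intro m hm
      obtain ⟨q, hq⟩ := gdvd hg hm
      rw [hq, mul_assoc, Nat.add_mul_mod_self_left]
    rw [e (t + 1) (by omega), e t (by omega), hs t ht]
  · exact absurd (h1 ▸ hj) ht
  · have h2 : g (j + 1) ≤ g t := hg.2.1.monotone (by omega)
    have h3 : g t ≤ g (t + 1) := hg.2.1.monotone (by omega)
    rw [Nat.mod_eq_of_lt (by omega), Nat.mod_eq_of_lt (by omega)]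

/-- the condition for order two: `a` has, just before each position `j` of the other part, a run
of positions of its own part starting with a non-maximal digit of `a`, and `d_{j+1} = 2` -/
def Free (g : ℕ → ℕ) (U V : Set ℕ) (a : ℕ) : Prop :=
  ∀ j ∈ V, g (j + 1) = 2 * g j ∧ ∃ j' < j, (∀ t, j' ≤ t → t < j → t ∈ U) ∧
    a / g j' % (g (j' + 1) / g j') < g (j' + 1) / g j' - 1

lemma carry {U V : Set ℕ} (hUV : ∀ j, j ∈ U ∨ j ∈ V) (hdis : ∀ j, j ∈ U → j ∉ V) {a u : ℕ}
    (ha : Supp g U a) (hu : Supp g V u) (hfree : Free g U V a) (j : ℕ) :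
    (∃ x y, Supp g U x ∧ Supp g U y ∧ x < g j ∧ y < g j ∧ x + y = a % g j + u % g j) ∧
    ((∃ j' < j, (∀ t, j' ≤ t → t < j → t ∈ U) ∧
      a / g j' % (g (j' + 1) / g j') < g (j' + 1) / g j' - 1) →
      ∃ x y, Supp g U x ∧ Supp g U y ∧ x < g j ∧ y < g j ∧
        x + y = a % g j + u % g j + g j) := by
  induction j with
  | zero =>
    refine ⟨⟨0, 0, supp_zero _, supp_zero _, by rw [hg.1]; omega, by rw [hg.1]; omega,
      by rw [hg.1]; simp [Nat.mod_one]⟩, ?_⟩
    rintro ⟨j', h, _⟩; omega
  | succ j ih =>
    obtain ⟨ihA, ihB⟩ := ih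
    have hdpos : 2 ≤ g (j + 1) / g j := (Nat.le_div_iff_mul_le (gpos hg j)).2 (two_le hg j)
    have hα : a / g j % (g (j + 1) / g j) < g (j + 1) / g j := Nat.mod_lt _ (by omega)
    have hmono : g j ≤ g (j + 1) := hg.2.1.monotone (by omega)
    constructor
    · rcases hUV j with hj | hj
      · obtain ⟨x, y, hx, hy, hxl, hyl, hxy⟩ := ihA
        obtain ⟨h1, h2⟩ := supp_add hg hxl hx hj (c := a / g j % (g (j + 1) / g j)) (by omega)
        refine ⟨_, y, h1, hy, h2, by omega, ?_⟩
        rw [mod_succ hg a j, hu j (hdis j hj)]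
        omega
      · obtain ⟨h2, hex⟩ := hfree j hj
        have haj : a % g (j + 1) = a % g j := ha j (fun h => hdis j h hj)
        have hd2 : g (j + 1) / g j = 2 := by
          rw [h2]; exact Nat.mul_div_cancel _ (gpos hg j)
        have hδ : u / g j % (g (j + 1) / g j) < 2 := by rw [← hd2]; exact Nat.mod_lt _ (by omega)
        have huj := mod_succ hg u j
        rcases Nat.lt_or_ge (u / g j % (g (j + 1) / g j)) 1 with hd | hd
        · have h0 : u / g j % (g (j + 1) / g j) = 0 := by omega
          rw [h0, mul_zero, add_zero] at huj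
          obtain ⟨x, y, hx, hy, hxl, hyl, hxy⟩ := ihA
          exact ⟨x, y, hx, hy, by omega, by omega, by omega⟩
        · have h1 : u / g j % (g (j + 1) / g j) = 1 := by omega
          rw [h1, mul_one] at huj
          obtain ⟨x, y, hx, hy, hxl, hyl, hxy⟩ := ihB hex
          exact ⟨x, y, hx, hy, by omega, by omega, by omega⟩
    · rintro ⟨j', hj', hrun, hdig⟩
      have hj : j ∈ U := hrun j (by omega) (by omega)
      have hfull : g j * (g (j + 1) / g j - 1) + g j = g (j + 1) := by
        rw [gsub hg]; omega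
      rcases Nat.lt_or_ge j' j with h | h
      · obtain ⟨x, y, hx, hy, hxl, hyl, hxy⟩ :=
          ihB ⟨j', h, fun t h1 h2 => hrun t h1 (by omega), hdig⟩
        obtain ⟨h1, h2⟩ := supp_add hg hxl hx hj (c := a / g j % (g (j + 1) / g j)) (by omega)
        obtain ⟨h3, h4⟩ := supp_add hg hyl hy hj (c := g (j + 1) / g j - 1) le_rfl
        refine ⟨_, _, h1, h3, h2, h4, ?_⟩
        rw [mod_succ hg a j, hu j (hdis j hj)]
        omega
      · have hjj : j' = j := by omega
        subst hjj
        obtain ⟨x, y, hx, hy, hxl, hyl, hxy⟩ := ihA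
        obtain ⟨h1, h2⟩ := supp_add hg hxl hx hj
          (c := a / g j' % (g (j' + 1) / g j') + 1) (by omega)
        obtain ⟨h3, h4⟩ := supp_add hg hyl hy hj (c := g (j' + 1) / g j' - 1) le_rfl
        refine ⟨_, _, h1, h3, h2, h4, ?_⟩
        rw [mod_succ hg a j', hu j' (hdis j' hj), mul_add, mul_one]
        omega

lemma free_removable {W : Fin 2 → Set ℕ} (hW : IsPartition W) {i k : Fin 2} (hik : k ≠ i) {a : ℕ}
    (ha : a ∈ AG g (W i)) (hfree : Free g (W i) (W k) a) : AsympBasis 2 (AA g W \ {a}) := by
  obtain ⟨ha0, has⟩ := (mem_AG_iff hg _ _).1 ha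
  have htwo : ∀ k', k' = i ∨ k' = k := by
    intro k'
    fin_cases i <;> fin_cases k <;> fin_cases k' <;> simp_all
  refine ⟨a + 1, fun n hn => ?_⟩
  obtain ⟨u, hu, hsum⟩ := decomp hg hW n
  have hsum2 : u i + u k = n := by
    rw [← hsum, ← Finset.add_sum_erase univ _ (mem_univ i)]
    congr 1
    rw [Finset.sum_eq_single k]
    · intro b hb hbk
      rcases htwo b with h | h
      · exact absurd h (ne_of_mem_erase hb)
      · exact absurd h hbk
    · intro h; exact absurd (mem_erase.2 ⟨hik, mem_univ _⟩) h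
  by_cases hui : u i = a
  · have huk : u k ≠ 0 := by omega
    have hUV : ∀ j, j ∈ W i ∨ j ∈ W k := by
      intro j
      obtain ⟨k', hk'⟩ := part_ex hW j
      rcases htwo k' with h | h
      · left; exact h ▸ hk'
      · right; exact h ▸ hk'
    have hdis : ∀ j, j ∈ W i → j ∉ W k := fun j hj => part_not hW hj hik
    obtain ⟨⟨x, y, hx, hy, -, -, hxy⟩, -⟩ := carry hg hUV hdis has (hu k) hfree n
    rw [eq_mod hg a (by omega), eq_mod hg (u k) (by omega)] at hxy
    refine ⟨![x, y], ?_, ?_⟩
    · intro s
      have hxa : x ≠ a := by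
        intro h
        have hyu : y = u k := by omega
        exact huk (supp_two hg hW hik (hu k) (hyu ▸ hy))
      have hya : y ≠ a := by
        intro h
        have hxu : x = u k := by omega
        exact huk (supp_two hg hW hik (hu k) (hxu ▸ hx))
      fin_cases s
      · exact ⟨mem_AA_of_supp hg hx, hxa⟩
      · exact ⟨mem_AA_of_supp hg hy, hya⟩
    · simp only [Fin.sum_univ_two, Matrix.cons_val_zero, Matrix.cons_val_one]
      omega
  · refine ⟨u, fun s => ⟨mem_AA_of_supp hg (hu s), fun h => ?_⟩, hsum.symm⟩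
    have h : u s = a := h
    rcases htwo s with h1 | h1
    · exact hui (h1 ▸ h)
    · have : Supp g (W k) a := by rw [← h, h1]; exact hu k
      exact ha0 (supp_two hg hW hik this has)

lemma not_free_not_removable {W : Fin 2 → Set ℕ} (hW : IsPartition W) {i k : Fin 2}
    (hik : k ≠ i) {a : ℕ} (ha : a ∈ AG g (W i)) (hinf : (W k).Infinite)
    (hfree : ¬ Free g (W i) (W k) a) : ¬ AsympBasis 2 (AA g W \ {a}) := by
  classical
  obtain ⟨ha0, has⟩ := (mem_AG_iff hg _ _).1 ha
  have htwo : ∀ k', k' = i ∨ k' = k := by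
    intro k'
    fin_cases i <;> fin_cases k <;> fin_cases k' <;> simp_all
  have hsum2 : ∀ f : Fin 2 → ℕ, ∑ x, f x = f i + f k := by
    intro f
    rw [← Finset.add_sum_erase univ _ (mem_univ i)]
    congr 1
    rw [Finset.sum_eq_single k]
    · intro b hb hbk
      rcases htwo b with h | h
      · exact absurd h (ne_of_mem_erase hb)
      · exact absurd h hbk
    · intro h; exact absurd (mem_erase.2 ⟨hik, mem_univ _⟩) h
  -- the bad position
  obtain ⟨j, hjk, hj⟩ : ∃ j, j ∈ W k ∧ ¬ (g (j + 1) = 2 * g j ∧ ∃ j' < j,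
      (∀ t, j' ≤ t → t < j → t ∈ W i) ∧
      a / g j' % (g (j' + 1) / g j') < g (j' + 1) / g j' - 1) := by
    by_contra hc
    push Not at hc
    apply hfree
    intro j hjk
    by_contra hcc
    push Not at hcc
    obtain ⟨h1, h2⟩ := hc j hjk
    obtain ⟨j', h3, h4, h5⟩ := h2
    have := hcc h1 j' h3 h4
    omega
  obtain ⟨M2, hM2⟩ := not_rep_of_used hg hW ha (j + 1) (by
    intro M hM y hty hsum k1 hk1
    have hk1k : k1 = k := by
      rcases htwo k1 with h | h
      · exact absurd h hk1
      · exact h
    subst hk1k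
    by_contra hno
    push Not at hno
    rw [hsum2, if_pos rfl, if_neg hk1] at hsum
    have hys : ∀ s, Supp g (W i) (y s) := by
      intro s
      rcases hty s with h0 | ⟨k', hk'⟩
      · rw [h0]; exact supp_zero _
      · rcases htwo k' with h | h
        · exact ((mem_AG_iff hg _ _).1 (h ▸ hk')).2
        · exact absurd (h ▸ hk') (hno s)
    have hyk : ∀ s t, t ∈ W k1 → y s % g (t + 1) = y s % g t :=
      fun s t ht => hys s t (fun h => part_not hW ht hk1.symm h)
    -- carries
    set S : ℕ → ℕ := fun t => ∑ s, y s % g t with hSdef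
    have hSlt : ∀ t, S t < 2 * g t := by
      intro t
      simp only [hSdef, Fin.sum_univ_two]
      have h1 := Nat.mod_lt (y 0) (gpos hg t)
      have h2 := Nat.mod_lt (y 1) (gpos hg t)
      omega
    set n := a + mu g (W k1) M with hn
    have hSmod : ∀ t, S t % g t = n % g t := by
      intro t
      rw [hsum, Finset.sum_nat_mod univ (g t) y]
    have hnt : ∀ t, t ≤ M → n % g t = a % g t + mu g (W k1) t := by
      intro t ht
      have h1 := fam_mod hg hW (fun x => if x = i then a else mu g (W x) M) (by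
        intro x
        split_ifs with hx
        · rw [hx]; exact has
        · exact mu_supp hg _ _) t
      rw [hsum2, hsum2, if_pos rfl, if_neg hk1] at h1
      rw [hn, h1, mu_mod hg _ ht]
    have hcar : ∀ t, S t = n % g t ∨ S t = n % g t + g t := by
      intro t
      have h1 := Nat.mod_add_div (S t) (g t)
      rw [hSmod] at h1
      have h2 := hSlt t
      have h3 : S t / g t < 2 := Nat.div_lt_of_lt_mul (by rw [mul_comm]; exact h2)
      generalize S t / g t = q at h1 h3
      rcases Nat.lt_or_ge q 1 with h4 | h4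
      · left
        have : q = 0 := by omega
        rw [this, mul_zero, add_zero] at h1
        exact h1.symm
      · right
        have : q = 1 := by omega
        rw [this, mul_one] at h1
        exact h1.symm
    have hSk : ∀ t, t ∈ W k1 → S (t + 1) = S t := by
      intro t ht
      exact sum_congr rfl (fun s _ => hyk s t ht)
    -- at `j` there is a carry and `g (j + 1) = 2 * g j`
    have e1 : n % g (j + 1) = n % g j + (g (j + 1) - g j) := by
      rw [hnt _ (by omega), hnt _ (by omega), mu_succ_mem hjk,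
        has j (fun h => part_not hW hjk hk1.symm h)]
      omega
    have hge : n % g (j + 1) ≤ S (j + 1) := by
      rcases hcar (j + 1) with h | h <;> omega
    have h2j := two_le hg j
    have hgj := gpos hg j
    have hcj : S j = n % g j + g j := by
      rcases hcar j with h | h
      · rw [hSk j hjk] at hge; omega
      · exact h
    have hd2 : g (j + 1) = 2 * g j := by
      rw [hSk j hjk] at hge; omega
    -- the start of the run before `j`
    have hfull : ∀ j' < j, (∀ t, j' ≤ t → t < j → t ∈ W i) →
        a % g (j' + 1) = a % g j' + (g (j' + 1) - g j') := by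
      intro j' h1 h2
      have h3 : ¬ a / g j' % (g (j' + 1) / g j') < g (j' + 1) / g j' - 1 :=
        fun h4 => hj ⟨hd2, j', h1, h2, h4⟩
      have hdpos : 0 < g (j' + 1) / g j' :=
        lt_of_lt_of_le (by norm_num) ((Nat.le_div_iff_mul_le (gpos hg j')).2 (two_le hg j'))
      have h4 := Nat.mod_lt (a / g j') hdpos
      rw [mod_succ hg, ← gsub hg]
      congr 2
      omega
    have hP : ∃ l, l ≤ j ∧ (∀ t, l ≤ t → t < j → t ∈ W i) := ⟨j, le_rfl, fun t h1 h2 => by omega⟩
    obtain ⟨hlj, hrun⟩ := Nat.find_spec hP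
    set l := Nat.find hP with hl
    have hSl : S l = n % g l := by
      rcases Nat.eq_zero_or_pos l with h0 | h0
      · have hgl : g l = 1 := by rw [h0]; exact hg.1
        simp only [hSdef, hgl, Nat.mod_one]
        simp
      · have hl1 : l - 1 ∈ W k1 := by
          by_contra hc
          have hli : l - 1 ∈ W i := by
            obtain ⟨k', hk'⟩ := part_ex hW (l - 1)
            rcases htwo k' with h | h
            · exact h ▸ hk'
            · exact absurd (h ▸ hk') hc
          have := Nat.find_min hP (m := l - 1) (by omega)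
          apply this
          refine ⟨by omega, fun t h1 h2 => ?_⟩
          rcases Nat.eq_or_lt_of_le h1 with h3 | h3
          · exact h3 ▸ hli
          · exact hrun t (by omega) h2
        have h1 := hSk (l - 1) hl1
        rw [show l - 1 + 1 = l by omega] at h1
        have h2 := hSlt (l - 1)
        have h3 := two_le hg (l - 1)
        rw [show l - 1 + 1 = l by omega] at h3
        rcases hcar l with h | h
        · exact h
        · omega
    have hstep : ∀ e, l + e ≤ j → S (l + e) + 2 * g l ≤ S l + 2 * g (l + e) ∧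
        a % g (l + e) + g l = a % g l + g (l + e) ∧ mu g (W k1) (l + e) = mu g (W k1) l := by
      intro e
      induction e with
      | zero => intro _; simp
      | succ e ih =>
        intro he
        obtain ⟨i1, i2, i3⟩ := ih (by omega)
        have hmem : l + e ∈ W i := hrun (l + e) (by omega) (by omega)
        have s1 : S (l + e + 1) ≤ S (l + e) + 2 * (g (l + e + 1) - g (l + e)) := by
          simp only [hSdef, Fin.sum_univ_two]
          have := step_le hg (y 0) (l + e)
          have := step_le hg (y 1) (l + e)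
          omega
        have s2 := hfull (l + e) (by omega) (fun t h1 h2 => hrun t (by omega) h2)
        have s3 := mu_succ_not (g := g) (W := W k1) (j := l + e) (part_not hW hmem hk1)
        have s4 := two_le hg (l + e)
        have s5 := gpos hg (l + e)
        rw [← add_assoc]
        refine ⟨by omega, by omega, by rw [s3, i3]⟩
    obtain ⟨e, he⟩ := Nat.exists_eq_add_of_le hlj
    obtain ⟨q1, q2, q3⟩ := hstep e (by omega)
    rw [← he] at q1 q2 q3
    have n1 := hnt j (by omega)
    have n2 := hnt l (by omega)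
    have gl := gpos hg l
    omega)
  rintro ⟨N, hN⟩
  obtain ⟨t, htW, ht⟩ := hinf.exists_gt (max N M2)
  refine hM2 (t + 1) (by omega) (hN _ ?_)
  rw [hsum2, if_neg hik, mu_succ_mem htW]
  have := two_le hg t
  have := glt hg t
  omega

end
end Pool.Agent.H116.GA
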