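import Pool.Agent.H116.GAdic4

namespace Pool.Agent.H116.GA

open Finset

/-- exceptional shape of a part for order two: it misses `0`, has no two consecutive elements,
and `g (j + 1) = 2 * g j` at each of its elements -/
def Exc (g : ℕ → ℕ) (V : Set ℕ) : Prop := ∀ j ∈ V, 0 < j ∧ j - 1 ∉ V ∧ g (j + 1) = 2 * g j

section
variable {g : ℕ → ℕ} (hg : IsGAdic g)

lemma asymp_mono' {h : ℕ} {A B : Set ℕ} (hAB : A ⊆ B) (hB : ¬ AsympBasis h B) :
    ¬ AsympBasis h A := fun hA => hB (asymp_mono hAB hA)

/-- minimality only has to be tested on one-element deletions -/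
lemma minimal_iff {h : ℕ} {A : Set ℕ} {a : ℕ} (hA : AsympBasis h (A \ {a})) :
    MinimalAsympBasis h (A \ {a}) ↔ ∀ b ∈ A, b ≠ a → ¬ AsympBasis h (A \ {a, b}) := by
  constructor
  · intro hmin b hb hba
    apply hmin.2
    refine ⟨?_, fun hsub => ?_⟩
    · intro x hx
      exact ⟨hx.1, fun hxa => hx.2 (Or.inl hxa)⟩
    · exact (hsub (⟨hb, hba⟩ : b ∈ A \ {a})).2 (Or.inr rfl)
  · intro hall
    refine ⟨hA, fun B hB hBb => ?_⟩
    obtain ⟨hsub, hne⟩ := hB
    obtain ⟨b, hbU, hbB⟩ := Set.not_subset.1 hne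
    refine hall b hbU.1 hbU.2 (asymp_mono ?_ hBb)
    intro x hx
    refine ⟨(hsub hx).1, ?_⟩
    rintro (h1 | h1)
    · exact (hsub hx).2 h1
    · have h1 : x = b := h1
      exact hbB (h1 ▸ hx)

lemma exc_of_free {W : Fin 2 → Set ℕ} (hW : IsPartition W) {i k : Fin 2} (hik : k ≠ i) {a : ℕ}
    (hfree : Free g (W i) (W k) a) : Exc g (W k) := by
  intro j hj
  obtain ⟨h1, j', h2, h3, h4⟩ := hfree j hj
  exact ⟨by omega, part_not hW (h3 (j - 1) (by omega) (by omega)) hik, h1⟩

lemma fin2_eq {i k k' : Fin 2} (h1 : k ≠ i) (h2 : k' ≠ i) : k' = k := by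
  fin_cases i <;> fin_cases k <;> fin_cases k' <;> simp_all

include hg

/-- one part finite: no element can be removed to leave a minimal basis -/
lemma S_empty_of_finite {W : Fin 2 → Set ℕ} (hW : IsPartition W) {i k : Fin 2} (hik : k ≠ i)
    (hfin : (W k).Finite) :
    {a | a ∈ AA g W ∧ MinimalAsympBasis 2 (AA g W \ {a})} = ∅ := by
  have hfin' : ∀ k', k' ≠ i → (W k').Finite := fun k' hk' => (fin2_eq hik hk') ▸ hfin
  obtain ⟨b0, hb0⟩ := hfin.bddAbove
  have hcof : ∀ j, b0 < j → j ∈ W i := by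
    intro j hj
    obtain ⟨k', hk'⟩ := part_ex hW j
    by_cases h : k' = i
    · exact h ▸ hk'
    · rw [fin2_eq hik h] at hk'
      have := hb0 hk'
      omega
  have hinf : (W i).Infinite := by
    intro hWi
    have hall : ∀ k, (W k).Finite := by
      intro k
      by_cases hk : k = i
      · exact hk ▸ hWi
      · exact hfin' k hk
    have : (⋃ k, W k).Finite := Set.finite_iUnion hall
    rw [hW.2.2] at this
    exact Set.infinite_univ this
  ext a
  simp only [Set.mem_setOf_eq, Set.mem_empty_iff_false, iff_false, not_and]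
  intro haA hmin
  rcases haA with ha0 | haU
  · have ha0 : a = 0 := ha0
    rw [ha0, AA_diff_zero hg] at hmin
    obtain ⟨a', ha', hb⟩ := AU_not_minimal hg hW hfin'
    refine hmin.2 (AU g W \ {a'}) ?_ hb
    refine ⟨Set.diff_subset, fun hsub => ?_⟩
    exact (hsub ha').2 rfl
  · obtain ⟨k1, hk⟩ := Set.mem_iUnion.1 haU
    by_cases hki : k1 = i
    · subst hki
      obtain ⟨t, htW, ht⟩ := hinf.exists_gt a
      have h1 := single_mem hg t htW
      have h2 := glt hg t
      have h3 := asymp_of_finite hg hW hfin' {a, g t} (by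
        intro b hb
        rw [Finset.mem_insert, Finset.mem_singleton] at hb
        rcases hb with hb | hb
        · rw [hb]; exact hk
        · rw [hb]; exact h1)
      refine hmin.2 _ ?_ h3
      refine ⟨?_, fun hsub => ?_⟩
      · intro x hx
        refine ⟨hx.1, fun hxa => hx.2 ?_⟩
        have hxa : x = a := hxa
        rw [hxa]; simp
      · have h4 : g t ∈ AA g W \ {a} := by
          refine ⟨Or.inr (Set.mem_iUnion.2 ⟨k1, h1⟩), fun h5 => ?_⟩
          have h5 : g t = a := h5
          omega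
        exact (hsub h4).2 (by simp)
    · refine not_free_not_removable hg hW (fun h => hki h.symm) hk hinf ?_ hmin.1
      intro hfree
      have hexc := exc_of_free hW (fun h => hki h.symm) hfree
      have h1 := (hexc (b0 + 2) (hcof _ (by omega))).2.1
      exact h1 (hcof _ (by omega))

/-- both parts infinite, no exceptional part: `S = {0}` -/
lemma S_zero_of_not_exc {W : Fin 2 → Set ℕ} (hW : IsPartition W)
    (hinf : ∀ k, (W k).Infinite) (hexc : ∀ k, ¬ Exc g (W k)) :
    {a | a ∈ AA g W ∧ MinimalAsympBasis 2 (AA g W \ {a})} = {0} := by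
  have key : ∀ b ∈ AU g W, ¬ AsympBasis 2 (AA g W \ {b}) := by
    intro b hb
    obtain ⟨i, hi⟩ := Set.mem_iUnion.1 hb
    obtain ⟨k, hk⟩ : ∃ k : Fin 2, k ≠ i := exists_ne i
    exact not_free_not_removable hg hW hk hi (hinf k)
      (fun hfree => hexc k (exc_of_free hW hk hfree))
  ext a
  simp only [Set.mem_setOf_eq, Set.mem_singleton_iff]
  constructor
  · rintro ⟨haA, hmin⟩
    rcases haA with ha0 | haU
    · exact ha0
    · exact absurd hmin.1 (key a haU)
  · intro ha
    subst ha
    have h0 : AsympBasis 2 (AA g W \ {0}) := by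
      rw [AA_diff_zero hg]; exact AU_asymp hg hW (by norm_num)
    refine ⟨Or.inl rfl, (minimal_iff h0).2 fun b hb hb0 => ?_⟩
    refine asymp_mono' ?_ (key b ?_)
    · intro x hx
      exact ⟨hx.1, fun h => hx.2 (Or.inr h)⟩
    · rcases hb with h | h
      · exact absurd h hb0
      · exact h

end
end Pool.Agent.H116.GA
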