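import Pool.Agent.H116.GAdic5

namespace Pool.Agent.H116.GA

open Finset

section
variable {g : ℕ → ℕ} (hg : IsGAdic g)

lemma hfold_two {A : Set ℕ} {x y n : ℕ} (hx : x ∈ A) (hy : y ∈ A) (h : x + y = n) :
    n ∈ hfold 2 A := by
  refine ⟨![x, y], ?_, ?_⟩
  · intro s
    fin_cases s
    · exact hx
    · exact hy
  · simp only [Fin.sum_univ_two, Matrix.cons_val_zero, Matrix.cons_val_one]
    exact h.symm

lemma sum_two {i k : Fin 2} (hik : k ≠ i) (f : Fin 2 → ℕ) : ∑ x, f x = f i + f k := by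
  rw [← Finset.add_sum_erase univ _ (mem_univ i)]
  congr 1
  rw [Finset.sum_eq_single k]
  · intro b hb hbk
    exact absurd (fin2_eq hik (ne_of_mem_erase hb)) hbk
  · intro h; exact absurd (mem_erase.2 ⟨hik, mem_univ _⟩) h

include hg

/-- top position -/
lemma top {W : Set ℕ} {u : ℕ} (hu : Supp g W u) (h0 : u ≠ 0) :
    ∃ j, j ∈ W ∧ g j ≤ u ∧ u < g (j + 1) := by
  classical
  have hex : ∃ j, u < g (j + 1) :=
    ⟨u, lt_of_lt_of_le (glt hg u) (hg.2.1.monotone (by omega))⟩
  have hf := Nat.find_spec hex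
  set j := Nat.find hex with hj
  have hle : g j ≤ u := by
    rcases Nat.eq_zero_or_pos j with h | h
    · rw [h, hg.1]; omega
    · have := Nat.find_min hex (m := j - 1) (by omega)
      rw [show j - 1 + 1 = j by omega] at this
      omega
  refine ⟨j, ?_, hle, hf⟩
  by_contra hc
  have h1 := hu j hc
  rw [Nat.mod_eq_of_lt hf] at h1
  have := Nat.mod_lt u (gpos hg j)
  omega

lemma carry_big {U V : Set ℕ} (hUV : ∀ j, j ∈ U ∨ j ∈ V) (hdis : ∀ j, j ∈ U → j ∉ V)
    (hexc : Exc g V) {a u B : ℕ}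
    (ha : Supp g U a) (hu : Supp g V u) (hfree : Free g U V a) (hbig : g (a + B + 2) ≤ u) :
    ∃ x y, Supp g U x ∧ Supp g U y ∧ B < x ∧ B < y ∧ x + y = a + u := by
  have hu0 : u ≠ 0 := by have := gpos hg (a + B + 2); omega
  obtain ⟨j, hjV, hju, hju'⟩ := top hg hu hu0
  obtain ⟨hj0, hj1, hj2⟩ := hexc j hjV
  have hjlt : a + B + 2 < j + 1 := hg.2.1.lt_iff_lt.1 (by omega)
  obtain ⟨p, rfl⟩ : ∃ p, j = p + 1 := ⟨j - 1, by omega⟩
  have hpV : p ∉ V := by simpa using hj1
  have hpU : p ∈ U := (hUV p).resolve_right hpV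
  have gp := glt hg p
  have hmod : u % g p = u - g (p + 1) := by
    rw [← hu p hpV, Nat.mod_eq_sub_mod hju, Nat.mod_eq_of_lt (by omega)]
  obtain ⟨⟨x, y, hx, hy, hxl, hyl, hxy⟩, -⟩ := carry hg hUV hdis ha hu hfree p
  rw [Nat.mod_eq_of_lt (show a < g p by omega), hmod] at hxy
  have hd : 2 ≤ g (p + 1) / g p := (Nat.le_div_iff_mul_le (gpos hg p)).2 (two_le hg p)
  obtain ⟨h1, -⟩ := supp_add hg hxl hx hpU (c := 1) (by omega)
  obtain ⟨h2, -⟩ := supp_add hg hyl hy hpU (c := g (p + 1) / g p - 1) le_rfl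
  have h4 := two_le hg p
  rw [gsub hg p] at h2
  refine ⟨_, _, h1, h2, ?_, ?_, ?_⟩ <;> omega

lemma supp_mod {W : Set ℕ} {n : ℕ} (hn : Supp g W n) (m : ℕ) : Supp g W (n % g m) := by
  intro j hj
  rcases Nat.lt_or_ge j m with h | h
  · rw [Nat.mod_mod_of_dvd _ (gdvd hg (show j + 1 ≤ m by omega)),
      Nat.mod_mod_of_dvd _ (gdvd hg (show j ≤ m by omega)), hn j hj]
  · have h1 := Nat.mod_lt n (gpos hg m)
    have h2 : g m ≤ g j := hg.2.1.monotone h
    have h3 : g j ≤ g (j + 1) := hg.2.1.monotone (by omega)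
    rw [Nat.mod_eq_of_lt (show n % g m < g (j + 1) by omega),
      Nat.mod_eq_of_lt (show n % g m < g j by omega)]

lemma split_big {W : Fin 2 → Set ℕ} (hW : IsPartition W) {i k : Fin 2} (hik : k ≠ i)
    (hexc : Exc g (W k)) {b n : ℕ} (hb : b ∈ AG g (W i)) (hb1 : b ≠ 1) (hn : Supp g (W i) n)
    (hbig : g (b + 2) ≤ n) :
    ∃ x y, x ∈ AU g W ∧ y ∈ AU g W ∧ x ≠ b ∧ y ≠ b ∧ x + y = n := by
  obtain ⟨hb0, hbs⟩ := (mem_AG_iff hg _ _).1 hb
  have hmk : ∀ (s : Fin 2) (z : ℕ), z ≠ 0 → Supp g (W s) z → z ∈ AU g W :=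
    fun s z h1 h2 => Set.mem_iUnion.2 ⟨s, (mem_AG_iff hg _ _).2 ⟨h1, h2⟩⟩
  have hn0 : n ≠ 0 := by have := gpos hg (b + 2); omega
  obtain ⟨j, hjU, hj1, hj2⟩ := top hg hn hn0
  have hjlt : b + 2 < j + 1 := hg.2.1.lt_iff_lt.1 (by omega)
  obtain ⟨p, rfl⟩ : ∃ p, j = p + 1 := ⟨j - 1, by omega⟩
  have hpb : b < g p := by have := glt hg p; omega
  have h2p := two_le hg p
  have gpp := gpos hg p
  have gpq := gpos hg (p + 1)
  have hmd := Nat.mod_add_div n (g (p + 1))
  have hn's : Supp g (W i) (n % g (p + 1)) := supp_mod hg hn (p + 1)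
  have hn'lt : n % g (p + 1) < g (p + 1) := Nat.mod_lt _ gpq
  have hc1 : 1 ≤ n / g (p + 1) := (Nat.one_le_div_iff gpq).2 hj1
  have hcd : n / g (p + 1) ≤ g (p + 1 + 1) / g (p + 1) - 1 := by
    have : n / g (p + 1) < g (p + 1 + 1) / g (p + 1) := by
      apply Nat.div_lt_of_lt_mul
      rw [← gmul hg (p + 1)]
      exact hj2
    omega
  generalize n % g (p + 1) = n' at hmd hn's hn'lt
  generalize n / g (p + 1) = c at hmd hc1 hcd
  have hd2 : 1 ≤ g (p + 1 + 1) / g (p + 1) - 1 := by omega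
  rcases Nat.lt_or_ge 1 c with hc | hc
  · obtain ⟨c', rfl⟩ : ∃ c', c = c' + 1 := ⟨c - 1, by omega⟩
    obtain ⟨h1, -⟩ := supp_add hg (show 0 < g (p + 1) from gpq) (supp_zero (W i)) hjU
      (c := 1) (by omega)
    obtain ⟨h2, -⟩ := supp_add hg hn'lt hn's hjU (c := c') (by omega)
    have h3 : g (p + 1) * 1 ≤ g (p + 1) * c' := Nat.mul_le_mul_left _ (by omega)
    rw [mul_add] at hmd
    exact ⟨_, _, hmk i _ (by omega) h1, hmk i _ (by omega) h2, by omega, by omega, by omega⟩
  · have hc' : c = 1 := by omega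
    subst hc'
    rw [mul_one] at hmd
    by_cases hn'0 : n' = 0
    · obtain ⟨k', hk'⟩ := part_ex hW p
      refine ⟨g p, g (p + 1) - g p, Set.mem_iUnion.2 ⟨k', single_mem hg _ hk'⟩,
        Set.mem_iUnion.2 ⟨k', diff_mem hg _ hk'⟩, by omega, by omega, by omega⟩
    · by_cases hn'b : n' = b
      · subst hn'b
        obtain ⟨k', hk'⟩ := part_ex hW p
        by_cases hki : k' = i
        · subst hki
          obtain ⟨h2, -⟩ := supp_add hg hpb hn's hk' (c := g (p + 1) / g p - 1) le_rfl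
          rw [gsub hg p] at h2
          exact ⟨g p, _, Set.mem_iUnion.2 ⟨k', single_mem hg _ hk'⟩, hmk k' _ (by omega) h2,
            by omega, by omega, by omega⟩
        · have hkk := fin2_eq hik hki
          subst hkk
          have hd := (hexc p hk').2.2
          obtain ⟨b1, b2, hb1', hb2', hbb⟩ := split hg hW (Set.mem_iUnion.2 ⟨i, hb⟩)
            (show 2 ≤ n' by omega)
          obtain ⟨s1, hs1⟩ := Set.mem_iUnion.1 hb1'
          obtain ⟨s2, hs2⟩ := Set.mem_iUnion.1 hb2'
          obtain ⟨z1, w1⟩ := (mem_AG_iff hg _ _).1 hs1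
          obtain ⟨z2, w2⟩ := (mem_AG_iff hg _ _).1 hs2
          by_cases e2 : s2 = i
          · subst e2
            obtain ⟨h2, -⟩ := supp_add hg (show b2 < g (p + 1) by omega) w2 hjU
              (c := 1) (by omega)
            exact ⟨b1, _, hb1', hmk s2 _ (by omega) h2, by omega, by omega, by omega⟩
          · by_cases e1 : s1 = i
            · subst e1
              obtain ⟨h2, -⟩ := supp_add hg (show b1 < g (p + 1) by omega) w1 hjU
                (c := 1) (by omega)
              exact ⟨b2, _, hb2', hmk s1 _ (by omega) h2, by omega, by omega, by omega⟩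
            · have q1 := fin2_eq hik e1
              have q2 := fin2_eq hik e2
              subst q1
              subst q2
              have hd1 : 1 ≤ g (p + 1) / g p - 1 := by
                have : 2 ≤ g (p + 1) / g p := (Nat.le_div_iff_mul_le gpp).2 h2p
                omega
              obtain ⟨h1, -⟩ := supp_add hg (show b1 < g p by omega) w1 hk' (c := 1) hd1
              obtain ⟨h2, -⟩ := supp_add hg (show b2 < g p by omega) w2 hk' (c := 1) hd1
              exact ⟨_, _, hmk _ _ (by omega) h1, hmk _ _ (by omega) h2,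
                by omega, by omega, by omega⟩
      · obtain ⟨h1, -⟩ := supp_add hg (show 0 < g (p + 1) from gpq) (supp_zero (W i)) hjU
          (c := 1) (by omega)
        exact ⟨n', _, hmk i _ hn'0 hn's, hmk i _ (by omega) h1, hn'b, by omega, by omega⟩

/-- removing `0` and a free element `b ≠ 1` still leaves an asymptotic basis of order two -/
lemma pair_zero {W : Fin 2 → Set ℕ} (hW : IsPartition W) {i k : Fin 2} (hik : k ≠ i)
    (hexc : Exc g (W k)) {b : ℕ} (hb : b ∈ AG g (W i)) (hb1 : b ≠ 1)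
    (hfree : Free g (W i) (W k) b) : AsympBasis 2 (AA g W \ {0, b}) := by
  obtain ⟨hb0, hbs⟩ := (mem_AG_iff hg _ _).1 hb
  have hUV : ∀ j, j ∈ W i ∨ j ∈ W k := by
    intro j
    obtain ⟨k', hk'⟩ := part_ex hW j
    by_cases h : k' = i
    · left; exact h ▸ hk'
    · right; exact (fin2_eq hik h) ▸ hk'
  have hdis : ∀ j, j ∈ W i → j ∉ W k := fun j hj => part_not hW hj hik
  have hfree0 : Free g (W i) (W k) 0 := by
    intro j hj
    obtain ⟨h0, h1, h2⟩ := hexc j hj
    refine ⟨h2, j - 1, by omega, fun t h3 h4 => ?_, ?_⟩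
    · have : t = j - 1 := by omega
      rw [this]; exact (hUV (j - 1)).resolve_right h1
    · have : 2 ≤ g (j - 1 + 1) / g (j - 1) :=
        (Nat.le_div_iff_mul_le (gpos hg _)).2 (two_le hg _)
      rw [Nat.zero_div, Nat.zero_mod]
      omega
  refine ⟨g (b + b + 2) + g (b + 2) + g (b + b + 2), fun n hn => ?_⟩
  obtain ⟨u, hu, hsum⟩ := decomp hg hW n
  rw [sum_two hik] at hsum
  have hgb := glt hg (b + 2)
  have huk_ne : u k ≠ 0 → u k ≠ b := by
    intro h1 h2
    exact h1 (supp_two hg hW hik (hu k) (h2 ▸ hbs))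
  by_cases hbig : g (b + b + 2) ≤ u k
  · have huk0 : u k ≠ 0 := by have := gpos hg (b + b + 2); omega
    by_cases h0 : u i = 0 ∨ u i = b
    · obtain ⟨x, y, hx, hy, hxB, hyB, hxy⟩ := carry_big hg hUV hdis hexc (a := u i) (B := b)
        (hu i) (hu k) (by rcases h0 with h | h <;> rw [h] <;> assumption)
        (le_trans (hg.2.1.monotone (by omega)) hbig)
      refine hfold_two (x := x) (y := y) ⟨mem_AA_of_supp hg hx, ?_⟩
        ⟨mem_AA_of_supp hg hy, ?_⟩ (by omega)
      · rintro (h | h)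
        · have h : x = 0 := h
          omega
        · have h : x = b := h
          omega
      · rintro (h | h)
        · have h : y = 0 := h
          omega
        · have h : y = b := h
          omega
    · rw [not_or] at h0
      refine hfold_two (x := u i) (y := u k) ⟨mem_AA_of_supp hg (hu i), ?_⟩
        ⟨mem_AA_of_supp hg (hu k), ?_⟩ hsum
      · rintro (h | h)
        · exact h0.1 h
        · exact h0.2 h
      · rintro (h | h)
        · exact huk0 h
        · exact huk_ne huk0 h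
  · by_cases hk0 : u k = 0
    · obtain ⟨x, y, hx, hy, hxb, hyb, hxy⟩ := split_big hg hW hik hexc hb hb1 (hu i)
        (by omega)
      have hx0 : x ≠ 0 := fun h => zero_notMem_AU hg (W := W) (h ▸ hx)
      have hy0 : y ≠ 0 := fun h => zero_notMem_AU hg (W := W) (h ▸ hy)
      refine hfold_two (x := x) (y := y) ⟨Or.inr hx, ?_⟩ ⟨Or.inr hy, ?_⟩ (by omega)
      · rintro (h | h)
        · exact hx0 h
        · exact hxb h
      · rintro (h | h)
        · exact hy0 h
        · exact hyb h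
    · refine hfold_two (x := u i) (y := u k) ⟨mem_AA_of_supp hg (hu i), ?_⟩
        ⟨mem_AA_of_supp hg (hu k), ?_⟩ hsum
      · rintro (h | h)
        · have h : u i = 0 := h
          omega
        · have h : u i = b := h
          omega
      · rintro (h | h)
        · exact hk0 h
        · exact huk_ne hk0 h

/-- removing `1` and a free element `b` still leaves an asymptotic basis of order two -/
lemma pair_one {W : Fin 2 → Set ℕ} (hW : IsPartition W) {i k : Fin 2} (hik : k ≠ i)
    (hexc : Exc g (W k)) {b : ℕ} (hb : b ∈ AG g (W i)) (h1 : 1 ∈ AG g (W i))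
    (hfree : Free g (W i) (W k) b) (hfree1 : Free g (W i) (W k) 1) :
    AsympBasis 2 (AA g W \ {1, b}) := by
  obtain ⟨hb0, hbs⟩ := (mem_AG_iff hg _ _).1 hb
  obtain ⟨-, h1s⟩ := (mem_AG_iff hg _ _).1 h1
  have hUV : ∀ j, j ∈ W i ∨ j ∈ W k := by
    intro j
    obtain ⟨k', hk'⟩ := part_ex hW j
    by_cases h : k' = i
    · left; exact h ▸ hk'
    · right; exact (fin2_eq hik h) ▸ hk'
  have hdis : ∀ j, j ∈ W i → j ∉ W k := fun j hj => part_not hW hj hik
  refine ⟨g (b + b + 2) + g (b + 2) + g (b + b + 2), fun n hn => ?_⟩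
  obtain ⟨u, hu, hsum⟩ := decomp hg hW n
  rw [sum_two hik] at hsum
  have hgb := glt hg (b + 2)
  have huk_b : u k ≠ b := fun h2 => hb0 (supp_two hg hW hik (h2 ▸ hu k) hbs)
  have huk_1 : u k ≠ 1 := fun h2 =>
    absurd (supp_two hg hW hik (h2 ▸ hu k : Supp g (W k) 1) h1s) (by norm_num)
  by_cases h0 : u i = 1 ∨ u i = b
  · obtain ⟨x, y, hx, hy, hxB, hyB, hxy⟩ := carry_big hg hUV hdis hexc (a := u i) (B := b)
      (hu i) (hu k) (by rcases h0 with h | h <;> rw [h] <;> assumption)
      (le_trans (hg.2.1.monotone (show u i + b + 2 ≤ b + b + 2 by omega)) (by omega))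
    refine hfold_two (x := x) (y := y) ⟨mem_AA_of_supp hg hx, ?_⟩
      ⟨mem_AA_of_supp hg hy, ?_⟩ (by omega)
    · rintro (h | h)
      · have h : x = 1 := h
        omega
      · have h : x = b := h
        omega
    · rintro (h | h)
      · have h : y = 1 := h
        omega
      · have h : y = b := h
        omega
  · rw [not_or] at h0
    refine hfold_two (x := u i) (y := u k) ⟨mem_AA_of_supp hg (hu i), ?_⟩
      ⟨mem_AA_of_supp hg (hu k), ?_⟩ hsum
    · rintro (h | h)
      · exact h0.1 h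
      · exact h0.2 h
    · rintro (h | h)
      · exact huk_1 h
      · exact huk_b h

end
end Pool.Agent.H116.GA
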