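import Pool.Agent.H116.GAdic6

namespace Pool.Agent.H116.GA

open Finset

/-- the odd numbers -/
def Odds : Set ℕ := {j | j % 2 = 1}

section
variable {g : ℕ → ℕ} (hg : IsGAdic g)
include hg

lemma not_removable_exc {W : Fin 2 → Set ℕ} (hW : IsPartition W) {i k : Fin 2} (hik : k ≠ i)
    (hexc : Exc g (W k)) (hinf : ∀ k, (W k).Infinite) {b : ℕ} (hb : b ∈ AU g W)
    (hnf : ¬ (b ∈ AG g (W i) ∧ Free g (W i) (W k) b)) : ¬ AsympBasis 2 (AA g W \ {b}) := by
  obtain ⟨s, hs⟩ := Set.mem_iUnion.1 hb
  by_cases hsi : s = i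
  · have hs' : b ∈ AG g (W i) := hsi ▸ hs
    exact not_free_not_removable hg hW hik hs' (hinf k) (fun h => hnf ⟨hs', h⟩)
  · have hs' : b ∈ AG g (W k) := (fin2_eq hik hsi) ▸ hs
    refine not_free_not_removable hg hW hik.symm hs' (hinf i) (fun h => ?_)
    have hexc' := exc_of_free hW hik.symm h
    obtain ⟨k', hk'⟩ := part_ex hW 0
    by_cases h0 : k' = i
    · exact absurd (hexc' 0 (h0 ▸ hk')).1 (by norm_num)
    · exact absurd (hexc 0 ((fin2_eq hik h0) ▸ hk')).1 (by norm_num)

lemma S_empty_exc {W : Fin 2 → Set ℕ} (hW : IsPartition W) {i k : Fin 2} (hik : k ≠ i)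
    (hexc : Exc g (W k)) (hinf : ∀ k, (W k).Infinite) {b : ℕ} (hb : b ∈ AG g (W i)) (hb1 : b ≠ 1)
    (hfree : Free g (W i) (W k) b) :
    {a | a ∈ AA g W ∧ MinimalAsympBasis 2 (AA g W \ {a})} = ∅ := by
  ext a
  simp only [Set.mem_setOf_eq, Set.mem_empty_iff_false, iff_false, not_and]
  intro haA hmin
  have hb0 := ((mem_AG_iff hg _ _).1 hb).1
  have hall := (minimal_iff hmin.1).1 hmin
  have hbA : b ∈ AA g W := Or.inr (Set.mem_iUnion.2 ⟨i, hb⟩)
  rcases haA with ha0 | haU
  · have ha0 : a = 0 := ha0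
    subst ha0
    exact hall b hbA hb0 (pair_zero hg hW hik hexc hb hb1 hfree)
  · by_cases hR : a ∈ AG g (W i) ∧ Free g (W i) (W k) a
    · by_cases ha1 : a = 1
      · subst ha1
        exact hall b hbA hb1 (pair_one hg hW hik hexc hb hR.1 hfree hR.2)
      · have ha0 := ((mem_AG_iff hg _ _).1 hR.1).1
        refine hall 0 (Or.inl rfl) (Ne.symm ha0) ?_
        rw [Set.pair_comm]
        exact pair_zero hg hW hik hexc hR.1 ha1 hR.2
    · exact not_removable_exc hg hW hik hexc hinf haU hR hmin.1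

lemma S_zero_exc {W : Fin 2 → Set ℕ} (hW : IsPartition W) {i k : Fin 2} (hik : k ≠ i)
    (hexc : Exc g (W k)) (hinf : ∀ k, (W k).Infinite)
    (hR : ∀ b ∈ AG g (W i), ¬ Free g (W i) (W k) b) :
    {a | a ∈ AA g W ∧ MinimalAsympBasis 2 (AA g W \ {a})} = {0} := by
  have key : ∀ b ∈ AU g W, ¬ AsympBasis 2 (AA g W \ {b}) := by
    intro b hb
    exact not_removable_exc hg hW hik hexc hinf hb (fun h => hR b h.1 h.2)
  ext a
  simp only [Set.mem_setOf_eq, Set.mem_singleton_iff]
  constructor
  · rintro ⟨haA, hmin⟩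
    rcases haA with ha0 | haU
    · exact ha0
    · exact absurd hmin.1 (key a haU)
  · intro ha
    subst ha
    have h0 : AsympBasis 2 (AA g W \ {0}) := by
      rw [AA_diff_zero hg]; exact AU_asymp hg hW (by norm_num)
    refine ⟨Or.inl rfl, (minimal_iff h0).2 fun b hb hb0 => ?_⟩
    refine asymp_mono' ?_ (key b ?_)
    · intro x hx
      exact ⟨hx.1, fun h => hx.2 (Or.inr h)⟩
    · rcases hb with h | h
      · exact absurd h hb0
      · exact h

lemma S_pair_exc {W : Fin 2 → Set ℕ} (hW : IsPartition W) {i k : Fin 2} (hik : k ≠ i)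
    (hexc : Exc g (W k)) (hinf : ∀ k, (W k).Infinite) (h1 : 1 ∈ AG g (W i))
    (hf1 : Free g (W i) (W k) 1)
    (hR : ∀ b ∈ AG g (W i), Free g (W i) (W k) b → b = 1)
    (hpair : ¬ AsympBasis 2 (AA g W \ {0, 1})) :
    {a | a ∈ AA g W ∧ MinimalAsympBasis 2 (AA g W \ {a})} = {0, 1} := by
  have key : ∀ b ∈ AU g W, b ≠ 1 → ¬ AsympBasis 2 (AA g W \ {b}) := by
    intro b hb hb1
    exact not_removable_exc hg hW hik hexc hinf hb (fun h => hb1 (hR b h.1 h.2))
  ext a
  simp only [Set.mem_setOf_eq, Set.mem_insert_iff, Set.mem_singleton_iff]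
  constructor
  · rintro ⟨haA, hmin⟩
    rcases haA with ha0 | haU
    · left; exact ha0
    · right
      by_contra ha1
      exact key a haU ha1 hmin.1
  · rintro (ha | ha)
    · subst ha
      have h0 : AsympBasis 2 (AA g W \ {0}) := by
        rw [AA_diff_zero hg]; exact AU_asymp hg hW (by norm_num)
      refine ⟨Or.inl rfl, (minimal_iff h0).2 fun b hb hb0 => ?_⟩
      by_cases hb1 : b = 1
      · subst hb1; exact hpair
      · refine asymp_mono' ?_ (key b ?_ hb1)
        · intro x hx
          exact ⟨hx.1, fun h => hx.2 (Or.inr h)⟩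
        · rcases hb with h | h
          · exact absurd h hb0
          · exact h
    · subst ha
      have h0 : AsympBasis 2 (AA g W \ {1}) := free_removable hg hW hik h1 hf1
      refine ⟨Or.inr (Set.mem_iUnion.2 ⟨i, h1⟩), (minimal_iff h0).2 fun b hb hb1 => ?_⟩
      rcases hb with h | h
      · have h : b = 0 := h
        subst h
        rw [Set.pair_comm]; exact hpair
      · refine asymp_mono' ?_ (key b h hb1)
        intro x hx
        exact ⟨hx.1, fun h => hx.2 (Or.inr h)⟩

lemma digit_single {t j : ℕ} (h : t ≠ j) : g j / g t % (g (t + 1) / g t) = 0 := by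
  rcases Nat.lt_or_gt_of_ne h with h | h
  · obtain ⟨q, hq⟩ := gdvd hg (show t + 1 ≤ j by omega)
    have e : g j / g t = (g (t + 1) / g t) * q := by
      rw [hq]
      conv_lhs => rw [gmul hg t]
      rw [mul_assoc, Nat.mul_div_cancel_left _ (gpos hg t)]
    rw [e, Nat.mul_mod_right]
  · rw [Nat.div_eq_of_lt (hg.2.1 h), Nat.zero_mod]

lemma two_le_quot (t : ℕ) : 2 ≤ g (t + 1) / g t :=
  (Nat.le_div_iff_mul_le (gpos hg t)).2 (two_le hg t)

lemma shape {W : Fin 2 → Set ℕ} (hW : IsPartition W) {i k : Fin 2} (hik : k ≠ i)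
    (hexc : Exc g (W k)) (hR : ∀ b ∈ AG g (W i), Free g (W i) (W k) b → b = 1) :
    W k = Odds ∧ ((∀ j, g j = 2 ^ j) ∨ (∀ j, g (j + 1) = 3 * 2 ^ j)) := by
  have hUV : ∀ j, j ∈ W i ∨ j ∈ W k := by
    intro j
    obtain ⟨k', hk'⟩ := part_ex hW j
    by_cases h : k' = i
    · left; exact h ▸ hk'
    · right; exact (fin2_eq hik h) ▸ hk'
  have hdis : ∀ j, j ∈ W i → j ∉ W k := fun j hj => part_not hW hj hik
  have key : ∀ j ∈ W i, 1 ≤ j → j - 1 ∈ W k ∧ j + 1 ∈ W k ∧ g (j + 1) = 2 * g j := by
    intro j hj hj1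
    have hne : g j ≠ 1 := by have := glt hg j; omega
    have hnf : ¬ Free g (W i) (W k) (g j) := fun h => hne (hR _ (single_mem hg _ hj) h)
    obtain ⟨v, hv, hv2⟩ : ∃ v, v ∈ W k ∧ ∀ j' < v, (∀ t, j' ≤ t → t < v → t ∈ W i) →
        g (j' + 1) / g j' - 1 ≤ g j / g j' % (g (j' + 1) / g j') := by
      by_contra hc
      push Not at hc
      apply hnf
      intro v hv
      obtain ⟨j', h1, h2, h3⟩ := hc v hv
      exact ⟨(hexc v hv).2.2, j', h1, h2, h3⟩
    obtain ⟨v0, v1, v2⟩ := hexc v hv
    have hvU : v - 1 ∈ W i := (hUV _).resolve_right v1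
    have e1 := hv2 (v - 1) (by omega) (fun t h1 h2 => by
      have : t = v - 1 := by omega
      rw [this]; exact hvU)
    have hvj : v - 1 = j := by
      by_contra hc
      rw [digit_single hg hc] at e1
      have := two_le_quot hg (v - 1)
      omega
    have hd2 := two_le_quot hg j
    rw [hvj, Nat.div_self (gpos hg j), Nat.mod_eq_of_lt (by omega)] at e1
    have hd : g (j + 1) / g j = 2 := by omega
    have hg2 : g (j + 1) = 2 * g j := by
      have := gmul hg j
      rw [hd] at this
      omega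
    refine ⟨?_, ?_, hg2⟩
    · by_contra hc
      have hj1U := (hUV (j - 1)).resolve_right hc
      have e2 := hv2 (j - 1) (by omega) (fun t h1 h2 => by
        rcases (show t = j - 1 ∨ t = j by omega) with h | h
        · rw [h]; exact hj1U
        · rw [h]; exact hj)
      rw [digit_single hg (show j - 1 ≠ j by omega)] at e2
      have := two_le_quot hg (j - 1)
      omega
    · rw [show j + 1 = v by omega]; exact hv
  have h0 : 0 ∈ W i := (hUV 0).resolve_right (fun h => absurd (hexc 0 h).1 (by norm_num))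
  have hpar : ∀ j, (j % 2 = 1 → j ∈ W k) ∧ (j % 2 = 0 → j ∈ W i) := by
    intro j
    induction j with
    | zero => exact ⟨fun h => absurd h (by norm_num), fun _ => h0⟩
    | succ j ih =>
      constructor
      · intro h
        rcases Nat.eq_zero_or_pos j with hz | hz
        · subst hz
          by_contra hc
          have h1 : 1 ∈ W i := (hUV 1).resolve_right hc
          have := (key 1 h1 le_rfl).1
          exact absurd (hexc _ this).1 (by norm_num)
        · exact (key j (ih.2 (by omega)) hz).2.1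
      · intro h
        by_contra hc
        have h1 := (hUV (j + 1)).resolve_left hc
        have h2 := (hexc _ h1).2.1
        rw [Nat.add_sub_cancel] at h2
        exact h2 (ih.1 (by omega))
  have hodd : W k = Odds := by
    ext j
    constructor
    · intro hj
      by_contra hc
      have hc : ¬ j % 2 = 1 := hc
      exact hdis j ((hpar j).2 (by omega)) hj
    · intro hj
      exact (hpar j).1 hj
  have hdbl : ∀ j, 1 ≤ j → g (j + 1) = 2 * g j := by
    intro j hj
    rcases Nat.mod_two_eq_zero_or_one j with h | h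
    · exact (key j ((hpar j).2 h) hj).2.2
    · exact (hexc j ((hpar j).1 h)).2.2
  have hgen : ∀ j, g (j + 1) = g 1 * 2 ^ j := by
    intro j
    induction j with
    | zero => simp
    | succ j ih => rw [hdbl (j + 1) (by omega), ih, pow_succ]; ring
  have hg1 : 2 ≤ g 1 := by have := two_le hg 0; rw [hg.1] at this; omega
  have hg1' : g 1 ≤ 3 := by
    by_contra hc
    have h4 : 4 ≤ g 1 := by omega
    have h2s : Supp g (W i) 2 := by
      have := (supp_add hg (x := 0) (gpos hg 0) (supp_zero (W i)) h0 (c := 2) (by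
        rw [hg.1, Nat.div_one]; simp only [zero_add]; omega)).1
      rw [hg.1] at this
      exact this
    have h2m : 2 ∈ AG g (W i) := (mem_AG_iff hg _ _).2 ⟨by norm_num, h2s⟩
    have h2f : Free g (W i) (W k) 2 := by
      intro v hv
      obtain ⟨v0, v1, v2⟩ := hexc v hv
      refine ⟨v2, v - 1, by omega, fun t h1 h2 => ?_, ?_⟩
      · have : t = v - 1 := by omega
        rw [this]; exact (hUV _).resolve_right v1
      · rcases Nat.eq_zero_or_pos (v - 1) with hz | hz
        · rw [hz, hg.1, Nat.div_one, Nat.div_one, zero_add, Nat.mod_eq_of_lt (by omega)]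
          omega
        · have h5 : g 1 ≤ g (v - 1) := hg.2.1.monotone hz
          rw [Nat.div_eq_of_lt (show 2 < g (v - 1) by omega), Nat.zero_mod]
          have := two_le_quot hg (v - 1)
          omega
    exact absurd (hR 2 h2m h2f) (by norm_num)
  refine ⟨hodd, ?_⟩
  rcases (show g 1 = 2 ∨ g 1 = 3 by omega) with h | h
  · left
    intro j
    rcases j with _ | j
    · rw [hg.1]; norm_num
    · rw [hgen, h, pow_succ]; ring
  · right
    intro j
    rw [hgen, h]

lemma free_odds {U V : Set ℕ} (hdis : ∀ j, j ∈ U → j ∉ V) (hV : V = Odds)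
    (hdbl : ∀ j, 1 ≤ j → g (j + 1) = 2 * g j) {b : ℕ} (hb : Supp g U b) (hf : Free g U V b) :
    b = b % g 1 ∧ b % g 1 < g 1 - 1 := by
  have hstep : ∀ t, 1 ≤ t → b % g (t + 1) = b % g t := by
    intro t ht
    rcases Nat.mod_two_eq_zero_or_one t with h | h
    · have hv : t + 1 ∈ V := by rw [hV]; change (t + 1) % 2 = 1; omega
      obtain ⟨-, j', h1, h2, h3⟩ := hf (t + 1) hv
      have hj' : j' = t := by
        by_contra hc
        have h4 := h2 (t - 1) (by omega) (by omega)
        apply hdis _ h4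
        rw [hV]; change (t - 1) % 2 = 1; omega
      subst hj'
      have hd : g (j' + 1) / g j' = 2 := by
        rw [hdbl j' ht]; exact Nat.mul_div_cancel _ (gpos hg j')
      rw [mod_succ hg]
      have h5 : b / g j' % (g (j' + 1) / g j') = 0 := by
        rw [hd] at h3 ⊢
        omega
      rw [h5, mul_zero, add_zero]
    · have hv : t ∈ V := by rw [hV]; exact h
      exact hb t (fun hU => hdis t hU hv)
  have hall : ∀ t, b % g (t + 1) = b % g 1 := by
    intro t
    induction t with
    | zero => rfl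
    | succ t ih => rw [hstep (t + 1) (by omega), ih]
  refine ⟨?_, ?_⟩
  · rw [← hall b, eq_mod hg b (by omega)]
  · have hv : 1 ∈ V := by rw [hV]; change 1 % 2 = 1; norm_num
    obtain ⟨-, j', h1, h2, h3⟩ := hf 1 hv
    have hj' : j' = 0 := by omega
    subst hj'
    rw [hg.1, Nat.div_one, Nat.div_one] at h3
    exact h3

lemma not_pair {W : Fin 2 → Set ℕ} (hW : IsPartition W) {i k : Fin 2} (hik : k ≠ i)
    (hodd : W k = Odds) (hg3 : ∀ j, g (j + 1) = 3 * 2 ^ j) :
    ¬ AsympBasis 2 (AA g W \ {0, 1}) := by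
  have hev : ∀ j, j % 2 = 0 → j ∈ W i := by
    intro j hj
    obtain ⟨k', hk'⟩ := part_ex hW j
    by_cases h : k' = i
    · exact h ▸ hk'
    · have h1 : j ∈ W k := (fin2_eq hik h) ▸ hk'
      rw [hodd] at h1
      have h1 : j % 2 = 1 := h1
      omega
  rintro ⟨N, hN⟩
  obtain ⟨f, hf, hsum⟩ := hN (1 + g (2 * N + 1 + 1)) (by
    have := glt hg (2 * N + 1 + 1); omega)
  rw [Fin.sum_univ_two] at hsum
  have hx := hf 0
  have hy := hf 1
  generalize f 0 = x at hx hsum
  generalize f 1 = y at hy hsum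
  obtain ⟨hxA, hx01⟩ := hx
  obtain ⟨hyA, hy01⟩ := hy
  have hx0 : x ≠ 0 := fun h => hx01 (Or.inl h)
  have hx1 : x ≠ 1 := fun h => hx01 (Or.inr h)
  have hy0 : y ≠ 0 := fun h => hy01 (Or.inl h)
  have hy1 : y ≠ 1 := fun h => hy01 (Or.inr h)
  have hxU : x ∈ AU g W := by
    rcases hxA with h | h
    · exact absurd h hx0
    · exact h
  have hyU : y ∈ AU g W := by
    rcases hyA with h | h
    · exact absurd h hy0
    · exact h
  obtain ⟨s1, hs1⟩ := Set.mem_iUnion.1 hxU
  obtain ⟨s2, hs2⟩ := Set.mem_iUnion.1 hyU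
  obtain ⟨-, w1⟩ := (mem_AG_iff hg _ _).1 hs1
  obtain ⟨-, w2⟩ := (mem_AG_iff hg _ _).1 hs2
  have hpk : 2 * N + 1 ∈ W k := by rw [hodd]; change (2 * N + 1) % 2 = 1; omega
  have hgp : g (2 * N + 1 + 1) = 2 * g (2 * N + 1) := by
    rw [hg3, hg3, pow_succ]; ring
  have hgj3 : g (2 * N + 1 + 1) % 3 = 0 := by rw [hg3]; simp [Nat.mul_mod_right]
  have hg1 : g 1 = 3 := by have := hg3 0; simpa using this
  have hgj := glt hg (2 * N + 1 + 1)
  have hns : Supp g (W i) (1 + g (2 * N + 1 + 1)) := by
    have h1 : Supp g (W i) 1 := by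
      have := ((mem_AG_iff hg _ _).1 (single_mem hg 0 (hev 0 rfl))).2
      rwa [hg.1] at this
    have h2 := (supp_add hg (show 1 < g (2 * N + 1 + 1) by omega) h1 (hev _ (by omega)) (c := 1)
      (by have := two_le_quot hg (2 * N + 1 + 1); omega)).1
    rwa [mul_one] at h2
  have uniq : ∀ x' y', Supp g (W i) x' → Supp g (W k) y' → 1 + g (2 * N + 1 + 1) = x' + y' →
      y' = 0 := by
    intro x' y' h1 h2 h3
    have := fam_uniq hg hW (fun s => if s = i then 1 + g (2 * N + 1 + 1) else 0)
      (fun s => if s = i then x' else y') (by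
        intro s
        split_ifs with hs
        · rw [hs]; exact hns
        · exact supp_zero _) (by
        intro s
        split_ifs with hs
        · rw [hs]; exact h1
        · rw [fin2_eq hik hs]; exact h2) (by
        rw [sum_two hik, sum_two hik]
        simp only [if_true, if_neg hik]
        omega) k
    simp only [if_neg hik] at this
    exact this.symm
  by_cases e1 : s1 = i
  · rw [e1] at w1
    by_cases e2 : s2 = i
    · rw [e2] at w2
      have hpi : 2 * N + 1 ∉ W i := fun h => part_not hW h hik hpk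
      have m1 := w1 _ hpi
      have m2 := w2 _ hpi
      have l1 := Nat.mod_lt x (gpos hg (2 * N + 1))
      have l2 := Nat.mod_lt y (gpos hg (2 * N + 1))
      have hm : (x % g (2 * N + 1 + 1) + y % g (2 * N + 1 + 1)) % g (2 * N + 1 + 1) = 1 := by
        rw [← Nat.add_mod, ← hsum, Nat.add_mod_right, Nat.mod_eq_of_lt (by omega)]
      rw [Nat.mod_eq_of_lt (by omega)] at hm
      have d1 := Nat.mod_add_div x (g (2 * N + 1 + 1))
      have d2 := Nat.mod_add_div y (g (2 * N + 1 + 1))
      generalize x % g (2 * N + 1 + 1) = rx at *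
      generalize y % g (2 * N + 1 + 1) = ry at *
      generalize x / g (2 * N + 1 + 1) = qx at *
      generalize y / g (2 * N + 1 + 1) = qy at *
      have hq : g (2 * N + 1 + 1) * (qx + qy) = g (2 * N + 1 + 1) * 1 := by
        rw [mul_add]; omega
      have hq' : qx + qy = 1 := Nat.eq_of_mul_eq_mul_left (by omega) hq
      rcases (show qx = 0 ∨ qy = 0 by omega) with h | h
      · rw [h, mul_zero, add_zero] at d1
        omega
      · rw [h, mul_zero, add_zero] at d2
        omega
    · rw [fin2_eq hik e2] at w2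
      exact hy0 (uniq x y w1 w2 hsum)
  · rw [fin2_eq hik e1] at w1
    by_cases e2 : s2 = i
    · rw [e2] at w2
      exact hx0 (uniq y x w2 w1 (by omega))
    · rw [fin2_eq hik e2] at w2
      have h0k : 0 ∉ W k := by rw [hodd]; intro h; have h : 0 % 2 = 1 := h; omega
      have m1 := w1 0 h0k
      have m2 := w2 0 h0k
      rw [zero_add, hg1, hg.1, Nat.mod_one] at m1 m2
      omega

end
end Pool.Agent.H116.GA
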