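import Pool.Agent.H116.GAdic7

namespace Pool.Agent.H116.GA

open Finset

section
variable {g : ℕ → ℕ} (hg : IsGAdic g)
include hg

/-- `carry` without the assumption that the two sets cover all positions -/
lemma carry_gen {U V : Set ℕ} (hdis : ∀ j, j ∈ U → j ∉ V) {a u : ℕ}
    (ha : Supp g U a) (hu : Supp g V u) (hfree : Free g U V a) (j : ℕ) :
    (∃ x y, Supp g U x ∧ Supp g U y ∧ x < g j ∧ y < g j ∧ x + y = a % g j + u % g j) ∧
    ((∃ j' < j, (∀ t, j' ≤ t → t < j → t ∈ U) ∧
      a / g j' % (g (j' + 1) / g j') < g (j' + 1) / g j' - 1) →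
      ∃ x y, Supp g U x ∧ Supp g U y ∧ x < g j ∧ y < g j ∧
        x + y = a % g j + u % g j + g j) := by
  induction j with
  | zero =>
    refine ⟨⟨0, 0, supp_zero _, supp_zero _, by rw [hg.1]; omega, by rw [hg.1]; omega,
      by rw [hg.1]; simp [Nat.mod_one]⟩, ?_⟩
    rintro ⟨j', h, _⟩; omega
  | succ j ih =>
    obtain ⟨ihA, ihB⟩ := ih
    have hdpos : 2 ≤ g (j + 1) / g j := (Nat.le_div_iff_mul_le (gpos hg j)).2 (two_le hg j)
    have hα : a / g j % (g (j + 1) / g j) < g (j + 1) / g j := Nat.mod_lt _ (by omega)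
    have hmono : g j ≤ g (j + 1) := hg.2.1.monotone (by omega)
    constructor
    · by_cases hj : j ∈ U
      · obtain ⟨x, y, hx, hy, hxl, hyl, hxy⟩ := ihA
        obtain ⟨h1, h2⟩ := supp_add hg hxl hx hj (c := a / g j % (g (j + 1) / g j)) (by omega)
        refine ⟨_, y, h1, hy, h2, by omega, ?_⟩
        rw [mod_succ hg a j, hu j (hdis j hj)]
        omega
      · by_cases hjV : j ∈ V
        · obtain ⟨h2, hex⟩ := hfree j hjV
          have haj : a % g (j + 1) = a % g j := ha j hj
          have hd2 : g (j + 1) / g j = 2 := by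
            rw [h2]; exact Nat.mul_div_cancel _ (gpos hg j)
          have hδ : u / g j % (g (j + 1) / g j) < 2 := by rw [← hd2]; exact Nat.mod_lt _ (by omega)
          have huj := mod_succ hg u j
          rcases Nat.lt_or_ge (u / g j % (g (j + 1) / g j)) 1 with hd | hd
          · have h0 : u / g j % (g (j + 1) / g j) = 0 := by omega
            rw [h0, mul_zero, add_zero] at huj
            obtain ⟨x, y, hx, hy, hxl, hyl, hxy⟩ := ihA
            exact ⟨x, y, hx, hy, by omega, by omega, by omega⟩
          · have h1 : u / g j % (g (j + 1) / g j) = 1 := by omega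
            rw [h1, mul_one] at huj
            obtain ⟨x, y, hx, hy, hxl, hyl, hxy⟩ := ihB hex
            exact ⟨x, y, hx, hy, by omega, by omega, by omega⟩
        · obtain ⟨x, y, hx, hy, hxl, hyl, hxy⟩ := ihA
          rw [ha j hj, hu j hjV]
          exact ⟨x, y, hx, hy, by omega, by omega, hxy⟩
    · rintro ⟨j', hj', hrun, hdig⟩
      have hj : j ∈ U := hrun j (by omega) (by omega)
      have hfull : g j * (g (j + 1) / g j - 1) + g j = g (j + 1) := by
        rw [gsub hg]; omega
      rcases Nat.lt_or_ge j' j with h | h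
      · obtain ⟨x, y, hx, hy, hxl, hyl, hxy⟩ :=
          ihB ⟨j', h, fun t h1 h2 => hrun t h1 (by omega), hdig⟩
        obtain ⟨h1, h2⟩ := supp_add hg hxl hx hj (c := a / g j % (g (j + 1) / g j)) (by omega)
        obtain ⟨h3, h4⟩ := supp_add hg hyl hy hj (c := g (j + 1) / g j - 1) le_rfl
        refine ⟨_, _, h1, h3, h2, h4, ?_⟩
        rw [mod_succ hg a j, hu j (hdis j hj)]
        omega
      · have hjj : j' = j := by omega
        subst hjj
        obtain ⟨x, y, hx, hy, hxl, hyl, hxy⟩ := ihA
        obtain ⟨h1, h2⟩ := supp_add hg hxl hx hj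
          (c := a / g j' % (g (j' + 1) / g j') + 1) (by omega)
        obtain ⟨h3, h4⟩ := supp_add hg hyl hy hj (c := g (j' + 1) / g j' - 1) le_rfl
        refine ⟨_, _, h1, h3, h2, h4, ?_⟩
        rw [mod_succ hg a j', hu j' (hdis j' hj), mul_add, mul_one]
        omega

/-- free elements `a ≥ 2` are removable, for every order `h` -/
theorem free_removable_gen {h : ℕ} {W : Fin h → Set ℕ} (hW : IsPartition W) {i k : Fin h}
    (hik : k ≠ i) {a : ℕ} (ha : a ∈ AG g (W i)) (ha2 : 2 ≤ a)
    (hfree : Free g (W i) (W k) a) : AsympBasis h (AA g W \ {a}) := by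
  classical
  obtain ⟨ha0, has⟩ := (mem_AG_iff hg _ _).1 ha
  have hdis : ∀ j, j ∈ W i → j ∉ W k := fun j hj => part_not hW hj hik
  refine ⟨a + 1, fun n hn => ?_⟩
  obtain ⟨u, hu, hsum⟩ := decomp hg hW n
  have hother : ∀ s, s ≠ i → u s ≠ a := by
    intro s hs h
    exact ha0 (supp_two hg hW hs (h ▸ hu s) has)
  by_cases hui : u i = a
  · -- find `x + y = a + u k` with `x, y ∈ A \ {a}`
    obtain ⟨x, y, hx, hy, hxy⟩ : ∃ x y, x ∈ AA g W \ {a} ∧ y ∈ AA g W \ {a} ∧
        x + y = u i + u k := by
      by_cases huk : u k = 0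
      · obtain ⟨b, c, hb, hc, hbc⟩ := split hg hW (Set.mem_iUnion.2 ⟨i, ha⟩) ha2
        have hb0 : b ≠ 0 := fun h => zero_notMem_AU hg (W := W) (h ▸ hb)
        have hc0 : c ≠ 0 := fun h => zero_notMem_AU hg (W := W) (h ▸ hc)
        refine ⟨b, c, ⟨Or.inr hb, fun h => ?_⟩, ⟨Or.inr hc, fun h => ?_⟩, by omega⟩
        · have h : b = a := h
          omega
        · have h : c = a := h
          omega
      · obtain ⟨⟨x, y, hx, hy, -, -, hxy⟩, -⟩ := carry_gen hg hdis has (hu k) hfree (a + u k)
        rw [eq_mod hg a (by omega), eq_mod hg (u k) (by omega)] at hxy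
        refine ⟨x, y, ⟨mem_AA_of_supp hg hx, fun h => ?_⟩, ⟨mem_AA_of_supp hg hy, fun h => ?_⟩,
          by omega⟩
        · have h : x = a := h
          have hyu : y = u k := by omega
          exact huk (supp_two hg hW hik (hu k) (hyu ▸ hy))
        · have h : y = a := h
          have hxu : x = u k := by omega
          exact huk (supp_two hg hW hik (hu k) (hxu ▸ hx))
    refine ⟨fun s => if s = i then x else if s = k then y else u s, ?_, ?_⟩
    · intro s
      dsimp only
      split_ifs with h1 h2
      · exact hx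
      · exact hy
      · exact ⟨mem_AA_of_supp hg (hu s), hother s h1⟩
    · have hki : k ∈ univ.erase i := mem_erase.2 ⟨hik, mem_univ _⟩
      rw [← hsum, ← Finset.add_sum_erase univ u (mem_univ i),
        ← Finset.add_sum_erase _ u hki,
        ← Finset.add_sum_erase univ (fun s => if s = i then x else if s = k then y else u s)
          (mem_univ i), ← Finset.add_sum_erase _ _ hki]
      have : ∑ s ∈ (univ.erase i).erase k, (if s = i then x else if s = k then y else u s) =
          ∑ s ∈ (univ.erase i).erase k, u s := by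
        apply sum_congr rfl
        intro s hs
        have h1 := ne_of_mem_erase hs
        have h2 := ne_of_mem_erase (mem_of_mem_erase hs)
        rw [if_neg h2, if_neg h1]
      rw [this]
      simp only [if_true, if_neg hik]
      omega
  · refine ⟨u, fun s => ⟨mem_AA_of_supp hg (hu s), fun h => ?_⟩, hsum.symm⟩
    have h : u s = a := h
    by_cases hs : s = i
    · exact hui (hs ▸ h)
    · exact hother s hs h

end
end Pool.Agent.H116.GA
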