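import Pool.Agent.H116.GAdic7

namespace Pool.Agent.H116.GA

open Finset

section
variable {g : ℕ → ℕ} (hg : IsGAdic g)
include hg

/-- if `W i` is the only infinite part and `a` in another part is removable, then some second
element can be removed as well -/
theorem pair_of_removable {h : ℕ} {W : Fin h → Set ℕ} (hW : IsPartition W) {i : Fin h}
    (hfin : ∀ k, k ≠ i → (W k).Finite) {k : Fin h} (hk : k ≠ i) {a : ℕ} (ha : a ∈ AG g (W k))
    (hA : AsympBasis h (AA g W \ {a})) :
    ∃ b ∈ AA g W, b ≠ a ∧ AsympBasis h (AA g W \ {a, b}) := by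
  classical
  have hB : ∀ k, ∃ B, k ≠ i → (∀ y, Supp g (W k) y → y < B) ∧ ∀ j ∈ W k, j < B := by
    intro k
    by_cases hk : k = i
    · exact ⟨0, fun h => absurd hk h⟩
    · obtain ⟨B, hB⟩ := finite_bound hg (hfin k hk)
      obtain ⟨b, hb⟩ := (hfin k hk).bddAbove
      exact ⟨B + b + 1, fun _ => ⟨fun y hy => by have := hB y hy; omega,
        fun j hj => by have := hb hj; omega⟩⟩
  choose B hB using hB
  set L := ∑ k, B k with hLdef
  have hBL : ∀ k, B k ≤ L := fun k => single_le_sum (f := B) (fun _ _ => Nat.zero_le _) (mem_univ k)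
  have hL : ∀ j, L ≤ j → j ∈ W i := by
    intro j hj
    obtain ⟨k, hk⟩ := part_ex hW j
    by_cases hki : k = i
    · exact hki ▸ hk
    · have := (hB k hki).2 j hk
      have := hBL k
      omega
  have hL0 := hL L le_rfl
  have hL1 := hL (L + 1) (by omega)
  have hbm : g L ∈ AG g (W i) := single_mem hg _ hL0
  have hgL := gpos hg L
  have hgL1 := gpos hg (L + 1)
  have hb's : Supp g (W i) (g L + g (L + 1) * 1) :=
    (supp_add hg (show g L < g (L + 1) from hg.2.1 (Nat.lt_succ_self L)) ((mem_AG_iff hg _ _).1 hbm).2 hL1 (c := 1)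
      (by have := two_le_quot hg (L + 1); omega)).1
  have hne : ∀ y, y ≠ 0 → Supp g (W i) y → y ≠ a := by
    intro y h0 hs h
    exact h0 (supp_two hg hW hk.symm hs (h ▸ ((mem_AG_iff hg _ _).1 ha).2))
  have hmk : ∀ z, z ≠ 0 → Supp g (W i) z → z ∈ AA g W :=
    fun z _ h2 => mem_AA_of_supp hg h2
  obtain ⟨N, hN⟩ := hA
  set X := L + g L + 1 + h * g (L + 1) with hX
  refine ⟨g L, Or.inr (Set.mem_iUnion.2 ⟨i, hbm⟩),
    hne _ (by omega) ((mem_AG_iff hg _ _).1 hbm).2, N + (h * X + h), fun n hn => ?_⟩
  obtain ⟨y, hy, hsum⟩ := hN n (by omega)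
  obtain ⟨t, ht⟩ : ∃ t, X < y t := by
    by_contra hc
    push Not at hc
    have h1 : ∑ s, y s ≤ ∑ _s : Fin h, X := sum_le_sum (fun s _ => hc s)
    rw [sum_const, card_univ, Fintype.card_fin, smul_eq_mul] at h1
    have hh : 0 < h := i.pos
    omega
  have hyt : Supp g (W i) (y t) := by
    rcases (hy t).1 with h0 | hU
    · have h0 : y t = 0 := h0
      omega
    · obtain ⟨s, hs⟩ := Set.mem_iUnion.1 hU
      by_cases hsi : s = i
      · exact hsi ▸ ((mem_AG_iff hg _ _).1 hs).2
      · have := (hB s hsi).1 _ ((mem_AG_iff hg _ _).1 hs).2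
        have := hBL s
        omega
  set Z : Finset (Fin h) := (univ.erase t).filter (fun s => y s = g L) with hZ
  have hZc : Z.card ≤ h := by
    have := card_le_univ Z
    simpa using this
  have hZg : Z.card * g (L + 1) ≤ h * g (L + 1) := Nat.mul_le_mul_right _ hZc
  have hsi : Supp g (W i) (y t - Z.card * g (L + 1)) := by
    intro j hj
    have hjL : j < L := by
      by_contra hc
      exact hj (hL j (by omega))
    have e : ∀ m, m ≤ L → (y t - Z.card * g (L + 1)) % g m = y t % g m := by
      intro m hm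
      obtain ⟨q, hq⟩ := gdvd hg (show m ≤ L + 1 by omega)
      have h1 : y t = (y t - Z.card * g (L + 1)) + g m * (q * Z.card) := by
        have : Z.card * g (L + 1) = g m * (q * Z.card) := by rw [hq]; ring
        omega
      conv_rhs => rw [h1]
      rw [Nat.add_mul_mod_self_left]
    rw [e (j + 1) (by omega), e j (by omega), hyt j hj]
  refine ⟨fun s => if s = t then y t - Z.card * g (L + 1) else
    if y s = g L then g L + g (L + 1) * 1 else y s, ?_, ?_⟩
  · intro s
    dsimp only
    split_ifs with h1 h2
    · refine ⟨hmk _ (by omega) hsi, ?_⟩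
      rintro (h3 | h3)
      · exact hne _ (by omega) hsi h3
      · have h3 : y t - Z.card * g (L + 1) = g L := h3
        omega
    · refine ⟨hmk _ (by omega) hb's, ?_⟩
      rintro (h3 | h3)
      · exact hne _ (by omega) hb's h3
      · have h3 : g L + g (L + 1) * 1 = g L := h3
        omega
    · refine ⟨(hy s).1, ?_⟩
      rintro (h3 | h3)
      · exact (hy s).2 h3
      · exact h2 h3
  · rw [← Finset.add_sum_erase univ _ (mem_univ t), if_pos rfl]
    have h1 : ∑ s ∈ univ.erase t, (if s = t then y t - Z.card * g (L + 1) else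
        if y s = g L then g L + g (L + 1) * 1 else y s) =
        ∑ s ∈ univ.erase t, (y s + if y s = g L then g (L + 1) else 0) := by
      apply sum_congr rfl
      intro s hs
      rw [if_neg (ne_of_mem_erase hs)]
      split_ifs with h2
      · omega
      · omega
    rw [h1, sum_add_distrib, ← sum_filter, sum_const, smul_eq_mul, ← hZ]
    rw [← Finset.add_sum_erase univ _ (mem_univ t)] at hsum
    omega

/-- if at most one part is infinite then `S = ∅`, for every order -/
theorem S_empty_one_infinite {h : ℕ} {W : Fin h → Set ℕ} (hW : IsPartition W) {i : Fin h}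
    (hfin : ∀ k, k ≠ i → (W k).Finite) :
    {a | a ∈ AA g W ∧ MinimalAsympBasis h (AA g W \ {a})} = ∅ := by
  ext a
  simp only [Set.mem_setOf_eq, Set.mem_empty_iff_false, iff_false, not_and]
  intro haA hmin
  have hinf : (W i).Infinite := by
    intro hWi
    have hall : ∀ k, (W k).Finite := by
      intro k
      by_cases hk : k = i
      · exact hk ▸ hWi
      · exact hfin k hk
    have : (⋃ k, W k).Finite := Set.finite_iUnion hall
    rw [hW.2.2] at this
    exact Set.infinite_univ this
  rcases haA with ha0 | haU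
  · have ha0 : a = 0 := ha0
    rw [ha0, AA_diff_zero hg] at hmin
    obtain ⟨a', ha', hb⟩ := AU_not_minimal hg hW hfin
    refine hmin.2 (AU g W \ {a'}) ?_ hb
    refine ⟨Set.diff_subset, fun hsub => ?_⟩
    exact (hsub ha').2 rfl
  · have hall := (minimal_iff hmin.1).1 hmin
    obtain ⟨k, hk⟩ := Set.mem_iUnion.1 haU
    by_cases hki : k = i
    · subst hki
      obtain ⟨t, htW, ht⟩ := hinf.exists_gt a
      have h1 := single_mem hg t htW
      have h2 := glt hg t
      have h3 := asymp_of_finite hg hW hfin {a, g t} (by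
        intro b hb
        rw [Finset.mem_insert, Finset.mem_singleton] at hb
        rcases hb with hb | hb
        · rw [hb]; exact hk
        · rw [hb]; exact h1)
      refine hall (g t) (Or.inr (Set.mem_iUnion.2 ⟨k, h1⟩)) (by omega) ?_
      simpa using h3
    · obtain ⟨b, hb, hba, hab⟩ := pair_of_removable hg hW hfin hki hk hmin.1
      exact hall b hb hba hab

end
end Pool.Agent.H116.GA
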