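import Mathlib

/-!
# Maximal boundary independent and hearing independent broadcasts (helper file)

Definitions and the merging lemma: a covering function in which every broadcasting vertex `v` has a
partner `u` with `d(u,v) ≤ f(u) + f(v)` has cost at least `i_bn(G)`.
-/

namespace Pool.Agent.H116.Ibn

open SimpleGraph Finset

section defs

variable {V : Type} [Fintype V] (G : SimpleGraph V)

/-- Eccentricity. -/
noncomputable def ecc (v : V) : ℕ := univ.sup (fun u => G.dist v u)

/-- Diameter. -/
noncomputable def diameter : ℕ := univ.sup (fun v => ecc G v)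

/-- Broadcasts: `f v ∈ {0, …, diam}` and `f v ≤ e(v)` when there are at least two vertices, and
`f v = 1` when there is only one. -/
def IsBroadcast (f : V → ℕ) : Prop :=
  (Nontrivial V → ∀ v, f v ≤ diameter G ∧ f v ≤ ecc G v) ∧ (Subsingleton V → ∀ v, f v = 1)

/-- The cost of a broadcast. -/
def cost (f : V → ℕ) : ℕ := ∑ v, f v

/-- `u` hears `f` from `v`. -/
def Hears (f : V → ℕ) (u v : V) : Prop := 0 < f v ∧ G.dist u v ≤ f v

/-- Boundary independence: every vertex `x` that hears `f` from two or more vertices satisfies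
`d(x,u) ≥ f(u)` for all broadcasting vertices `u`. -/
def BnIndep (f : V → ℕ) : Prop :=
  ∀ x, (∃ u v, u ≠ v ∧ Hears G f x u ∧ Hears G f x v) → ∀ u, 0 < f u → f u ≤ G.dist x u

/-- Hearing independence: no broadcasting vertex hears `f` from another vertex. -/
def HIndep (f : V → ℕ) : Prop := ∀ u v, 0 < f u → u ≠ v → ¬ Hears G f u v

/-- Maximal bn-independent broadcasts. -/
def MaxBn (f : V → ℕ) : Prop :=
  IsBroadcast G f ∧ BnIndep G f ∧ ∀ g, IsBroadcast G g → f ≤ g → g ≠ f → ¬ BnIndep G g

/-- Maximal hearing independent broadcasts. -/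
def MaxH (f : V → ℕ) : Prop :=
  IsBroadcast G f ∧ HIndep G f ∧ ∀ g, IsBroadcast G g → f ≤ g → g ≠ f → ¬ HIndep G g

/-- The minimum cost of a maximal bn-independent broadcast. -/
noncomputable def ibn : ℕ := sInf {c | ∃ f : V → ℕ, MaxBn G f ∧ cost f = c}

/-- The minimum cost of a maximal hearing independent broadcast. -/
noncomputable def ih : ℕ := sInf {c | ∃ f : V → ℕ, MaxH G f ∧ cost f = c}

end defs

section basics

variable {V : Type} [Fintype V] {G : SimpleGraph V}

theorem dist_le_ecc (u v : V) : G.dist u v ≤ ecc G v := by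
  rw [G.dist_comm]
  exact Finset.le_sup (f := fun u => G.dist v u) (mem_univ u)

theorem ecc_le_diam (v : V) : ecc G v ≤ diameter G :=
  Finset.le_sup (f := fun v => ecc G v) (mem_univ v)

theorem ecc_pos [Nontrivial V] (hc : G.Connected) (v : V) : 0 < ecc G v := by
  obtain ⟨u, hu⟩ := exists_ne v
  have h1 := dist_le_ecc (G := G) u v
  have h2 := hc.pos_dist_of_ne hu
  omega

theorem isBroadcast_iff [Nontrivial V] (f : V → ℕ) :
    IsBroadcast G f ↔ ∀ v, f v ≤ ecc G v := by
  constructor
  · intro h v
    exact (h.1 inferInstance v).2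
  · intro h
    refine ⟨fun _ v => ⟨le_trans (h v) (ecc_le_diam v), h v⟩, ?_⟩
    intro hs
    exact absurd hs (not_subsingleton V)

omit [Fintype V] in
theorem dist_one {u v : V} (h : G.Adj u v) : G.dist u v ≤ 1 := by
  have := G.dist_le h.toWalk
  simpa using this

omit [Fintype V] in
/-- Points on a geodesic. -/
theorem exists_between (hc : G.Connected) (u v : V) (a b : ℕ) (h : G.dist u v ≤ a + b) :
    ∃ x, G.dist u x ≤ a ∧ G.dist x v ≤ b := by
  obtain ⟨p, hp⟩ := hc.exists_walk_length_eq_dist u v
  by_cases ha : a ≤ p.length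
  · refine ⟨p.getVert a, ?_, ?_⟩
    · have h1 := G.dist_le (p.take a)
      rw [Walk.take_length] at h1
      omega
    · have h1 := G.dist_le (p.drop a)
      rw [Walk.drop_length] at h1
      omega
  · refine ⟨v, by omega, by simp⟩

omit [Fintype V] in
/-- In a bn-independent broadcast the balls do not overlap. -/
theorem bn_sep (hc : G.Connected) {f : V → ℕ} (hf : BnIndep G f) {u v : V} (hu : 0 < f u)
    (hv : 0 < f v) (huv : u ≠ v) : f u + f v ≤ G.dist u v := by
  by_contra hlt
  push Not at hlt
  obtain ⟨x, hx1, hx2⟩ := exists_between hc u v (f u) (f v - 1) (by omega)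
  have h := hf x ⟨u, v, huv, ⟨hu, by rw [G.dist_comm]; exact hx1⟩, ⟨hv, by omega⟩⟩ v hv
  omega

omit [Fintype V] in
/-- Conversely, pairwise separation gives bn-independence. -/
theorem bn_of_sep (hc : G.Connected) {f : V → ℕ}
    (h : ∀ u v, 0 < f u → 0 < f v → u ≠ v → f u + f v ≤ G.dist u v) : BnIndep G f := by
  rintro x ⟨u, v, huv, ⟨hu1, hu2⟩, ⟨hv1, hv2⟩⟩ w hw
  by_contra hlt
  push Not at hlt
  by_cases hwu : w = u
  · have h1 := h w v hw hv1 (by rw [hwu]; exact huv)
    have h2 := hc.dist_triangle (u := w) (v := x) (w := v)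
    rw [G.dist_comm (u := w) (v := x)] at h2
    omega
  · have h1 := h w u hw hu1 hwu
    have h2 := hc.dist_triangle (u := w) (v := x) (w := u)
    rw [G.dist_comm (u := w) (v := x)] at h2
    omega

/-- Criterion for maximality. -/
theorem maxBn_of [Nontrivial V] (hc : G.Connected) {f : V → ℕ} (hb : IsBroadcast G f)
    (hsep : ∀ u v, 0 < f u → 0 < f v → u ≠ v → f u + f v ≤ G.dist u v)
    (hcov : ∀ x, ∃ v, 0 < f v ∧ G.dist x v ≤ f v)
    (htight : ∀ v, 0 < f v → f v = ecc G v ∨ ∃ u, 0 < f u ∧ u ≠ v ∧ G.dist u v ≤ f u + f v) :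
    MaxBn G f := by
  refine ⟨hb, bn_of_sep hc hsep, ?_⟩
  intro g hg hfg hne hgi
  obtain ⟨x, hx⟩ : ∃ x, g x ≠ f x := by
    by_contra hall
    push Not at hall
    exact hne (funext hall)
  have hlt : f x < g x := lt_of_le_of_ne (hfg x) (Ne.symm hx)
  rw [isBroadcast_iff] at hg
  by_cases hfx : 0 < f x
  · rcases htight x hfx with h | ⟨u, hu, hux, hd⟩
    · have := hg x
      omega
    · have h1 : f u ≤ g u := hfg u
      have h2 := bn_sep hc hgi (u := u) (v := x) (by omega) (by omega) hux
      omega
  · obtain ⟨v, hv, hd⟩ := hcov x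
    have hxv : x ≠ v := by rintro rfl; exact hfx hv
    have h1 : f v ≤ g v := hfg v
    have h2 := bn_sep hc hgi (u := x) (v := v) (by omega) (by omega) hxv
    omega

/-- A single broadcasting vertex of maximal strength. -/
theorem ibn_le_ecc [Nontrivial V] (hc : G.Connected) (c : V) : ibn G ≤ ecc G c := by
  classical
  let f : V → ℕ := fun v => if v = c then ecc G c else 0
  have hpos := ecc_pos hc c
  have hfc : ∀ v, 0 < f v → v = c := by
    intro v hv
    by_contra h
    simp [f, h] at hv
  have hmax : MaxBn G f := by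
    apply maxBn_of hc
    · rw [isBroadcast_iff]
      intro v
      by_cases h : v = c
      · subst h; simp [f]
      · simp [f, h]
    · intro u v hu hv huv
      exact absurd ((hfc u hu).trans (hfc v hv).symm) huv
    · intro x
      exact ⟨c, by simp [f, hpos], by simp only [f, if_true]; exact dist_le_ecc x c⟩
    · intro v hv
      left
      rw [hfc v hv]
      simp [f]
  have hcost : cost f = ecc G c := by simp [cost, f]
  rw [← hcost]
  exact Nat.sInf_le ⟨f, hmax, rfl⟩

end basics

section merging

variable {V : Type} [Fintype V] [DecidableEq V] (G : SimpleGraph V) (f : V → ℕ)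

/-- total strength of a cluster -/
def RR (A : Finset V) : ℕ := ∑ v ∈ A, f v

/-- `c` is a valid centre of the cluster `A`. -/
def Valid (A : Finset V) (c : V) : Prop := ∀ j ∈ A, G.dist c j + f j ≤ RR f A

/-- Good clusters. -/
def Good (A : Finset V) : Prop :=
  (∃ v, A = {v} ∧ 0 < f v) ∨
    ((∀ v ∈ A, 0 < f v) ∧ A.Nonempty ∧
      ∀ i ∈ A, ∃ c, Valid G f A c ∧ G.dist c i + f i + 1 ≤ RR f A)

theorem good_nonempty {A : Finset V} (h : Good G f A) : A.Nonempty := by
  rcases h with ⟨v, rfl, _⟩ | h
  · exact ⟨v, by simp⟩
  · exact h.2.1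

theorem good_pos {A : Finset V} (h : Good G f A) : ∀ v ∈ A, 0 < f v := by
  rcases h with ⟨v, rfl, hv⟩ | h
  · intro w hw
    rw [Finset.mem_singleton] at hw
    rw [hw]; exact hv
  · exact h.1

theorem good_valid {A : Finset V} (h : Good G f A) : ∃ c, Valid G f A c := by
  rcases h with ⟨v, rfl, _⟩ | ⟨_, ⟨i, hi⟩, h⟩
  · refine ⟨v, ?_⟩
    intro j hj
    rw [Finset.mem_singleton] at hj
    subst hj
    simp [RR]
  · obtain ⟨c, hc, _⟩ := h i hi
    exact ⟨c, hc⟩

/-- Merging two clusters. -/
theorem good_merge (hc : G.Connected) {A B : Finset V} (hA : Good G f A) (hB : Good G f B)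
    (hdisj : Disjoint A B) {a b : V} (ha : Valid G f A a) (hb : Valid G f B b)
    (hd : G.dist a b < RR f A + RR f B) : Good G f (A ∪ B) := by
  have hR : RR f (A ∪ B) = RR f A + RR f B := Finset.sum_union hdisj
  have hRA : 0 < RR f A := by
    obtain ⟨v, hv⟩ := good_nonempty G f hA
    have h1 := good_pos G f hA v hv
    have h2 : f v ≤ RR f A := Finset.single_le_sum (fun _ _ => Nat.zero_le _) hv
    omega
  have hRB : 0 < RR f B := by
    obtain ⟨v, hv⟩ := good_nonempty G f hB
    have h1 := good_pos G f hB v hv
    have h2 : f v ≤ RR f B := Finset.single_le_sum (fun _ _ => Nat.zero_le _) hv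
    omega
  right
  refine ⟨?_, ?_, ?_⟩
  · intro v hv
    rcases Finset.mem_union.1 hv with h | h
    · exact good_pos G f hA v h
    · exact good_pos G f hB v h
  · obtain ⟨v, hv⟩ := good_nonempty G f hA
    exact ⟨v, Finset.mem_union_left _ hv⟩
  · have key : ∀ x, G.dist a x ≤ RR f B → G.dist x b ≤ RR f A → Valid G f (A ∪ B) x := by
      intro x hx1 hx2 j hj
      rw [hR]
      rcases Finset.mem_union.1 hj with h | h
      · have h1 := ha j h
        have h2 := hc.dist_triangle (u := x) (v := a) (w := j)
        rw [G.dist_comm (u := x) (v := a)] at h2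
        omega
      · have h1 := hb j h
        have h2 := hc.dist_triangle (u := x) (v := b) (w := j)
        omega
    intro i hi
    rcases Finset.mem_union.1 hi with h | h
    · obtain ⟨x, hx1, hx2⟩ := exists_between hc a b (RR f B - 1) (RR f A) (by omega)
      refine ⟨x, key x (by omega) hx2, ?_⟩
      have h1 := ha i h
      have h2 := hc.dist_triangle (u := x) (v := a) (w := i)
      rw [G.dist_comm (u := x) (v := a)] at h2
      omega
    · obtain ⟨x, hx1, hx2⟩ := exists_between hc a b (RR f B) (RR f A - 1) (by omega)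
      refine ⟨x, key x hx1 (by omega), ?_⟩
      have h1 := hb i h
      have h2 := hc.dist_triangle (u := x) (v := b) (w := i)
      omega

/-- Configurations: partitions of the support into good clusters. -/
def Conf (S : Finset V) (P : Finset (Finset V)) : Prop :=
  (∀ A ∈ P, Good G f A) ∧ (∀ A ∈ P, ∀ B ∈ P, A ≠ B → Disjoint A B) ∧ P.biUnion id = S

theorem conf_exists (S : Finset V) (hS : ∀ v ∈ S, 0 < f v) : ∃ P, Conf G f S P := by
  refine ⟨S.image (fun v => {v}), ?_, ?_, ?_⟩
  · intro A hA
    obtain ⟨v, hv, rfl⟩ := Finset.mem_image.1 hA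
    exact Or.inl ⟨v, rfl, hS v hv⟩
  · intro A hA B hB hAB
    obtain ⟨v, _, rfl⟩ := Finset.mem_image.1 hA
    obtain ⟨w, _, rfl⟩ := Finset.mem_image.1 hB
    rw [Finset.disjoint_singleton]
    rintro rfl
    exact hAB rfl
  · ext x
    simp

theorem conf_merge (hc : G.Connected) {S : Finset V} {P : Finset (Finset V)} (hP : Conf G f S P)
    {A B : Finset V} (hA : A ∈ P) (hB : B ∈ P) (hAB : A ≠ B) {a b : V} (ha : Valid G f A a)
    (hb : Valid G f B b) (hd : G.dist a b < RR f A + RR f B) :
    ∃ P', Conf G f S P' ∧ P'.card < P.card := by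
  obtain ⟨h1, h2, h3⟩ := hP
  have hg := good_merge G f hc (h1 A hA) (h1 B hB) (h2 A hA B hB hAB) ha hb hd
  refine ⟨insert (A ∪ B) ((P.erase A).erase B), ⟨?_, ?_, ?_⟩, ?_⟩
  · intro C hC
    rcases Finset.mem_insert.1 hC with rfl | hC
    · exact hg
    · exact h1 C (Finset.mem_of_mem_erase (Finset.mem_of_mem_erase hC))
  · have key : ∀ C ∈ (P.erase A).erase B, Disjoint (A ∪ B) C := by
      intro C hC
      have hCB : C ≠ B := (Finset.mem_erase.1 hC).1
      have hCA : C ≠ A := (Finset.mem_erase.1 (Finset.mem_erase.1 hC).2).1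
      have hCP : C ∈ P := (Finset.mem_erase.1 (Finset.mem_erase.1 hC).2).2
      rw [Finset.disjoint_union_left]
      exact ⟨h2 A hA C hCP hCA.symm, h2 B hB C hCP hCB.symm⟩
    intro C hC C' hC' hne
    rcases Finset.mem_insert.1 hC with rfl | hC
    · rcases Finset.mem_insert.1 hC' with rfl | hC'
      · exact absurd rfl hne
      · exact key C' hC'
    · rcases Finset.mem_insert.1 hC' with rfl | hC'
      · exact (key C hC).symm
      · exact h2 C (Finset.mem_of_mem_erase (Finset.mem_of_mem_erase hC)) C'
          (Finset.mem_of_mem_erase (Finset.mem_of_mem_erase hC')) hne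
  · rw [← h3]
    ext x
    simp only [Finset.mem_biUnion, Finset.mem_insert, id]
    constructor
    · rintro ⟨C, rfl | hC, hx⟩
      · rcases Finset.mem_union.1 hx with h | h
        · exact ⟨A, hA, h⟩
        · exact ⟨B, hB, h⟩
      · exact ⟨C, Finset.mem_of_mem_erase (Finset.mem_of_mem_erase hC), hx⟩
    · rintro ⟨C, hC, hx⟩
      by_cases hCA : C = A
      · subst hCA
        exact ⟨C ∪ B, Or.inl rfl, Finset.mem_union_left _ hx⟩
      · by_cases hCB : C = B
        · subst hCB
          exact ⟨A ∪ C, Or.inl rfl, Finset.mem_union_right _ hx⟩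
        · exact ⟨C, Or.inr (Finset.mem_erase.2 ⟨hCB, Finset.mem_erase.2 ⟨hCA, hC⟩⟩), hx⟩
  · have e1 : ((P.erase A).erase B).card = P.card - 1 - 1 := by
      rw [Finset.card_erase_of_mem (Finset.mem_erase.2 ⟨hAB.symm, hB⟩),
        Finset.card_erase_of_mem hA]
    have e2 : 2 ≤ P.card := by
      have : ({A, B} : Finset (Finset V)) ⊆ P := by
        intro C hC
        simp only [Finset.mem_insert, Finset.mem_singleton] at hC
        rcases hC with rfl | rfl <;> assumption
      have := Finset.card_le_card this
      rwa [Finset.card_pair hAB] at this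
    have e3 := Finset.card_insert_le (A ∪ B) ((P.erase A).erase B)
    omega

/-- **Merging lemma.** -/
theorem merging [Nontrivial V] (hc : G.Connected)
    (hcov : ∀ x, ∃ v, 0 < f v ∧ G.dist x v ≤ f v)
    (hpar : ∀ v, 0 < f v → (∀ u, 0 < f u → u = v) ∨
      ∃ u, 0 < f u ∧ u ≠ v ∧ G.dist u v ≤ f u + f v) :
    ibn G ≤ cost f := by
  classical
  let S : Finset V := univ.filter (fun v => 0 < f v)
  have hS : ∀ v, v ∈ S ↔ 0 < f v := by intro v; simp [S]
  have hex : ∃ n, ∃ P, Conf G f S P ∧ P.card = n := by
    obtain ⟨P, hP⟩ := conf_exists G f S (fun v hv => (hS v).1 hv)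
    exact ⟨P.card, P, hP, rfl⟩
  obtain ⟨P, hP, hPn⟩ := Nat.find_spec hex
  have hmin : ∀ P', Conf G f S P' → P.card ≤ P'.card := by
    intro P' hP'
    rw [hPn]
    exact Nat.find_min' hex ⟨P', hP', rfl⟩
  obtain ⟨hgood, hdisj, hun⟩ := hP
  have hsep : ∀ A ∈ P, ∀ B ∈ P, A ≠ B → ∀ a b, Valid G f A a → Valid G f B b →
      RR f A + RR f B ≤ G.dist a b := by
    intro A hA B hB hAB a b ha hb
    by_contra hlt
    push Not at hlt
    obtain ⟨P', hP', hlt'⟩ := conf_merge G f hc ⟨hgood, hdisj, hun⟩ hA hB hAB ha hb hlt
    have := hmin P' hP'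
    omega
  -- the cluster of a support vertex
  have hcl : ∀ v, 0 < f v → ∃ A ∈ P, v ∈ A := by
    intro v hv
    have : v ∈ P.biUnion id := by rw [hun]; exact (hS v).2 hv
    obtain ⟨A, hA, hvA⟩ := Finset.mem_biUnion.1 this
    exact ⟨A, hA, hvA⟩
  have hRpos : ∀ A ∈ P, 0 < RR f A := by
    intro A hA
    obtain ⟨v, hv⟩ := good_nonempty G f (hgood A hA)
    have h1 := good_pos G f (hgood A hA) v hv
    have h2 : f v ≤ RR f A := Finset.single_le_sum (fun _ _ => Nat.zero_le _) hv
    omega
  have hcost : cost f = ∑ A ∈ P, RR f A := by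
    have h1 : cost f = ∑ v ∈ S, f v := by
      unfold cost
      rw [Finset.sum_filter]
      apply Finset.sum_congr rfl
      intro v _
      by_cases h : 0 < f v
      · rw [if_pos h]
      · rw [if_neg h]; omega
    have hdisj' : (↑P : Set (Finset V)).PairwiseDisjoint id :=
      fun A hA B hB hAB => hdisj A hA B hB hAB
    rw [h1, ← hun, Finset.sum_biUnion hdisj']
    rfl
  by_cases hone : ∃ A, P = {A}
  · -- a single cluster
    obtain ⟨A, hPA⟩ := hone
    have hA : A ∈ P := by rw [hPA]; simp
    obtain ⟨c, hcv⟩ := good_valid G f (hgood A hA)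
    have hR : RR f A = cost f := by rw [hcost, hPA]; simp
    have he : ecc G c ≤ cost f := by
      unfold ecc
      apply Finset.sup_le
      intro x _
      obtain ⟨v, hv, hd⟩ := hcov x
      obtain ⟨B, hB, hvB⟩ := hcl v hv
      rw [hPA, Finset.mem_singleton] at hB
      subst hB
      have h1 := hcv v hvB
      have h2 := hc.dist_triangle (u := c) (v := v) (w := x)
      rw [G.dist_comm (u := v) (v := x)] at h2
      omega
    exact le_trans (ibn_le_ecc hc c) he
  · -- at least two clusters
    have hother : ∀ A ∈ P, ∃ B ∈ P, B ≠ A := by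
      intro A hA
      by_contra hno
      push Not at hno
      exact hone ⟨A, by
        ext B
        rw [Finset.mem_singleton]
        exact ⟨fun hB => hno B hB, fun h => h ▸ hA⟩⟩
    -- choose centres
    have hchoose : ∀ A, ∃ c, A ∈ P → Valid G f A c ∧
        ∃ B ∈ P, B ≠ A ∧ ∀ b, Valid G f B b → G.dist c b ≤ RR f A + RR f B := by
      intro A
      by_cases hA : A ∈ P
      swap
      · obtain ⟨v0⟩ := hc.nonempty
        exact ⟨v0, fun h => absurd h hA⟩
      have hvalid_single : ∀ v b, Valid G f {v} b → b = v := by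
        intro v b hb
        have h1 := hb v (by simp)
        simp only [RR, Finset.sum_singleton] at h1
        exact (hc.dist_eq_zero_iff).1 (by omega)
      rcases hgood A hA with ⟨v, rfl, hv⟩ | ⟨hpos, hne, hcen⟩
      · -- singleton cluster
        refine ⟨v, fun _ => ⟨?_, ?_⟩⟩
        · intro j hj
          rw [Finset.mem_singleton] at hj
          subst hj
          simp [RR]
        · rcases hpar v hv with hall | ⟨u, hu, huv, hd⟩
          · exfalso
            obtain ⟨B, hB, hBA⟩ := hother {v} hA
            obtain ⟨w, hw⟩ := good_nonempty G f (hgood B hB)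
            have hwv := hall w (good_pos G f (hgood B hB) w hw)
            subst hwv
            have := hdisj B hB {w} hA hBA
            rw [Finset.disjoint_singleton_right] at this
            exact this hw
          · obtain ⟨B, hB, huB⟩ := hcl u hu
            have hBA : B ≠ {v} := by
              rintro rfl
              rw [Finset.mem_singleton] at huB
              exact huv huB
            refine ⟨B, hB, hBA, ?_⟩
            intro b hb
            rcases hgood B hB with ⟨w, rfl, hw⟩ | ⟨_, _, hcenB⟩
            · rw [Finset.mem_singleton] at huB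
              subst huB
              rw [hvalid_single u b hb, G.dist_comm]
              simp only [RR, Finset.sum_singleton]
              omega
            · exfalso
              obtain ⟨c, hc1, hc2⟩ := hcenB u huB
              have h1 := hsep B hB {v} hA hBA c v hc1 (by
                intro j hj
                rw [Finset.mem_singleton] at hj
                subst hj
                simp [RR])
              have h2 := hc.dist_triangle (u := c) (v := u) (w := v)
              simp only [RR, Finset.sum_singleton] at h1 hc2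
              omega
      · -- merged cluster: find an adjacent cluster
        have hadj : ∃ i ∈ A, ∃ j, 0 < f j ∧ j ∉ A ∧ G.dist i j ≤ f i + f j + 1 := by
          -- covered by A, or by the others
          let UA : Set V := {x | ∃ i ∈ A, G.dist x i ≤ f i}
          by_cases hall : ∀ x, x ∈ UA
          · obtain ⟨B, hB, hBA⟩ := hother A hA
            obtain ⟨j, hj⟩ := good_nonempty G f (hgood B hB)
            obtain ⟨i, hi, hd⟩ := hall j
            have hjA : j ∉ A := by
              intro h
              exact (Finset.disjoint_left.1 (hdisj B hB A hA hBA)) hj h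
            refine ⟨i, hi, j, good_pos G f (hgood B hB) j hj, hjA, ?_⟩
            rw [G.dist_comm]
            omega
          · push Not at hall
            obtain ⟨y, hy⟩ := hall
            obtain ⟨i0, hi0⟩ := hne
            obtain ⟨w⟩ := hc.preconnected i0 y
            have hwalk : ∀ {a b : V} (p : G.Walk a b), a ∈ UA → b ∉ UA →
                ∃ x z, G.Adj x z ∧ x ∈ UA ∧ z ∉ UA := by
              intro a b p
              induction p with
              | nil => intro h1 h2; exact absurd h1 h2
              | cons h q ih =>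
                rename_i p1 p2 p3
                intro h1 h2
                by_cases hm : p2 ∈ UA
                · exact ih hm h2
                · exact ⟨p1, p2, h, h1, hm⟩
            obtain ⟨x, z, hxz, hx, hz⟩ := hwalk w ⟨i0, hi0, by simp⟩ hy
            obtain ⟨i, hi, hd1⟩ := hx
            obtain ⟨j, hj, hd2⟩ := hcov z
            refine ⟨i, hi, j, hj, fun hjA => hz ⟨j, hjA, hd2⟩, ?_⟩
            have h1 := hc.dist_triangle (u := i) (v := x) (w := j)
            have h2 := hc.dist_triangle (u := x) (v := z) (w := j)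
            have h3 := dist_one hxz
            rw [G.dist_comm (u := i) (v := x)] at h1
            omega
        obtain ⟨i, hi, j, hj, hjA, hdij⟩ := hadj
        obtain ⟨c, hc1, hc2⟩ := hcen i hi
        refine ⟨c, fun _ => ⟨hc1, ?_⟩⟩
        obtain ⟨B, hB, hjB⟩ := hcl j hj
        have hBA : B ≠ A := by rintro rfl; exact hjA hjB
        refine ⟨B, hB, hBA, ?_⟩
        intro b hb
        rcases hgood B hB with ⟨w, rfl, hw⟩ | ⟨_, _, hcenB⟩
        · rw [Finset.mem_singleton] at hjB
          subst hjB
          rw [hvalid_single j b hb]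
          have h1 := hc.dist_triangle (u := c) (v := i) (w := j)
          have h2 : RR f {j} = f j := by simp [RR]
          omega
        · exfalso
          obtain ⟨c', hc1', hc2'⟩ := hcenB j hjB
          have h1 := hsep A hA B hB hBA.symm c c' hc1 hc1'
          have h2 := hc.dist_triangle (u := c) (v := i) (w := c')
          have h3 := hc.dist_triangle (u := i) (v := j) (w := c')
          rw [G.dist_comm (u := j) (v := c')] at h3
          omega
    choose ctr hctr using hchoose
    -- the new broadcast
    let g : V → ℕ := fun x => ∑ A ∈ P.filter (fun A => ctr A = x), RR f A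
    have hinj : ∀ A ∈ P, ∀ B ∈ P, ctr A = ctr B → A = B := by
      intro A hA B hB h
      by_contra hne
      have h1 := hsep A hA B hB hne (ctr A) (ctr B) (hctr A hA).1 (hctr B hB).1
      rw [h, SimpleGraph.dist_self] at h1
      have := hRpos A hA
      omega
    have hg_ctr : ∀ A ∈ P, g (ctr A) = RR f A := by
      intro A hA
      have : P.filter (fun B => ctr B = ctr A) = {A} := by
        ext B
        rw [Finset.mem_filter, Finset.mem_singleton]
        constructor
        · rintro ⟨hB, h⟩; exact hinj B hB A hA h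
        · rintro rfl; exact ⟨hA, rfl⟩
      simp only [g, this, Finset.sum_singleton]
    have hg_pos : ∀ x, 0 < g x → ∃ A ∈ P, ctr A = x := by
      intro x hx
      by_contra hno
      push Not at hno
      have : P.filter (fun A => ctr A = x) = ∅ := by
        ext B
        simp only [Finset.mem_filter, Finset.notMem_empty, iff_false, not_and]
        exact hno B
      simp [g, this] at hx
    have hgcost : cost g = cost f := by
      rw [hcost]
      unfold cost
      simp only [g]
      rw [← Finset.sum_fiberwise_of_maps_to (s := P) (t := univ) (g := ctr)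
        (fun _ _ => mem_univ _) (RR f)]
    have hmax : MaxBn G g := by
      have hsep' : ∀ u v, 0 < g u → 0 < g v → u ≠ v → g u + g v ≤ G.dist u v := by
        intro u v hu hv huv
        obtain ⟨A, hA, rfl⟩ := hg_pos u hu
        obtain ⟨B, hB, rfl⟩ := hg_pos v hv
        rw [hg_ctr A hA, hg_ctr B hB]
        exact hsep A hA B hB (by rintro rfl; exact huv rfl) _ _ (hctr A hA).1 (hctr B hB).1
      apply maxBn_of hc
      · rw [isBroadcast_iff]
        intro v
        by_cases hv : 0 < g v
        · obtain ⟨A, hA, rfl⟩ := hg_pos v hv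
          rw [hg_ctr A hA]
          obtain ⟨B, hB, hBA⟩ := hother A hA
          have h1 := hsep A hA B hB hBA.symm (ctr A) (ctr B) (hctr A hA).1 (hctr B hB).1
          have h2 := dist_le_ecc (G := G) (ctr B) (ctr A)
          rw [G.dist_comm] at h2
          omega
        · omega
      · exact hsep'
      · intro x
        obtain ⟨v, hv, hd⟩ := hcov x
        obtain ⟨A, hA, hvA⟩ := hcl v hv
        refine ⟨ctr A, by rw [hg_ctr A hA]; exact hRpos A hA, ?_⟩
        rw [hg_ctr A hA]
        have h1 := (hctr A hA).1 v hvA
        have h2 := hc.dist_triangle (u := x) (v := v) (w := ctr A)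
        rw [G.dist_comm (u := v) (v := ctr A)] at h2
        omega
      · intro v hv
        right
        obtain ⟨A, hA, rfl⟩ := hg_pos v hv
        obtain ⟨hval, B, hB, hBA, hb⟩ := hctr A hA
        refine ⟨ctr B, by rw [hg_ctr B hB]; exact hRpos B hB, ?_, ?_⟩
        · intro h
          exact hBA (hinj B hB A hA h)
        · rw [hg_ctr A hA, hg_ctr B hB, G.dist_comm, add_comm]
          exact hb (ctr B) (hctr B hB).1
    rw [← hgcost]
    exact Nat.sInf_le ⟨g, hmax, rfl⟩

end merging

end Pool.Agent.H116.Ibn
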