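import Mathlib

/-! Trees from parent functions (helper file). -/

namespace Pool.Agent.H116.ParentTree

open SimpleGraph

/-- The graph in which every vertex is joined to its parent. -/
def ofParent {V : Type} (par : V → V) : SimpleGraph V where
  Adj u v := u ≠ v ∧ (par u = v ∨ par v = u)
  symm := ⟨fun _ _ h => ⟨h.1.symm, h.2.symm⟩⟩
  loopless := ⟨fun _ h => h.1 rfl⟩

theorem ofParent_adj {V : Type} (par : V → V) (u v : V) :
    (ofParent par).Adj u v ↔ u ≠ v ∧ (par u = v ∨ par v = u) := Iff.rfl

theorem connected {V : Type} (par : V → V) (root : V) (rank : V → ℕ)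
    (h : ∀ v, v ≠ root → rank (par v) < rank v) : (ofParent par).Connected := by
  have key : ∀ n v, rank v = n → (ofParent par).Reachable v root := by
    intro n
    induction n using Nat.strong_induction_on with
    | _ n ih =>
    intro v hv
    by_cases hvr : v = root
    · subst hvr; exact Reachable.refl _
    · have hlt := h v hvr
      have h1 := ih (rank (par v)) (by omega) (par v) rfl
      have hne : v ≠ par v := by
        intro he
        rw [← he] at hlt
        omega
      have hadj : (ofParent par).Adj v (par v) := ⟨hne, Or.inl rfl⟩
      exact hadj.reachable.trans h1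
  have : Nonempty V := ⟨root⟩
  exact ⟨fun u v => (key _ u rfl).trans (key _ v rfl).symm⟩

theorem isTree {V : Type} [Finite V] (par : V → V) (root : V) (rank : V → ℕ)
    (h : ∀ v, v ≠ root → rank (par v) < rank v) (hroot : par root = root) :
    (ofParent par).IsTree := by
  classical
  have := Fintype.ofFinite V
  rw [isTree_iff_connected_and_card]
  refine ⟨connected par root rank h, ?_⟩
  have hne : ∀ v, v ≠ root → v ≠ par v := by
    intro v hv he
    have := h v hv
    rw [← he] at this
    omega
  let f : {v : V // v ≠ root} → (ofParent par).edgeSet := fun v =>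
    ⟨s(v.1, par v.1), by
      rw [mem_edgeSet]
      exact ⟨hne v.1 v.2, Or.inl rfl⟩⟩
  have hf : Function.Bijective f := by
    constructor
    · rintro ⟨u, hu⟩ ⟨v, hv⟩ huv
      have h1 : s(u, par u) = s(v, par v) := congrArg Subtype.val huv
      rw [Sym2.eq_iff] at h1
      rcases h1 with ⟨h1, _⟩ | ⟨h1, h2⟩
      · exact Subtype.ext h1
      · exfalso
        have a1 := h u hu
        have a2 := h v hv
        rw [h2] at a1
        rw [← h1] at a2
        omega
    · rintro ⟨e, he⟩
      induction e using Sym2.ind with
      | _ u v =>
      rw [mem_edgeSet] at he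
      obtain ⟨huv, h1 | h1⟩ := he
      · have hu : u ≠ root := by
          rintro rfl
          rw [hroot] at h1
          exact huv h1
        refine ⟨⟨u, hu⟩, Subtype.ext ?_⟩
        show s(u, par u) = s(u, v)
        rw [h1]
      · have hv : v ≠ root := by
          rintro rfl
          rw [hroot] at h1
          exact huv h1.symm
        refine ⟨⟨v, hv⟩, Subtype.ext ?_⟩
        show s(v, par v) = s(u, v)
        rw [h1, Sym2.eq_swap]
  rw [← Nat.card_congr (Equiv.ofBijective f hf), Nat.card_eq_fintype_card,
    Nat.card_eq_fintype_card]
  have h2 : Fintype.card {v : V // v ≠ root} = Fintype.card V - 1 := by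
    simp
  have h3 : 0 < Fintype.card V := Fintype.card_pos_iff.2 ⟨root⟩
  omega

end Pool.Agent.H116.ParentTree
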